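import Pool.Agent.R243.WN.Meas

set_option autoImplicit false

/-!
# Functions of finitely many coordinates on the dyadic group
-/

namespace Pool.Agent.R165.WL

open MeasureTheory Set Filter Topology Pool.Agent.R243.WN
open scoped ENNReal NNReal

/-- `g` depends only on the first `n` coordinates -/
def Dep {β : Type*} (n : ℕ) (g : G → β) : Prop := ∀ x y : G, (∀ j < n, x j = y j) → g x = g y

section dep
variable {β γ : Type*}

theorem Dep.mono {n m : ℕ} (h : n ≤ m) {g : G → β} (hg : Dep n g) : Dep m g :=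
  fun x y hxy => hg x y fun j hj => hxy j (by omega)

theorem Dep.comp {n : ℕ} {g : G → β} (hg : Dep n g) (φ : β → γ) : Dep n (fun x => φ (g x)) :=
  fun x y hxy => congrArg φ (hg x y hxy)

theorem Dep.flp {n k : ℕ} (h : n ≤ k) {g : G → β} (hg : Dep n g) (x : G) :
    g (R243.WN.flip k x) = g x := hg _ _ fun j hj => flip_ne (show j ≠ k by omega) x

theorem dep_const (n : ℕ) (c : β) : Dep n (fun _ : G => c) := fun _ _ _ => rfl

theorem dep_w {n i : ℕ} (h : i < 2 ^ n) : Dep n (w i) := by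
  intro x y hxy
  rw [w_eq h, w_eq h]
  refine Finset.prod_congr rfl fun k hk => ?_
  rw [Finset.mem_range] at hk
  unfold r
  rw [hxy k hk]

theorem dep_r {n k : ℕ} (h : k < n) : Dep n (r k) := by
  intro x y hxy
  unfold r
  rw [hxy k h]

theorem Dep.add {n : ℕ} {g h : G → ℝ} (hg : Dep n g) (hh : Dep n h) : Dep n (fun x => g x + h x) :=
  fun x y hxy => congrArg₂ (· + ·) (hg x y hxy) (hh x y hxy)

theorem Dep.sub {n : ℕ} {g h : G → ℝ} (hg : Dep n g) (hh : Dep n h) : Dep n (fun x => g x - h x) :=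
  fun x y hxy => congrArg₂ (· - ·) (hg x y hxy) (hh x y hxy)

theorem Dep.mul {n : ℕ} {g h : G → ℝ} (hg : Dep n g) (hh : Dep n h) : Dep n (fun x => g x * h x) :=
  fun x y hxy => congrArg₂ (· * ·) (hg x y hxy) (hh x y hxy)

theorem Dep.sum {ι : Type*} {n : ℕ} {s : Finset ι} {g : ι → G → ℝ} (hg : ∀ i ∈ s, Dep n (g i)) :
    Dep n (fun x => ∑ i ∈ s, g i x) :=
  fun x y hxy => Finset.sum_congr rfl fun i hi => hg i hi x y hxy

/-- extension of a finite word by zeros -/
def ext (n : ℕ) (c : Fin n → Bool) : G := fun j => if h : j < n then c ⟨j, h⟩ else false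

theorem dep_factor {n : ℕ} {g : G → β} (hg : Dep n g) (x : G) :
    g x = g (ext n (fun i : Fin n => x i)) := by
  apply hg
  intro j hj
  simp [ext, hj]

theorem Dep.measurable [MeasurableSpace β] {n : ℕ} {g : G → β} (hg : Dep n g) : Measurable g := by
  have h1 : g = (fun c : Fin n → Bool => g (ext n c)) ∘ (fun x : G => fun i : Fin n => x i) := by
    funext x
    exact dep_factor hg x
  rw [h1]
  exact (measurable_of_finite _).comp (measurable_pi_lambda _ fun i => measurable_pi_apply (i : ℕ))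

theorem Dep.bounded {n : ℕ} {g : G → ℝ} (hg : Dep n g) : ∃ C : ℝ, 0 ≤ C ∧ ∀ x, |g x| ≤ C := by
  refine ⟨∑ c : Fin n → Bool, |g (ext n c)|, Finset.sum_nonneg fun _ _ => abs_nonneg _, fun x => ?_⟩
  rw [dep_factor hg x]
  exact Finset.single_le_sum (f := fun c : Fin n → Bool => |g (ext n c)|)
    (fun _ _ => abs_nonneg _) (Finset.mem_univ _)

theorem Dep.integrable {n : ℕ} {g : G → ℝ} (hg : Dep n g) (ν : Measure G) [IsFiniteMeasure ν] :
    Integrable g ν := by
  obtain ⟨C, -, hC⟩ := hg.bounded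
  exact Integrable.of_bound hg.measurable.aestronglyMeasurable C
    (Eventually.of_forall fun x => by rw [Real.norm_eq_abs]; exact hC x)

end dep

/-- the point with the binary digits of `l` -/
def cp (l : ℕ) : G := fun j => l.testBit j

theorem flip_cp {t l : ℕ} (h : l < 2 ^ t) : R243.WN.flip t (cp l) = cp (2 ^ t + l) := by
  funext j
  unfold cp
  rcases lt_trichotomy j t with hj | hj | hj
  · rw [flip_ne hj.ne, Nat.testBit_two_pow_add_gt hj]
  · subst hj
    rw [flip_self, Nat.testBit_two_pow_add_eq]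
  · rw [flip_ne hj.ne']
    have h2 : l < 2 ^ j := h.trans (Nat.pow_lt_pow_right (by norm_num) hj)
    have h3 : 2 ^ t + l < 2 ^ j := by
      have : 2 ^ (t + 1) ≤ 2 ^ j := Nat.pow_le_pow_right (by norm_num) hj
      rw [pow_succ] at this
      omega
    rw [testBit_false h2, testBit_false h3]

theorem dep_half {β : Type*} {t : ℕ} {g : G → β} (hg : Dep (t + 1) g) (x y : G)
    (hxy : ∀ j < t, x j = y j) :
    (g x = g y ∧ g (R243.WN.flip t x) = g (R243.WN.flip t y)) ∨ (g x = g (R243.WN.flip t y) ∧ g (R243.WN.flip t x) = g y) := by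
  by_cases h : x t = y t
  · left
    constructor
    · apply hg
      intro j hj
      rcases Nat.lt_succ_iff_lt_or_eq.1 hj with h1 | h1
      · exact hxy j h1
      · rw [h1, h]
    · apply hg
      intro j hj
      rcases Nat.lt_succ_iff_lt_or_eq.1 hj with h1 | h1
      · rw [flip_ne h1.ne, flip_ne h1.ne, hxy j h1]
      · rw [h1, flip_self, flip_self, h]
  · right
    have h2 : x t = !y t := by
      cases hx : x t <;> cases hy : y t <;> simp_all
    constructor
    · apply hg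
      intro j hj
      rcases Nat.lt_succ_iff_lt_or_eq.1 hj with h1 | h1
      · rw [flip_ne h1.ne, hxy j h1]
      · rw [h1, flip_self, h2]
    · apply hg
      intro j hj
      rcases Nat.lt_succ_iff_lt_or_eq.1 hj with h1 | h1
      · rw [flip_ne h1.ne, hxy j h1]
      · rw [h1, flip_self, h2, Bool.not_not]

theorem lint_dep {t : ℕ} {g : G → ℝ≥0∞} (hg : Dep t g) :
    ∫⁻ x, g x ∂mu = (2⁻¹ : ℝ≥0∞) ^ t * ∑ l ∈ Finset.range (2 ^ t), g (cp l) := by
  induction t generalizing g with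
  | zero =>
    have h1 : ∀ x, g x = g (cp 0) := fun x => hg x _ (by simp)
    simp only [h1]
    simp
  | succ t ih =>
    have hd : Dep t (fun x => 2⁻¹ * (g x + g (R243.WN.flip t x))) := by
      intro x y hxy
      beta_reduce
      rcases dep_half hg x y hxy with ⟨h1, h2⟩ | ⟨h1, h2⟩
      · rw [h1, h2]
      · rw [h1, h2, add_comm]
    have h1 := ih hd
    have h2 : ∫⁻ x, g (R243.WN.flip t x) ∂mu = ∫⁻ x, g x ∂mu := (flip_mp t).lintegral_comp hg.measurable
    have h3 : ∫⁻ x, 2⁻¹ * (g x + g (R243.WN.flip t x)) ∂mu = ∫⁻ x, g x ∂mu := by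
      have hmm : Measurable (fun x => g x + g (R243.WN.flip t x)) :=
        hg.measurable.add (hg.measurable.comp (flip_measurable t))
      rw [lintegral_const_mul _ hmm,
        lintegral_add_left hg.measurable, h2, ← two_mul, ← mul_assoc,
        ENNReal.inv_mul_cancel (by norm_num) (by norm_num), one_mul]
    rw [h3] at h1
    rw [h1, pow_succ (2⁻¹ : ℝ≥0∞), pow_succ 2 t, mul_two, Finset.sum_range_add, mul_assoc]
    congr 1
    rw [← Finset.mul_sum, Finset.sum_add_distrib]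
    congr 2
    refine Finset.sum_congr rfl fun l hl => ?_
    rw [flip_cp (Finset.mem_range.1 hl)]

theorem int_dep {t : ℕ} {g : G → ℝ} (hg : Dep t g) :
    ∫ x, g x ∂mu = (2⁻¹ : ℝ) ^ t * ∑ l ∈ Finset.range (2 ^ t), g (cp l) := by
  induction t generalizing g with
  | zero =>
    have h1 : ∀ x, g x = g (cp 0) := fun x => hg x _ (by simp)
    simp only [h1]
    simp
  | succ t ih =>
    have hd : Dep t (fun x => 2⁻¹ * (g x + g (R243.WN.flip t x))) := by
      intro x y hxy
      beta_reduce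
      rcases dep_half hg x y hxy with ⟨h1, h2⟩ | ⟨h1, h2⟩
      · rw [h1, h2]
      · rw [h1, h2, add_comm]
    have h1 := ih hd
    have hgi := hg.integrable mu
    have hgm : AEStronglyMeasurable g (mu.map (R243.WN.flip t)) := hg.measurable.aestronglyMeasurable
    have h2 : ∫ x, g (R243.WN.flip t x) ∂mu = ∫ x, g x ∂mu := by
      conv_rhs => rw [← (flip_mp t).map_eq]
      exact (integral_map (flip_measurable t).aemeasurable hgm).symm
    have hgf : Integrable (fun x => g (R243.WN.flip t x)) mu := (flip_mp t).integrable_comp_of_integrable hgi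
    have h3 : ∫ x, 2⁻¹ * (g x + g (R243.WN.flip t x)) ∂mu = ∫ x, g x ∂mu := by
      rw [integral_const_mul, integral_add hgi hgf, h2]
      ring
    rw [h3] at h1
    rw [h1, pow_succ (2⁻¹ : ℝ), pow_succ 2 t, mul_two, Finset.sum_range_add, mul_assoc]
    congr 1
    rw [← Finset.mul_sum, Finset.sum_add_distrib]
    congr 2
    refine Finset.sum_congr rfl fun l hl => ?_
    rw [flip_cp (Finset.mem_range.1 hl)]

/-- translation -/
def tr (c x : G) : G := fun j => xor (x j) (c j)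

theorem tr_measurable (c : G) : Measurable (tr c) := by
  refine measurable_pi_lambda _ fun j => ?_
  have h : Measurable (fun x : G => x j) := measurable_pi_apply j
  exact (measurable_of_finite (fun b : Bool => xor b (c j))).comp h

theorem tr_mp (c : G) : MeasurePreserving (tr c) mu mu := by
  refine ⟨tr_measurable c, ?_⟩
  have h1 : tr c = fun x i => (fun (i : ℕ) (b : Bool) => xor b (c i)) i (x i) := rfl
  rw [h1]
  unfold mu
  have h2 := Measure.infinitePi_map_pi (μ := fun _ : ℕ => (PMF.uniformOfFintype Bool).toMeasure)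
    (f := fun (i : ℕ) (b : Bool) => xor b (c i)) (fun i => measurable_of_finite _)
  refine h2.trans ?_
  · congr 1
    funext i
    refine Measure.ext_of_singleton ?_
    intro b
    rw [Measure.map_apply (measurable_of_finite _) (measurableSet_singleton _)]
    have : (fun b : Bool => xor b (c i)) ⁻¹' {b} = {xor b (c i)} := by
      ext a
      cases b <;> cases a <;> cases c i <;> simp
    rw [this, coin_singleton, coin_singleton]

theorem r_tr (k : ℕ) (c x : G) : r k (tr c x) = r k x * r k c := by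
  unfold r tr
  cases x k <;> cases c k <;> simp

theorem w_tr (i : ℕ) (c x : G) : w i (tr c x) = w i x * w i c := by
  unfold w
  rw [← Finset.prod_mul_distrib]
  refine Finset.prod_congr rfl fun k _ => ?_
  rw [r_tr]
  split_ifs
  · rfl
  · norm_num

/-- Fourier coefficients of a function -/
noncomputable def ft (g : G → ℝ) (i : ℕ) : ℝ := ∫ x, g x * w i x ∂mu

/-- partial sums of the Fourier series of a function -/
noncomputable def Sg (g : G → ℝ) (j : ℕ) (x : G) : ℝ := ∑ i ∈ Finset.range j, ft g i * w i x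

theorem dep_Sg {n j : ℕ} (h : j ≤ 2 ^ n) (g : G → ℝ) : Dep n (Sg g j) := by
  unfold Sg
  apply Dep.sum
  intro i hi
  exact (dep_const n (ft g i)).mul (dep_w ((Finset.mem_range.1 hi).trans_le h))

theorem dep_D {n j : ℕ} (h : j ≤ 2 ^ n) : Dep n (D j) := by
  unfold D
  apply Dep.sum
  intro i hi
  exact dep_w ((Finset.mem_range.1 hi).trans_le h)

theorem ft_dep {t i : ℕ} {g : G → ℝ} (hg : Dep t g) (hi : i < 2 ^ t) :
    ft g i = (2⁻¹ : ℝ) ^ t * ∑ l ∈ Finset.range (2 ^ t), g (cp l) * w i (cp l) :=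
  int_dep (hg.mul (dep_w hi))

/-- convolution formula -/
theorem Sg_conv {t j : ℕ} {g : G → ℝ} (hg : Dep t g) (hj : j ≤ 2 ^ t) (x : G) :
    Sg g j x = (2⁻¹ : ℝ) ^ t * ∑ l ∈ Finset.range (2 ^ t), g (cp l) * D j (tr (cp l) x) := by
  unfold Sg D
  have h1 : ∀ i ∈ Finset.range j, ft g i * w i x = (2⁻¹ : ℝ) ^ t *
      ∑ l ∈ Finset.range (2 ^ t), g (cp l) * (w i x * w i (cp l)) := by
    intro i hi
    rw [ft_dep hg ((Finset.mem_range.1 hi).trans_le hj), mul_assoc, Finset.sum_mul]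
    congr 1
    refine Finset.sum_congr rfl fun l _ => ?_
    ring
  rw [Finset.sum_congr rfl h1, ← Finset.mul_sum, Finset.sum_comm]
  congr 1
  refine Finset.sum_congr rfl fun l _ => ?_
  rw [Finset.mul_sum]
  refine Finset.sum_congr rfl fun i _ => ?_
  rw [w_tr]

/-- `∫ |g|^p` -/
noncomputable def J (p : ℝ) (g : G → ℝ) : ℝ≥0∞ := ∫⁻ x, ‖g x‖ₑ ^ p ∂mu

theorem enorm_sum_rpow_le {ι : Type*} (s : Finset ι) (f : ι → ℝ) {p : ℝ} (hp0 : 0 < p)
    (hp1 : p ≤ 1) : ‖∑ i ∈ s, f i‖ₑ ^ p ≤ ∑ i ∈ s, ‖f i‖ₑ ^ p := by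
  classical
  induction s using Finset.induction_on with
  | empty => simp [ENNReal.zero_rpow_of_pos hp0]
  | insert a s ha ih =>
    rw [Finset.sum_insert ha, Finset.sum_insert ha]
    calc ‖f a + ∑ i ∈ s, f i‖ₑ ^ p ≤ (‖f a‖ₑ + ‖∑ i ∈ s, f i‖ₑ) ^ p :=
          ENNReal.rpow_le_rpow (enorm_add_le _ _) hp0.le
      _ ≤ ‖f a‖ₑ ^ p + ‖∑ i ∈ s, f i‖ₑ ^ p := ENNReal.rpow_add_le_add_rpow _ _ hp0.le hp1
      _ ≤ _ := by gcongr

theorem J_sum_le {ι : Type*} (s : Finset ι) {f : ι → G → ℝ} (hf : ∀ i ∈ s, Measurable (f i)) {p : ℝ}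
    (hp0 : 0 < p) (hp1 : p ≤ 1) : J p (fun x => ∑ i ∈ s, f i x) ≤ ∑ i ∈ s, J p (f i) := by
  unfold J
  rw [← lintegral_finsetSum' s (fun i hi => ((hf i hi).enorm.pow_const p).aemeasurable)]
  exact lintegral_mono fun x => enorm_sum_rpow_le s (fun i => f i x) hp0 hp1

theorem J_add_le {f g : G → ℝ} (hf : Measurable f) {p : ℝ} (hp0 : 0 < p)
    (hp1 : p ≤ 1) : J p (fun x => f x + g x) ≤ J p f + J p g := by
  unfold J
  rw [← lintegral_add_left (hf.enorm.pow_const p)]
  refine lintegral_mono fun x => ?_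
  exact (ENNReal.rpow_le_rpow (enorm_add_le _ _) hp0.le).trans
    (ENNReal.rpow_add_le_add_rpow _ _ hp0.le hp1)

theorem J_const_mul (c : ℝ) (g : G → ℝ) {p : ℝ} (hp0 : 0 < p) :
    J p (fun x => c * g x) = ‖c‖ₑ ^ p * J p g := by
  unfold J
  have h1 : ∀ x, ‖c * g x‖ₑ ^ p = ‖c‖ₑ ^ p * ‖g x‖ₑ ^ p := by
    intro x
    rw [enorm_mul, ENNReal.mul_rpow_of_nonneg _ _ hp0.le]
  simp only [h1]
  exact lintegral_const_mul' _ _ (ENNReal.rpow_ne_top_of_nonneg hp0.le enorm_ne_top)

theorem w_enorm (n : ℕ) (x : G) : ‖w n x‖ₑ = 1 := by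
  rw [Real.enorm_eq_ofReal_abs, w_abs, ENNReal.ofReal_one]

theorem J_w_mul (n : ℕ) (g : G → ℝ) (p : ℝ) : J p (fun x => w n x * g x) = J p g := by
  unfold J
  refine lintegral_congr fun x => ?_
  rw [enorm_mul, w_enorm, one_mul]

/-- the convolution inequality -/
theorem conv_bound {t R : ℕ} (hR : R ≤ 2 ^ t) {e : G → ℝ} (he : Dep t e) (β : ℕ → ℝ) {p : ℝ}
    (hp0 : 0 < p) (hp1 : p ≤ 1) :
    J p (fun x => ∑ j ∈ Finset.range R, β j * Sg e j x) ≤
      ENNReal.ofReal (((2 : ℝ) ^ t) ^ (1 - p)) * J p e *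
        J p (fun x => ∑ j ∈ Finset.range R, β j * D j x) := by
  set K : G → ℝ := fun x => ∑ j ∈ Finset.range R, β j * D j x with hK
  have hKd : Dep t K := by
    apply Dep.sum
    intro j hj
    exact (dep_const t (β j)).mul (dep_D ((Finset.mem_range.1 hj).le.trans hR))
  have h1 : ∀ x, ∑ j ∈ Finset.range R, β j * Sg e j x =
      ∑ l ∈ Finset.range (2 ^ t), ((2⁻¹ : ℝ) ^ t * e (cp l)) * K (tr (cp l) x) := by
    intro x
    rw [hK]
    simp only [Finset.mul_sum]
    rw [Finset.sum_comm]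
    refine Finset.sum_congr rfl fun j hj => ?_
    rw [Sg_conv he ((Finset.mem_range.1 hj).le.trans hR), Finset.mul_sum, Finset.mul_sum]
    refine Finset.sum_congr rfl fun l _ => ?_
    ring
  simp only [h1]
  refine (J_sum_le (f := fun l x => ((2⁻¹ : ℝ) ^ t * e (cp l)) * K (tr (cp l) x)) _
    (fun l _ => measurable_const.mul (hKd.measurable.comp (tr_measurable _))) hp0 hp1).trans ?_
  have h2 : ∀ l, J p (fun x => ((2⁻¹ : ℝ) ^ t * e (cp l)) * K (tr (cp l) x)) =
      (‖(2⁻¹ : ℝ) ^ t‖ₑ ^ p * ‖e (cp l)‖ₑ ^ p) * J p K := by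
    intro l
    rw [J_const_mul _ _ hp0, enorm_mul, ENNReal.mul_rpow_of_nonneg _ _ hp0.le]
    congr 1
    exact (tr_mp (cp l)).lintegral_comp (hKd.measurable.enorm.pow_const p)
  rw [Finset.sum_congr rfl (fun l _ => h2 l), ← Finset.sum_mul]
  gcongr
  rw [← Finset.mul_sum]
  have h3 : J p e = (2⁻¹ : ℝ≥0∞) ^ t * ∑ l ∈ Finset.range (2 ^ t), ‖e (cp l)‖ₑ ^ p :=
    lint_dep (he.comp (fun y => ‖y‖ₑ ^ p))
  rw [h3, ← mul_assoc]
  gcongr
  have h4 : ‖(2⁻¹ : ℝ) ^ t‖ₑ = ENNReal.ofReal ((2⁻¹ : ℝ) ^ t) := by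
    rw [Real.enorm_eq_ofReal_abs, abs_of_nonneg (by positivity)]
  have h5 : (2⁻¹ : ℝ≥0∞) ^ t = ENNReal.ofReal ((2⁻¹ : ℝ) ^ t) := by
    rw [ENNReal.ofReal_pow (by norm_num), ENNReal.ofReal_inv_of_pos (by norm_num)]
    norm_num
  rw [h4, h5, ENNReal.ofReal_rpow_of_nonneg (by positivity) hp0.le,
    ← ENNReal.ofReal_mul (by positivity)]
  apply ENNReal.ofReal_le_ofReal
  apply le_of_eq
  have h2t : (0 : ℝ) < 2 ^ t := by positivity
  rw [inv_pow, Real.inv_rpow h2t.le, Real.rpow_sub h2t, Real.rpow_one]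
  have : ((2 : ℝ) ^ t) ^ p ≠ 0 := (Real.rpow_pos_of_pos h2t p).ne'
  field_simp

end Pool.Agent.R165.WL
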