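import Pool.Agent.R165.WL.A

set_option autoImplicit false

/-!
# Kernel estimates on the shells `x_0 = ... = x_(s-1) = 0, x_s = 1`
-/

namespace Pool.Agent.R165.WL

open MeasureTheory Set Filter Topology Pool.Agent.R243.WN
open scoped ENNReal NNReal

/-- the shell -/
def Ash (s : ℕ) : Set G := {x | (∀ j < s, x j = false) ∧ x s = true}

theorem Ash_eq (s : ℕ) : Ash s = R243.WN.I (s + 1) (fun j => decide (j = s)) := by
  ext x
  simp only [Ash, R243.WN.I, Set.mem_ofPred_eq]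
  constructor
  · rintro ⟨h0, h1⟩ j hj
    rcases Nat.lt_succ_iff_lt_or_eq.1 hj with h | h
    · rw [h0 j h]
      simp [h.ne]
    · rw [h, h1]
      simp
  · intro h
    refine ⟨fun j hj => ?_, ?_⟩
    · rw [h j (by omega)]
      simp [hj.ne]
    · rw [h s (by omega)]
      simp

theorem Ash_meas (s : ℕ) : MeasurableSet (Ash s) := by
  rw [Ash_eq]; exact I_meas _ _

theorem mu_Ash (s : ℕ) : mu (Ash s) = (2⁻¹ : ℝ≥0∞) ^ (s + 1) := by
  rw [Ash_eq, mu_I]

theorem real_Ash (s : ℕ) : mu.real (Ash s) = (2⁻¹ : ℝ) ^ (s + 1) := by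
  rw [Measure.real, mu_Ash, ENNReal.toReal_pow, ENNReal.toReal_inv]
  norm_num

theorem lint_shells (h : G → ℝ≥0∞) (t : ℕ) : ∫⁻ x, h x ∂mu ≤
    ∑ s ∈ Finset.range t, ∫⁻ x in Ash s, h x ∂mu +
      ∫⁻ x in R243.WN.I t (fun _ => false), h x ∂mu := by
  induction t with
  | zero =>
    have : R243.WN.I 0 (fun _ => false) = Set.univ := by
      ext x; simp [R243.WN.I]
    rw [this]
    simp
  | succ t ih =>
    refine ih.trans ?_
    rw [Finset.sum_range_succ, add_assoc]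
    gcongr
    have hsub : R243.WN.I t (fun _ => false) ⊆ Ash t ∪ R243.WN.I (t + 1) (fun _ => false) := by
      intro x hx
      cases hxt : x t
      · right
        intro j hj
        rcases Nat.lt_succ_iff_lt_or_eq.1 hj with h1 | h1
        · exact hx j h1
        · rw [h1, hxt]
      · left
        exact ⟨fun j hj => hx j hj, hxt⟩
    exact (lintegral_mono_set hsub).trans (lintegral_union_le _ _ _)

theorem D_shell {s a b : ℕ} {x : G} (hx : x ∈ Ash s) (hb : b ≤ 2 ^ (s + 1)) :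
    D (2 ^ (s + 1) * a + b) x = w (2 ^ (s + 1) * a) x * tent s b := by
  rw [D_block hb, D_mul_zero (D_two hx.1 hx.2), D_tent hx.1 hx.2 hb, zero_add]

theorem D_shell_le {s j : ℕ} {x : G} (hx : x ∈ Ash s) : |D j x| ≤ 2 ^ s := by
  have h0 : 0 < 2 ^ (s + 1) := Nat.two_pow_pos _
  have h1 : j = 2 ^ (s + 1) * (j / 2 ^ (s + 1)) + j % 2 ^ (s + 1) := (Nat.div_add_mod _ _).symm
  have h2 := Nat.mod_lt j h0
  rw [h1, D_shell hx h2.le, abs_mul, w_abs, one_mul, abs_of_nonneg (tent_nonneg h2)]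
  exact tent_le

theorem tent_le_id (s i : ℕ) : tent s i ≤ i := by
  unfold tent
  split_ifs with h
  · exact le_rfl
  · have h1 : (2 : ℝ) ^ s < i := by
      have := not_le.1 h
      exact_mod_cast this
    rw [pow_succ]
    linarith

/-- block coefficients -/
noncomputable def cc (β : ℕ → ℝ) (s a : ℕ) : ℝ :=
  ∑ b ∈ Finset.range (2 ^ (s + 1)), β (2 ^ (s + 1) * a + b) * tent s b

theorem shell_sum (β : ℕ → ℝ) {s : ℕ} {x : G} (hx : x ∈ Ash s) (R : ℕ) :
    ∑ j ∈ Finset.range (2 ^ (s + 1) * R), β j * D j x =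
      ∑ a ∈ Finset.range R, w (2 ^ (s + 1) * a) x * cc β s a := by
  induction R with
  | zero => simp
  | succ R ih =>
    rw [mul_add, mul_one, Finset.sum_range_add, ih, Finset.sum_range_succ]
    congr 1
    unfold cc
    rw [Finset.mul_sum]
    refine Finset.sum_congr rfl fun b hb => ?_
    rw [D_shell hx (Finset.mem_range.1 hb).le]
    ring

theorem Ash_flip {s k : ℕ} (hk : s + 1 ≤ k) (x : G) :
    R243.WN.flip k x ∈ Ash s ↔ x ∈ Ash s := by
  unfold Ash
  simp only [Set.mem_ofPred_eq]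
  rw [flip_ne (show s ≠ k by omega)]
  have h3 : (∀ j < s, R243.WN.flip k x j = false) ↔ (∀ j < s, x j = false) := by
    constructor
    · intro h j hj
      rw [← flip_ne (show j ≠ k by omega) x]
      exact h j hj
    · intro h j hj
      rw [flip_ne (show j ≠ k by omega) x]
      exact h j hj
  rw [h3]

theorem Ash_orth (s a a' : ℕ) :
    ∫ x in Ash s, w (2 ^ (s + 1) * a) x * w (2 ^ (s + 1) * a') x ∂mu =
      if a = a' then (2⁻¹ : ℝ) ^ (s + 1) else 0 := by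
  by_cases h : a = a'
  · subst h
    rw [if_pos rfl]
    simp only [w_mul_self]
    rw [setIntegral_const, smul_eq_mul, mul_one, real_Ash]
  · rw [if_neg h]
    obtain ⟨k, hk⟩ := Nat.exists_testBit_ne_of_ne h
    rw [← integral_indicator (Ash_meas s)]
    refine integral_zero_of_flip (s + 1 + k) (fun x => ?_)
      (((w_measurable _).mul (w_measurable _)).indicator (Ash_meas s))
    by_cases hx : x ∈ Ash s
    · rw [indicator_of_mem hx, indicator_of_mem ((Ash_flip (by omega) x).2 hx), w_flip, w_flip]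
      have e1 : (2 ^ (s + 1) * a).testBit (s + 1 + k) = a.testBit k := by
        rw [Nat.testBit_two_pow_mul]; simp
      have e2 : (2 ^ (s + 1) * a').testBit (s + 1 + k) = a'.testBit k := by
        rw [Nat.testBit_two_pow_mul]; simp
      rw [e1, e2]
      cases h1 : a.testBit k <;> cases h2 : a'.testBit k <;> simp_all
    · rw [indicator_of_notMem hx, indicator_of_notMem (fun h => hx ((Ash_flip (by omega) x).1 h)),
        neg_zero]

theorem Ash_sq (s R : ℕ) (c : ℕ → ℝ) :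
    ∫ x in Ash s, (∑ a ∈ Finset.range R, w (2 ^ (s + 1) * a) x * c a) ^ 2 ∂mu =
      (2⁻¹ : ℝ) ^ (s + 1) * ∑ a ∈ Finset.range R, c a ^ 2 := by
  have h1 : ∀ x, (∑ a ∈ Finset.range R, w (2 ^ (s + 1) * a) x * c a) ^ 2 =
      ∑ a ∈ Finset.range R, ∑ a' ∈ Finset.range R,
        (c a * c a') * (w (2 ^ (s + 1) * a) x * w (2 ^ (s + 1) * a') x) := by
    intro x
    rw [sq, Finset.sum_mul_sum]
    refine Finset.sum_congr rfl fun a _ => Finset.sum_congr rfl fun a' _ => ?_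
    ring
  simp only [h1]
  have hint : ∀ a a', Integrable (fun x => (c a * c a') *
      (w (2 ^ (s + 1) * a) x * w (2 ^ (s + 1) * a') x)) (mu.restrict (Ash s)) := by
    intro a a'
    refine Integrable.const_mul ?_ _
    refine Integrable.of_bound ((w_measurable _).mul (w_measurable _)).aestronglyMeasurable 1
      (Eventually.of_forall fun x => ?_)
    rw [Real.norm_eq_abs, abs_mul, w_abs, w_abs, one_mul]
  rw [integral_finsetSum _ (fun a _ => integrable_finsetSum _ fun a' _ => hint a a')]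
  rw [Finset.mul_sum]
  refine Finset.sum_congr rfl fun a ha => ?_
  rw [integral_finsetSum _ (fun a' _ => hint a a')]
  simp only [integral_const_mul, Ash_orth]
  rw [Finset.sum_eq_single a]
  · rw [if_pos rfl]; ring
  · intro b _ hb
    rw [if_neg (Ne.symm hb), mul_zero]
  · intro h; exact absurd ha h

theorem rpow_bound {y A p : ℝ} (hA : 0 < A) (hp0 : 0 < p) (hp2 : p ≤ 2) :
    |y| ^ p ≤ A ^ p + A ^ (p - 2) * y ^ 2 := by
  rcases le_or_gt |y| A with h | h
  · have h1 : |y| ^ p ≤ A ^ p := Real.rpow_le_rpow (abs_nonneg _) h hp0.le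
    have h2 : 0 ≤ A ^ (p - 2) * y ^ 2 := mul_nonneg (Real.rpow_nonneg hA.le _) (sq_nonneg _)
    linarith
  · have hy : 0 < |y| := hA.trans h
    have h1 : |y| ^ p = |y| ^ (p - 2) * y ^ 2 := by
      rw [← sq_abs y, ← Real.rpow_two, ← Real.rpow_add hy]
      congr 1
      ring
    have h2 : |y| ^ (p - 2) ≤ A ^ (p - 2) :=
      Real.rpow_le_rpow_of_nonpos hA h.le (by linarith)
    have h3 : 0 ≤ A ^ p := Real.rpow_nonneg hA.le _
    have h4 : |y| ^ (p - 2) * y ^ 2 ≤ A ^ (p - 2) * y ^ 2 :=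
      mul_le_mul_of_nonneg_right h2 (sq_nonneg _)
    linarith

theorem shell_bound {s R : ℕ} {c : ℕ → ℝ} {A p : ℝ} (hA : 0 < A) (hp0 : 0 < p) (hp2 : p ≤ 2)
    (hc : ∑ a ∈ Finset.range R, c a ^ 2 ≤ A ^ 2) :
    ∫⁻ x in Ash s, ‖∑ a ∈ Finset.range R, w (2 ^ (s + 1) * a) x * c a‖ₑ ^ p ∂mu ≤
      ENNReal.ofReal ((2⁻¹ : ℝ) ^ s * A ^ p) := by
  set y : G → ℝ := fun x => ∑ a ∈ Finset.range R, w (2 ^ (s + 1) * a) x * c a with hy
  have hym : Measurable y := Finset.measurable_fun_sum _ fun a _ => (w_measurable _).mul_const _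
  have hyb : ∀ x, |y x| ≤ ∑ a ∈ Finset.range R, |c a| := by
    intro x
    refine (Finset.abs_sum_le_sum_abs _ _).trans (Finset.sum_le_sum fun a _ => ?_)
    rw [abs_mul, w_abs, one_mul]
  have hint2 : Integrable (fun x => y x ^ 2) (mu.restrict (Ash s)) := by
    refine Integrable.of_bound (hym.pow_const 2).aestronglyMeasurable
      ((∑ a ∈ Finset.range R, |c a|) ^ 2) (Eventually.of_forall fun x => ?_)
    rw [Real.norm_eq_abs, abs_pow]
    exact pow_le_pow_left₀ (abs_nonneg _) (hyb x) 2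
  have hint : Integrable (fun x => A ^ p + A ^ (p - 2) * y x ^ 2) (mu.restrict (Ash s)) :=
    (integrable_const _).add (hint2.const_mul _)
  have h1 : ∀ x, ‖y x‖ₑ ^ p ≤ ENNReal.ofReal (A ^ p + A ^ (p - 2) * y x ^ 2) := by
    intro x
    rw [Real.enorm_eq_ofReal_abs, ENNReal.ofReal_rpow_of_nonneg (abs_nonneg _) hp0.le]
    exact ENNReal.ofReal_le_ofReal (rpow_bound hA hp0 hp2)
  refine (lintegral_mono h1).trans ?_
  rw [← ofReal_integral_eq_lintegral_ofReal hint (Eventually.of_forall fun x => by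
    have := Real.rpow_nonneg hA.le p
    have := Real.rpow_nonneg hA.le (p - 2)
    positivity)]
  apply ENNReal.ofReal_le_ofReal
  rw [integral_add (integrable_const _) (hint2.const_mul _), integral_const_mul, Ash_sq,
    setIntegral_const, smul_eq_mul, real_Ash]
  have h3 : A ^ (p - 2) * A ^ 2 = A ^ p := by
    rw [← Real.rpow_two, ← Real.rpow_add hA]
    congr 1
    ring
  have h4 : A ^ (p - 2) * ((2⁻¹ : ℝ) ^ (s + 1) * ∑ a ∈ Finset.range R, c a ^ 2) ≤
      (2⁻¹ : ℝ) ^ (s + 1) * A ^ p := by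
    calc A ^ (p - 2) * ((2⁻¹ : ℝ) ^ (s + 1) * ∑ a ∈ Finset.range R, c a ^ 2)
        ≤ A ^ (p - 2) * ((2⁻¹ : ℝ) ^ (s + 1) * A ^ 2) := by
          have := Real.rpow_nonneg hA.le (p - 2)
          gcongr
      _ = (2⁻¹ : ℝ) ^ (s + 1) * (A ^ (p - 2) * A ^ 2) := by ring
      _ = _ := by rw [h3]
  calc (2⁻¹ : ℝ) ^ (s + 1) * A ^ p +
        A ^ (p - 2) * ((2⁻¹ : ℝ) ^ (s + 1) * ∑ a ∈ Finset.range R, c a ^ 2)
      ≤ (2⁻¹ : ℝ) ^ (s + 1) * A ^ p + (2⁻¹ : ℝ) ^ (s + 1) * A ^ p := by linarith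
    _ = (2⁻¹ : ℝ) ^ s * A ^ p := by rw [pow_succ]; ring

/-- the last piece -/
theorem last_bound {t R : ℕ} (hR : R ≤ 2 ^ t) (β : ℕ → ℝ) {B p : ℝ} (hp0 : 0 < p) (hB : 0 ≤ B)
    (h : ∑ j ∈ Finset.range R, |β j| * j ≤ B) :
    ∫⁻ x in R243.WN.I t (fun _ => false), ‖∑ j ∈ Finset.range R, β j * D j x‖ₑ ^ p ∂mu ≤
      ENNReal.ofReal ((2⁻¹ : ℝ) ^ t * B ^ p) := by
  have h1 : ∀ x ∈ R243.WN.I t (fun _ => false), ‖∑ j ∈ Finset.range R, β j * D j x‖ₑ ^ p ≤
      ENNReal.ofReal (B ^ p) := by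
    intro x hx
    rw [Real.enorm_eq_ofReal_abs, ENNReal.ofReal_rpow_of_nonneg (abs_nonneg _) hp0.le]
    apply ENNReal.ofReal_le_ofReal
    apply Real.rpow_le_rpow (abs_nonneg _) _ hp0.le
    refine le_trans ((Finset.abs_sum_le_sum_abs _ _).trans (Finset.sum_le_sum fun j hj => ?_)) h
    rw [abs_mul, D_low (s := t) (fun i hi => hx i hi) ((Finset.mem_range.1 hj).le.trans hR)]
    rw [Nat.abs_cast]
  refine (setLIntegral_mono measurable_const h1).trans ?_
  rw [setLIntegral_const, mu_I, mul_comm]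
  have h5 : (2⁻¹ : ℝ≥0∞) ^ t = ENNReal.ofReal ((2⁻¹ : ℝ) ^ t) := by
    rw [ENNReal.ofReal_pow (by norm_num), ENNReal.ofReal_inv_of_pos (by norm_num)]
    norm_num
  rw [h5, ← ENNReal.ofReal_mul (by positivity)]

theorem harm_le (L : ℕ) : ∑ v ∈ Finset.range L, 1 / ((v : ℝ) + 1) ≤ 1 + Real.log L := by
  have h := harmonic_le_one_add_log L
  have e : ((harmonic L : ℚ) : ℝ) = ∑ v ∈ Finset.range L, 1 / ((v : ℝ) + 1) := by
    unfold harmonic
    push_cast
    simp [one_div]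
  rw [← e]
  exact h

theorem harm_pow (s : ℕ) {L : ℕ} (hL : L ≤ 2 ^ (s + 1)) :
    ∑ v ∈ Finset.range L, 1 / ((v : ℝ) + 1) ≤ s + 2 := by
  have h1 : ∑ v ∈ Finset.range L, 1 / ((v : ℝ) + 1) ≤
      ∑ v ∈ Finset.range (2 ^ (s + 1)), 1 / ((v : ℝ) + 1) :=
    Finset.sum_le_sum_of_subset_of_nonneg (Finset.range_mono hL) fun _ _ _ => by positivity
  refine h1.trans ((harm_le _).trans ?_)
  push_cast
  rw [Real.log_pow]
  have := Real.log_two_lt_d9
  have h2 : (0 : ℝ) ≤ ((s + 1 : ℕ) : ℝ) := Nat.cast_nonneg _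
  push_cast at h2 ⊢
  nlinarith

theorem sum_inv_sq (n : ℕ) : ∑ j ∈ Finset.range n, (1 / ((j : ℝ) + 1)) ^ 2 ≤ 2 := by
  have h : ∑ j ∈ Finset.range n, (1 / ((j : ℝ) + 1)) ^ 2 ≤ 2 - 2 / ((n : ℝ) + 1) := by
    induction n with
    | zero => simp
    | succ n ih =>
      rw [Finset.sum_range_succ]
      have h1 : (1 / ((n : ℝ) + 1)) ^ 2 ≤ 2 / ((n : ℝ) + 1) - 2 / ((n : ℝ) + 1 + 1) := by
        have hn : (0 : ℝ) ≤ n := Nat.cast_nonneg n
        rw [div_sub_div _ _ (by positivity) (by positivity), div_pow, one_pow,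
          div_le_div_iff₀ (by positivity) (by positivity)]
        nlinarith
      push_cast
      linarith
  have h2 : 0 ≤ 2 / ((n : ℝ) + 1) := by positivity
  linarith

/-- the kernel coefficients of type A -/
noncomputable def bA (Jn M : ℕ) (j : ℕ) : ℝ := if j < Jn then 1 / ((M : ℝ) - j) else 0

theorem bA_nonneg {Jn M : ℕ} (h : Jn ≤ M) (j : ℕ) : 0 ≤ bA Jn M j := by
  unfold bA
  split_ifs with h1
  · have : (j : ℝ) < M := by exact_mod_cast (h1.trans_le h)
    have : 0 < (M : ℝ) - j := by linarith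
    positivity
  · exact le_rfl

/-- window sums -/
theorem window_bound {Jn M s a : ℕ} (h : Jn ≤ M) (ha : 2 ^ (s + 1) * a < Jn) :
    ∑ b ∈ Finset.range (2 ^ (s + 1)), bA Jn M (2 ^ (s + 1) * a + b) ≤ s + 2 := by
  set L := min (2 ^ (s + 1)) (Jn - 2 ^ (s + 1) * a) with hL
  have hLQ : L ≤ 2 ^ (s + 1) := min_le_left _ _
  have h1 : ∑ b ∈ Finset.range (2 ^ (s + 1)), bA Jn M (2 ^ (s + 1) * a + b) =
      ∑ b ∈ Finset.range L, bA Jn M (2 ^ (s + 1) * a + b) := by
    symm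
    apply Finset.sum_subset (Finset.range_mono hLQ)
    intro b hb hb'
    rw [Finset.mem_range] at hb hb'
    unfold bA
    rw [if_neg]
    omega
  rw [h1]
  have h2 : ∑ b ∈ Finset.range L, bA Jn M (2 ^ (s + 1) * a + b) ≤
      ∑ b ∈ Finset.range L, 1 / (((L - 1 - b : ℕ) : ℝ) + 1) := by
    apply Finset.sum_le_sum
    intro b hb
    rw [Finset.mem_range] at hb
    unfold bA
    have h3 : 2 ^ (s + 1) * a + b < Jn := by omega
    rw [if_pos h3]
    apply one_div_le_one_div_of_le (by positivity)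
    have h4 : (L - 1 - b) + 1 + (2 ^ (s + 1) * a + b) ≤ M := by omega
    have h5 : (((L - 1 - b) + 1 + (2 ^ (s + 1) * a + b) : ℕ) : ℝ) ≤ M := by exact_mod_cast h4
    push_cast at h5 ⊢
    linarith
  refine h2.trans ?_
  rw [Finset.sum_range_reflect (fun v => 1 / ((v : ℝ) + 1)) L]
  exact harm_pow s hLQ

theorem cc_le {β : ℕ → ℝ} (hβ : ∀ j, 0 ≤ β j) (s a : ℕ) :
    0 ≤ cc β s a ∧ cc β s a ≤ 2 ^ s * ∑ b ∈ Finset.range (2 ^ (s + 1)), β (2 ^ (s + 1) * a + b) := by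
  unfold cc
  constructor
  · exact Finset.sum_nonneg fun b hb => mul_nonneg (hβ _) (tent_nonneg (Finset.mem_range.1 hb))
  · rw [Finset.mul_sum]
    apply Finset.sum_le_sum
    intro b _
    rw [mul_comm]
    exact mul_le_mul_of_nonneg_right tent_le (hβ _)

theorem cc_A_le {Jn M s a : ℕ} (h : Jn ≤ M) (hJ : 0 < Jn) (ha : a ≤ (Jn - 1) / 2 ^ (s + 1)) :
    cc (bA Jn M) s a ≤ 2 ^ s * (2 * (s + 2)) *
      (1 / ((((Jn - 1) / 2 ^ (s + 1) - a : ℕ) : ℝ) + 1)) := by
  set Q := 2 ^ (s + 1) with hQ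
  have hQ0 : 0 < Q := Nat.two_pow_pos _
  set a1 := (Jn - 1) / Q with ha1
  have ha1Q : Q * a1 ≤ Jn - 1 := Nat.mul_div_le _ _
  have haQ : Q * a < Jn := by
    have : Q * a ≤ Q * a1 := Nat.mul_le_mul_left _ ha
    omega
  have h1 := (cc_le (bA_nonneg h) s a).2
  refine h1.trans ?_
  rw [mul_assoc]
  apply mul_le_mul_of_nonneg_left _ (by positivity)
  rcases Nat.lt_or_ge (a1 - a) 2 with h2 | h2
  · refine (window_bound h haQ).trans ?_
    have h3 : (((a1 - a : ℕ) : ℝ) + 1) ≤ 2 := by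
      have : ((a1 - a : ℕ) : ℝ) ≤ 1 := by exact_mod_cast (by omega : a1 - a ≤ 1)
      linarith
    rw [mul_one_div, le_div_iff₀ (by positivity)]
    have hs : (0 : ℝ) ≤ s := Nat.cast_nonneg s
    nlinarith
  · -- far blocks
    have h3 : ∑ b ∈ Finset.range Q, bA Jn M (Q * a + b) ≤
        ∑ _b ∈ Finset.range Q, 1 / ((Q : ℝ) * ((a1 - a : ℕ) - 1 : ℝ)) := by
      apply Finset.sum_le_sum
      intro b hb
      rw [Finset.mem_range] at hb
      have h4 : Q * a + b < Jn := by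
        have : Q * (a + 1) ≤ Q * a1 := Nat.mul_le_mul_left _ (by omega)
        rw [mul_add, mul_one] at this
        omega
      unfold bA
      rw [if_pos h4]
      have h5 : (2 : ℝ) ≤ ((a1 - a : ℕ) : ℝ) := by exact_mod_cast h2
      have hQR : (0 : ℝ) < Q := by exact_mod_cast hQ0
      apply one_div_le_one_div_of_le (by nlinarith)
      have h6 : (Q : ℝ) * a1 + 1 ≤ M := by
        have : Q * a1 + 1 ≤ M := by omega
        exact_mod_cast this
      have h7 : (b : ℝ) ≤ Q := by exact_mod_cast hb.le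
      rw [Nat.cast_sub ha]
      push_cast
      nlinarith
    refine h3.trans ?_
    rw [Finset.sum_const, Finset.card_range, nsmul_eq_mul]
    have hQR : (0 : ℝ) < Q := by exact_mod_cast hQ0
    have h5 : (2 : ℝ) ≤ ((a1 - a : ℕ) : ℝ) := by exact_mod_cast h2
    have h6 : (0 : ℝ) < ((a1 - a : ℕ) : ℝ) - 1 := by linarith
    have e1 : (Q : ℝ) * (1 / ((Q : ℝ) * (((a1 - a : ℕ) : ℝ) - 1))) = 1 / (((a1 - a : ℕ) : ℝ) - 1) := by
      field_simp
    rw [e1, mul_one_div, div_le_div_iff₀ h6 (by positivity)]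
    have hs : (0 : ℝ) ≤ s := Nat.cast_nonneg s
    nlinarith

theorem cc_A_zero {Jn M s a : ℕ} (ha : (Jn - 1) / 2 ^ (s + 1) < a) : cc (bA Jn M) s a = 0 := by
  unfold cc
  apply Finset.sum_eq_zero
  intro b _
  unfold bA
  rw [if_neg, zero_mul]
  have h0 : 0 < 2 ^ (s + 1) := Nat.two_pow_pos _
  have h1 : Jn - 1 < 2 ^ (s + 1) * a := by
    rw [Nat.div_lt_iff_lt_mul h0] at ha
    rw [mul_comm]; exact ha
  omega

theorem cc_A_sq {Jn M s R : ℕ} (h : Jn ≤ M) (hJ : 0 < Jn) :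
    ∑ a ∈ Finset.range R, cc (bA Jn M) s a ^ 2 ≤ (2 ^ s * (3 * ((s : ℝ) + 2))) ^ 2 := by
  set a1 := (Jn - 1) / 2 ^ (s + 1) with ha1
  have h1 : ∑ a ∈ Finset.range R, cc (bA Jn M) s a ^ 2 ≤
      ∑ a ∈ Finset.range (a1 + 1), cc (bA Jn M) s a ^ 2 := by
    rw [← Finset.sum_filter_add_sum_filter_not (Finset.range R) (fun a => a < a1 + 1)]
    have e1 : ∑ a ∈ (Finset.range R).filter (fun a => ¬ a < a1 + 1), cc (bA Jn M) s a ^ 2 = 0 := by
      apply Finset.sum_eq_zero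
      intro a ha
      rw [Finset.mem_filter] at ha
      rw [cc_A_zero (by omega)]
      norm_num
    rw [e1, add_zero]
    apply Finset.sum_le_sum_of_subset_of_nonneg
    · intro a ha
      rw [Finset.mem_filter] at ha
      exact Finset.mem_range.2 ha.2
    · intro _ _ _; positivity
  refine h1.trans ?_
  have h2 : ∑ a ∈ Finset.range (a1 + 1), cc (bA Jn M) s a ^ 2 ≤
      ∑ a ∈ Finset.range (a1 + 1), (2 ^ s * (2 * ((s : ℝ) + 2))) ^ 2 *
        (1 / (((a1 + 1 - 1 - a : ℕ) : ℝ) + 1)) ^ 2 := by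
    apply Finset.sum_le_sum
    intro a ha
    rw [Finset.mem_range] at ha
    rw [← mul_pow]
    apply pow_le_pow_left₀ (cc_le (bA_nonneg h) s a).1
    rw [Nat.add_sub_cancel]
    exact cc_A_le h hJ (by omega)
  refine h2.trans ?_
  rw [← Finset.mul_sum, Finset.sum_range_reflect (fun v => (1 / ((v : ℝ) + 1)) ^ 2) (a1 + 1)]
  have h3 := sum_inv_sq (a1 + 1)
  have hs : (0 : ℝ) ≤ s := Nat.cast_nonneg s
  calc (2 ^ s * (2 * ((s : ℝ) + 2))) ^ 2 * ∑ j ∈ Finset.range (a1 + 1), (1 / ((j : ℝ) + 1)) ^ 2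
      ≤ (2 ^ s * (2 * ((s : ℝ) + 2))) ^ 2 * 2 := by gcongr
    _ ≤ (2 ^ s * (3 * ((s : ℝ) + 2))) ^ 2 := by
        have : (0 : ℝ) ≤ ((2 : ℝ) ^ s) ^ 2 * (s + 2) ^ 2 := by positivity
        nlinarith

/-- the weights `2^{-s} (2^s 3 (s+2))^p` -/
noncomputable def ua (p : ℝ) (s : ℕ) : ℝ := (2⁻¹ : ℝ) ^ s * (2 ^ s * (3 * ((s : ℝ) + 2))) ^ p

theorem ua_nonneg (p : ℝ) (s : ℕ) : 0 ≤ ua p s := by unfold ua; positivity

theorem ua_summable {p : ℝ} (hp0 : 0 < p) (hp1 : p < 1) : Summable (ua p) := by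
  have h1 : ‖((2 : ℝ) ^ (-(1 - p)))‖ < 1 := by
    rw [Real.norm_eq_abs, abs_of_pos (by positivity)]
    exact Real.rpow_lt_one_of_one_lt_of_neg (by norm_num) (by linarith)
  have h2 := summable_pow_mul_geometric_of_norm_lt_one 1 h1
  have h3 : Summable (fun n : ℕ => ((2 : ℝ) ^ (-(1 - p))) ^ n) :=
    summable_geometric_of_norm_lt_one h1
  have h4 : Summable (fun n : ℕ => 3 * ((n : ℝ) ^ 1 * ((2 : ℝ) ^ (-(1 - p))) ^ n) +
      6 * ((2 : ℝ) ^ (-(1 - p))) ^ n) := (h2.mul_left 3).add (h3.mul_left 6)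
  apply Summable.of_nonneg_of_le (ua_nonneg p) _ h4
  intro s
  unfold ua
  have hs : (0 : ℝ) ≤ s := Nat.cast_nonneg s
  have h2s : (0 : ℝ) < 2 ^ s := by positivity
  rw [Real.mul_rpow h2s.le (by positivity)]
  have e1 : (3 * ((s : ℝ) + 2)) ^ p ≤ 3 * ((s : ℝ) + 2) := by
    calc (3 * ((s : ℝ) + 2)) ^ p ≤ (3 * ((s : ℝ) + 2)) ^ (1 : ℝ) :=
          Real.rpow_le_rpow_of_exponent_le (by linarith) hp1.le
      _ = _ := Real.rpow_one _
  have e2 : (2⁻¹ : ℝ) ^ s * ((2 : ℝ) ^ s) ^ p = ((2 : ℝ) ^ (-(1 - p))) ^ s := by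
    rw [← Real.rpow_natCast ((2 : ℝ) ^ (-(1 - p))) s, ← Real.rpow_mul (by norm_num),
      inv_pow, ← Real.rpow_natCast 2 s, ← Real.rpow_neg (by norm_num), ← Real.rpow_mul (by norm_num),
      ← Real.rpow_add (by norm_num)]
    congr 1
    ring
  rw [← mul_assoc, e2]
  have e3 : 0 < ((2 : ℝ) ^ (-(1 - p))) ^ s := by positivity
  rw [pow_one]
  nlinarith

noncomputable def CA (p : ℝ) : ℝ := ∑' s, ua p s

theorem CA_nonneg (p : ℝ) : 0 ≤ CA p := tsum_nonneg (ua_nonneg p)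

/-- kernels of type A are bounded in `L_p`, `p < 1` -/
theorem kerA_bound {t Jn M : ℕ} (hJt : Jn ≤ 2 ^ t) (h : Jn ≤ M) {p : ℝ} (hp0 : 0 < p) (hp1 : p < 1) :
    J p (fun x => ∑ j ∈ Finset.range Jn, (1 / ((M : ℝ) - j)) * D j x) ≤ ENNReal.ofReal (CA p) := by
  rcases Nat.eq_zero_or_pos Jn with hJ | hJ
  · subst hJ
    simp [J, ENNReal.zero_rpow_of_pos hp0]
  have hrew : ∀ x, ∑ j ∈ Finset.range Jn, (1 / ((M : ℝ) - j)) * D j x =
      ∑ j ∈ Finset.range (2 ^ t), bA Jn M j * D j x := by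
    intro x
    have e1 : ∑ j ∈ Finset.range (2 ^ t), bA Jn M j * D j x =
        ∑ j ∈ Finset.range Jn, bA Jn M j * D j x := by
      symm
      apply Finset.sum_subset (Finset.range_mono hJt)
      intro j _ hj
      rw [Finset.mem_range] at hj
      unfold bA
      rw [if_neg hj, zero_mul]
    rw [e1]
    apply Finset.sum_congr rfl
    intro j hj
    unfold bA
    rw [if_pos (Finset.mem_range.1 hj)]
  simp only [hrew]
  unfold J
  refine (lint_shells _ t).trans ?_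
  have hsum : ∑ s ∈ Finset.range (t + 1), ENNReal.ofReal (ua p s) ≤ ENNReal.ofReal (CA p) := by
    rw [← ENNReal.ofReal_sum_of_nonneg (fun s _ => ua_nonneg p s)]
    apply ENNReal.ofReal_le_ofReal
    exact (ua_summable hp0 hp1).sum_le_tsum _ (fun s _ => ua_nonneg p s)
  refine le_trans ?_ hsum
  rw [Finset.sum_range_succ]
  apply add_le_add
  · apply Finset.sum_le_sum
    intro s hs
    rw [Finset.mem_range] at hs
    have e0 : 2 ^ t = 2 ^ (s + 1) * 2 ^ (t - (s + 1)) := by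
      rw [← pow_add]; congr 1; omega
    have e1 : ∫⁻ x in Ash s, ‖∑ j ∈ Finset.range (2 ^ t), bA Jn M j * D j x‖ₑ ^ p ∂mu =
        ∫⁻ x in Ash s, ‖∑ a ∈ Finset.range (2 ^ (t - (s + 1))), w (2 ^ (s + 1) * a) x *
          cc (bA Jn M) s a‖ₑ ^ p ∂mu := by
      refine setLIntegral_congr_fun (Ash_meas s) fun x hx => ?_
      rw [e0, shell_sum _ hx]
    rw [e1]
    exact shell_bound (by positivity) hp0 (by linarith) (cc_A_sq h hJ)
  · refine last_bound le_rfl _ hp0 (by positivity) ?_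
    calc ∑ j ∈ Finset.range (2 ^ t), |bA Jn M j| * j
        ≤ ∑ j ∈ Finset.range (2 ^ t), bA Jn M j * 2 ^ t := by
          apply Finset.sum_le_sum
          intro j hj
          rw [abs_of_nonneg (bA_nonneg h j)]
          apply mul_le_mul_of_nonneg_left _ (bA_nonneg h j)
          exact_mod_cast (Finset.mem_range.1 hj).le
      _ = (∑ j ∈ Finset.range (2 ^ t), bA Jn M j) * 2 ^ t := by rw [Finset.sum_mul]
      _ ≤ ((t : ℝ) + 2) * 2 ^ t := by
          apply mul_le_mul_of_nonneg_right _ (by positivity)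
          have h5 := window_bound (s := t) (a := 0) h (by simpa using hJ)
          simp only [mul_zero, zero_add] at h5
          refine le_trans ?_ h5
          apply Finset.sum_le_sum_of_subset_of_nonneg
          · apply Finset.range_mono
            exact Nat.pow_le_pow_right (by norm_num) (by omega)
          · intro j _ _; exact bA_nonneg h j
      _ ≤ 2 ^ t * (3 * ((t : ℝ) + 2)) := by
          have : (0 : ℝ) ≤ (t : ℝ) := Nat.cast_nonneg t
          have : (0 : ℝ) < 2 ^ t := by positivity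
          nlinarith

/-- kernels with small coefficients -/
theorem kerC_bound {t : ℕ} {β : ℕ → ℝ} {ρ p : ℝ} (hρ : 0 ≤ ρ) (hβ : ∀ j < 2 ^ t, |β j| * 2 ^ t ≤ ρ)
    (hp0 : 0 < p) (hp1 : p < 1) :
    J p (fun x => ∑ j ∈ Finset.range (2 ^ t), β j * D j x) ≤ ENNReal.ofReal (ρ ^ p * CA p) := by
  unfold J
  refine (lint_shells _ t).trans ?_
  have hsum : ∑ s ∈ Finset.range (t + 1), ENNReal.ofReal (ρ ^ p * ua p s) ≤
      ENNReal.ofReal (ρ ^ p * CA p) := by
    rw [← ENNReal.ofReal_sum_of_nonneg (fun s _ => mul_nonneg (Real.rpow_nonneg hρ _) (ua_nonneg p s))]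
    apply ENNReal.ofReal_le_ofReal
    rw [← Finset.mul_sum]
    apply mul_le_mul_of_nonneg_left _ (Real.rpow_nonneg hρ _)
    exact (ua_summable hp0 hp1).sum_le_tsum _ (fun s _ => ua_nonneg p s)
  refine le_trans ?_ hsum
  rw [Finset.sum_range_succ]
  have hu : ∀ s : ℕ, (2⁻¹ : ℝ) ^ s * (ρ * 2 ^ s) ^ p ≤ ρ ^ p * ua p s := by
    intro s
    unfold ua
    rw [Real.mul_rpow hρ (by positivity)]
    have e1 : ((2 : ℝ) ^ s) ^ p ≤ (2 ^ s * (3 * ((s : ℝ) + 2))) ^ p := by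
      apply Real.rpow_le_rpow (by positivity) _ hp0.le
      have : (0 : ℝ) < 2 ^ s := by positivity
      have : (0 : ℝ) ≤ (s : ℝ) := Nat.cast_nonneg s
      nlinarith
    have e2 : 0 ≤ (2⁻¹ : ℝ) ^ s * ρ ^ p := mul_nonneg (by positivity) (Real.rpow_nonneg hρ _)
    calc (2⁻¹ : ℝ) ^ s * (ρ ^ p * ((2 : ℝ) ^ s) ^ p) = ((2⁻¹ : ℝ) ^ s * ρ ^ p) * ((2 : ℝ) ^ s) ^ p := by
          ring
      _ ≤ ((2⁻¹ : ℝ) ^ s * ρ ^ p) * (2 ^ s * (3 * ((s : ℝ) + 2))) ^ p :=
          mul_le_mul_of_nonneg_left e1 e2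
      _ = _ := by ring
  have hβsum : ∑ j ∈ Finset.range (2 ^ t), |β j| ≤ ρ := by
    have h2t : (0 : ℝ) < 2 ^ t := by positivity
    have h3 : ∑ j ∈ Finset.range (2 ^ t), |β j| ≤ ∑ _j ∈ Finset.range (2 ^ t), ρ / 2 ^ t := by
      apply Finset.sum_le_sum
      intro j hj
      rw [le_div_iff₀ h2t]
      exact hβ j (Finset.mem_range.1 hj)
    refine h3.trans (le_of_eq ?_)
    rw [Finset.sum_const, Finset.card_range, nsmul_eq_mul]
    push_cast
    field_simp
  apply add_le_add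
  · apply Finset.sum_le_sum
    intro s hs
    have h1 : ∀ x ∈ Ash s, ‖∑ j ∈ Finset.range (2 ^ t), β j * D j x‖ₑ ^ p ≤
        ENNReal.ofReal ((ρ * 2 ^ s) ^ p) := by
      intro x hx
      rw [Real.enorm_eq_ofReal_abs, ENNReal.ofReal_rpow_of_nonneg (abs_nonneg _) hp0.le]
      apply ENNReal.ofReal_le_ofReal
      apply Real.rpow_le_rpow (abs_nonneg _) _ hp0.le
      calc |∑ j ∈ Finset.range (2 ^ t), β j * D j x| ≤ ∑ j ∈ Finset.range (2 ^ t), |β j| * 2 ^ s := by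
            refine (Finset.abs_sum_le_sum_abs _ _).trans (Finset.sum_le_sum fun j _ => ?_)
            rw [abs_mul]
            exact mul_le_mul_of_nonneg_left (D_shell_le hx) (abs_nonneg _)
        _ = (∑ j ∈ Finset.range (2 ^ t), |β j|) * 2 ^ s := by rw [Finset.sum_mul]
        _ ≤ _ := by gcongr
    refine (setLIntegral_mono measurable_const h1).trans ?_
    rw [setLIntegral_const, mu_Ash, mul_comm]
    have h5 : (2⁻¹ : ℝ≥0∞) ^ (s + 1) = ENNReal.ofReal ((2⁻¹ : ℝ) ^ (s + 1)) := by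
      rw [ENNReal.ofReal_pow (by norm_num), ENNReal.ofReal_inv_of_pos (by norm_num)]
      norm_num
    rw [h5, ← ENNReal.ofReal_mul (by positivity)]
    apply ENNReal.ofReal_le_ofReal
    refine le_trans ?_ (hu s)
    rw [pow_succ]
    have : 0 ≤ (2⁻¹ : ℝ) ^ s * (ρ * 2 ^ s) ^ p := by positivity
    nlinarith
  · refine (last_bound le_rfl β hp0 (B := ρ * 2 ^ t) (by positivity) ?_).trans
      (ENNReal.ofReal_le_ofReal (hu t))
    calc ∑ j ∈ Finset.range (2 ^ t), |β j| * j ≤ ∑ j ∈ Finset.range (2 ^ t), |β j| * 2 ^ t := by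
          apply Finset.sum_le_sum
          intro j hj
          apply mul_le_mul_of_nonneg_left _ (abs_nonneg _)
          exact_mod_cast (Finset.mem_range.1 hj).le
      _ = (∑ j ∈ Finset.range (2 ^ t), |β j|) * 2 ^ t := by rw [Finset.sum_mul]
      _ ≤ _ := by gcongr

end Pool.Agent.R165.WL
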