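import Pool.Agent.R165.WL.B

set_option autoImplicit false

/-!
# `p = 1`: kernels of type B and Burkholder's function
-/

namespace Pool.Agent.R165.WL

open MeasureTheory Set Filter Topology Pool.Agent.R243.WN
open scoped ENNReal NNReal

/-- the kernel coefficients of type B -/
noncomputable def bB (m : ℕ) (j : ℕ) : ℝ := if j = 0 then 0 else 1 / ((m : ℝ) + j)

theorem bB_nonneg (m j : ℕ) : 0 ≤ bB m j := by
  unfold bB
  split_ifs
  · exact le_rfl
  · positivity

theorem bB_mul_le (m j : ℕ) : bB m j * j ≤ 1 := by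
  unfold bB
  split_ifs with h
  · simp
  · have h1 : (0 : ℝ) < j := by exact_mod_cast Nat.pos_of_ne_zero h
    have h2 : (0 : ℝ) ≤ m := Nat.cast_nonneg m
    rw [div_mul_eq_mul_div, one_mul, div_le_one (by positivity)]
    linarith

theorem cc_B_zero (m s : ℕ) : cc (bB m) s 0 ≤ 2 * 2 ^ s := by
  unfold cc
  calc ∑ b ∈ Finset.range (2 ^ (s + 1)), bB m (2 ^ (s + 1) * 0 + b) * tent s b
      ≤ ∑ _b ∈ Finset.range (2 ^ (s + 1)), (1 : ℝ) := by
        apply Finset.sum_le_sum
        intro b _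
        rw [mul_zero, zero_add]
        exact (mul_le_mul_of_nonneg_left (tent_le_id s b) (bB_nonneg m b)).trans (bB_mul_le m b)
    _ = 2 * 2 ^ s := by
        rw [Finset.sum_const, Finset.card_range, nsmul_eq_mul, mul_one]
        push_cast
        rw [pow_succ]; ring

theorem cc_B_succ (m s a : ℕ) : cc (bB m) s (a + 1) ≤ 2 ^ s * (1 / ((a : ℝ) + 1)) := by
  refine (cc_le (bB_nonneg m) s (a + 1)).2.trans ?_
  apply mul_le_mul_of_nonneg_left _ (by positivity)
  have hQ0 : 0 < 2 ^ (s + 1) := Nat.two_pow_pos _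
  set Q := 2 ^ (s + 1) with hQ
  have hQR : (0 : ℝ) < Q := by exact_mod_cast hQ0
  calc ∑ b ∈ Finset.range Q, bB m (Q * (a + 1) + b)
      ≤ ∑ _b ∈ Finset.range Q, 1 / ((Q : ℝ) * (a + 1)) := by
        apply Finset.sum_le_sum
        intro b _
        unfold bB
        have h1 : Q * (a + 1) + b ≠ 0 := by positivity
        rw [if_neg h1]
        apply one_div_le_one_div_of_le (by positivity)
        push_cast
        have h2 : (0 : ℝ) ≤ m := Nat.cast_nonneg m
        have h3 : (0 : ℝ) ≤ b := Nat.cast_nonneg b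
        linarith
    _ = 1 / ((a : ℝ) + 1) := by
        rw [Finset.sum_const, Finset.card_range, nsmul_eq_mul]
        field_simp

theorem cc_B_sq (m s R : ℕ) :
    ∑ a ∈ Finset.range R, cc (bB m) s a ^ 2 ≤ (3 * 2 ^ s) ^ 2 := by
  rcases Nat.eq_zero_or_pos R with h | h
  · subst h
    rw [Finset.range_zero, Finset.sum_empty]
    positivity
  obtain ⟨R', rfl⟩ : ∃ R', R = R' + 1 := ⟨R - 1, by omega⟩
  rw [Finset.sum_range_succ']
  have h1 : ∑ a ∈ Finset.range R', cc (bB m) s (a + 1) ^ 2 ≤ (2 ^ s) ^ 2 * 2 := by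
    calc ∑ a ∈ Finset.range R', cc (bB m) s (a + 1) ^ 2
        ≤ ∑ a ∈ Finset.range R', (2 ^ s) ^ 2 * (1 / ((a : ℝ) + 1)) ^ 2 := by
          apply Finset.sum_le_sum
          intro a _
          rw [← mul_pow]
          exact pow_le_pow_left₀ (cc_le (bB_nonneg m) s (a + 1)).1 (cc_B_succ m s a) 2
      _ = (2 ^ s) ^ 2 * ∑ a ∈ Finset.range R', (1 / ((a : ℝ) + 1)) ^ 2 := by rw [Finset.mul_sum]
      _ ≤ _ := by
          apply mul_le_mul_of_nonneg_left (sum_inv_sq R') (by positivity)
  have h2 : cc (bB m) s 0 ^ 2 ≤ (2 * 2 ^ s) ^ 2 :=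
    pow_le_pow_left₀ (cc_le (bB_nonneg m) s 0).1 (cc_B_zero m s) 2
  have h3 : (0 : ℝ) < (2 ^ s) ^ 2 := by positivity
  nlinarith

theorem sum_shift_sq {μ : ℝ} (hμ : 0 < μ) (R : ℕ) :
    ∑ a ∈ Finset.range R, (1 / ((a : ℝ) + 1 + μ)) ^ 2 ≤ 1 / μ := by
  have h : ∑ a ∈ Finset.range R, (1 / ((a : ℝ) + 1 + μ)) ^ 2 ≤ 1 / μ - 1 / (R + μ) := by
    induction R with
    | zero => simp
    | succ R ih =>
      rw [Finset.sum_range_succ]
      have hR : (0 : ℝ) ≤ R := Nat.cast_nonneg R
      have h1 : (1 / ((R : ℝ) + 1 + μ)) ^ 2 ≤ 1 / (R + μ) - 1 / (R + 1 + μ) := by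
        rw [div_sub_div _ _ (by positivity) (by positivity), div_pow, one_pow,
          div_le_div_iff₀ (by positivity) (by positivity)]
        nlinarith
      push_cast
      linarith
  have h2 : 0 ≤ 1 / ((R : ℝ) + μ) := by positivity
  linarith

theorem cc_B_small {m s R : ℕ} (hm : 2 ^ (s + 1) ≤ m) :
    ∑ a ∈ Finset.range R, cc (bB m) s a ^ 2 ≤ (2 ^ s) ^ 2 * (2 * (2 ^ (s + 1) / m)) := by
  have hm0 : 0 < m := lt_of_lt_of_le (Nat.two_pow_pos _) hm
  have hmR : (0 : ℝ) < m := by exact_mod_cast hm0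
  set μ : ℝ := (m : ℝ) / 2 ^ (s + 1) with hμ
  have hμ1 : 1 ≤ μ := by
    rw [hμ, le_div_iff₀ (by positivity), one_mul]
    exact_mod_cast hm
  have hμ0 : 0 < μ := by linarith
  have hbd : ∀ a, cc (bB m) s a ≤ 2 ^ s * (1 / ((a : ℝ) + μ)) := by
    intro a
    refine (cc_le (bB_nonneg m) s a).2.trans ?_
    apply mul_le_mul_of_nonneg_left _ (by positivity)
    calc ∑ b ∈ Finset.range (2 ^ (s + 1)), bB m (2 ^ (s + 1) * a + b)
        ≤ ∑ _b ∈ Finset.range (2 ^ (s + 1)), 1 / ((m : ℝ) + 2 ^ (s + 1) * a) := by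
          apply Finset.sum_le_sum
          intro b _
          unfold bB
          split_ifs with h1
          · positivity
          · apply one_div_le_one_div_of_le (by positivity)
            push_cast
            have h3 : (0 : ℝ) ≤ b := Nat.cast_nonneg b
            linarith
      _ = 1 / ((a : ℝ) + μ) := by
          rw [Finset.sum_const, Finset.card_range, nsmul_eq_mul, hμ]
          push_cast
          field_simp
          ring
  have h0 : ∑ a ∈ Finset.range R, cc (bB m) s a ^ 2 ≤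
      (2 ^ s) ^ 2 * ∑ a ∈ Finset.range R, (1 / ((a : ℝ) + μ)) ^ 2 := by
    rw [Finset.mul_sum]
    apply Finset.sum_le_sum
    intro a _
    rw [← mul_pow]
    exact pow_le_pow_left₀ (cc_le (bB_nonneg m) s a).1 (hbd a) 2
  have h1 : ∑ a ∈ Finset.range R, (1 / ((a : ℝ) + μ)) ^ 2 ≤ 2 * (1 / μ) := by
    rcases Nat.eq_zero_or_pos R with h | h
    · subst h; simp; positivity
    obtain ⟨R', rfl⟩ : ∃ R', R = R' + 1 := ⟨R - 1, by omega⟩
    rw [Finset.sum_range_succ']
    have h2 := sum_shift_sq hμ0 R'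
    push_cast
    have h3 : (1 / ((0 : ℝ) + μ)) ^ 2 ≤ 1 / μ := by
      rw [zero_add, div_pow, one_pow]
      apply one_div_le_one_div_of_le hμ0
      nlinarith
    linarith
  have h4 : 1 / μ = 2 ^ (s + 1) / m := by
    rw [hμ]; field_simp
  rw [h4] at h1
  exact h0.trans (mul_le_mul_of_nonneg_left h1 (by positivity))

theorem geo34 (n : ℕ) : ∑ u ∈ Finset.range n, 2 * (3 / 4 : ℝ) ^ u ≤ 8 := by
  have h : ∑ u ∈ Finset.range n, 2 * (3 / 4 : ℝ) ^ u = 8 - 8 * (3 / 4) ^ n := by
    induction n with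
    | zero => simp
    | succ n ih =>
      rw [Finset.sum_range_succ, ih, pow_succ]
      ring
  have h2 : (0 : ℝ) ≤ 8 * (3 / 4) ^ n := by positivity
  linarith

/-- kernels of type B: `L_1` bound -/
theorem kerB_bound (N m : ℕ) (hm : m < 2 ^ N) :
    J 1 (fun x => ∑ j ∈ Finset.range (2 ^ N), bB m j * D j x) ≤
      ENNReal.ofReal (if m = 0 then 12 * ((N : ℝ) + 1) else 12 * ((N : ℝ) - Nat.log 2 m)) := by
  unfold J
  refine (lint_shells _ N).trans ?_
  have hlast : ∫⁻ x in R243.WN.I N (fun _ => false),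
      ‖∑ j ∈ Finset.range (2 ^ N), bB m j * D j x‖ₑ ^ (1 : ℝ) ∂mu ≤ ENNReal.ofReal 1 := by
    refine (last_bound le_rfl (bB m) one_pos (B := 2 ^ N) (by positivity) ?_).trans ?_
    · calc ∑ j ∈ Finset.range (2 ^ N), |bB m j| * j ≤ ∑ _j ∈ Finset.range (2 ^ N), (1 : ℝ) := by
            apply Finset.sum_le_sum
            intro j _
            rw [abs_of_nonneg (bB_nonneg m j)]
            exact bB_mul_le m j
        _ = 2 ^ N := by simp
    · apply ENNReal.ofReal_le_ofReal
      rw [Real.rpow_one, inv_pow, inv_mul_cancel₀ (by positivity)]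
  have hshell : ∀ s ∈ Finset.range N, ∀ A : ℝ, 0 < A →
      (∑ a ∈ Finset.range (2 ^ (N - (s + 1))), cc (bB m) s a ^ 2 ≤ (2 ^ s * A) ^ 2) →
      ∫⁻ x in Ash s, ‖∑ j ∈ Finset.range (2 ^ N), bB m j * D j x‖ₑ ^ (1 : ℝ) ∂mu ≤
        ENNReal.ofReal A := by
    intro s hs A hA hc
    rw [Finset.mem_range] at hs
    have e0 : 2 ^ N = 2 ^ (s + 1) * 2 ^ (N - (s + 1)) := by
      rw [← pow_add]; congr 1; omega
    have e1 : ∫⁻ x in Ash s, ‖∑ j ∈ Finset.range (2 ^ N), bB m j * D j x‖ₑ ^ (1 : ℝ) ∂mu =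
        ∫⁻ x in Ash s, ‖∑ a ∈ Finset.range (2 ^ (N - (s + 1))), w (2 ^ (s + 1) * a) x *
          cc (bB m) s a‖ₑ ^ (1 : ℝ) ∂mu := by
      refine setLIntegral_congr_fun (Ash_meas s) fun x hx => ?_
      rw [e0, shell_sum _ hx]
    rw [e1]
    refine (shell_bound (by positivity) one_pos one_le_two hc).trans ?_
    apply ENNReal.ofReal_le_ofReal
    rw [Real.rpow_one, inv_pow, ← mul_assoc, inv_mul_cancel₀ (by positivity), one_mul]
  by_cases hm0 : m = 0
  · rw [if_pos hm0]
    calc ∑ s ∈ Finset.range N, ∫⁻ x in Ash s,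
            ‖∑ j ∈ Finset.range (2 ^ N), bB m j * D j x‖ₑ ^ (1 : ℝ) ∂mu + _
        ≤ ∑ _s ∈ Finset.range N, ENNReal.ofReal 3 + ENNReal.ofReal 1 := by
          apply add_le_add _ hlast
          apply Finset.sum_le_sum
          intro s hs
          apply hshell s hs 3 (by norm_num)
          have := cc_B_sq m s (2 ^ (N - (s + 1)))
          rw [mul_comm (2 ^ s : ℝ) 3]
          exact this
      _ = ENNReal.ofReal (3 * N + 1) := by
          rw [Finset.sum_const, Finset.card_range, nsmul_eq_mul, ENNReal.ofReal_add (by positivity)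
            (by norm_num), ENNReal.ofReal_mul (by norm_num), ENNReal.ofReal_natCast, mul_comm]
      _ ≤ _ := by
          apply ENNReal.ofReal_le_ofReal
          have : (0 : ℝ) ≤ N := Nat.cast_nonneg N
          linarith
  · rw [if_neg hm0]
    set N' := Nat.log 2 m with hN'
    have hN'm : 2 ^ N' ≤ m := Nat.pow_log_le_self 2 hm0
    have hN'N : N' < N := (Nat.pow_lt_pow_iff_right (by norm_num)).1 (hN'm.trans_lt hm)
    have hb : ∀ s ∈ Finset.range N, ∫⁻ x in Ash s,
        ‖∑ j ∈ Finset.range (2 ^ N), bB m j * D j x‖ₑ ^ (1 : ℝ) ∂mu ≤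
        ENNReal.ofReal (if s < N' then 2 * (3 / 4) ^ (N' - 1 - s) else 3) := by
      intro s hs
      split_ifs with h1
      · apply hshell s hs _ (by positivity)
        have h2 : 2 ^ (s + 1) ≤ m := (Nat.pow_le_pow_right (by norm_num) (by omega)).trans hN'm
        refine (cc_B_small h2).trans ?_
        rw [mul_pow]
        apply mul_le_mul_of_nonneg_left _ (by positivity)
        have h3 : (2 : ℝ) ^ (s + 1) / m ≤ (1 / 2) ^ (N' - 1 - s) := by
          have hmR : (0 : ℝ) < m := by exact_mod_cast Nat.pos_of_ne_zero hm0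
          rw [div_le_iff₀ hmR]
          have h4 : (2 : ℝ) ^ N' ≤ m := by exact_mod_cast hN'm
          have h5 : (2 : ℝ) ^ (s + 1) = (1 / 2) ^ (N' - 1 - s) * 2 ^ N' := by
            obtain ⟨u, hu⟩ : ∃ u, N' = (s + 1) + u := ⟨N' - (s + 1), by omega⟩
            have hu2 : N' - 1 - s = u := by omega
            rw [hu2, hu, pow_add 2 (s + 1) u, one_div, inv_pow]
            field_simp
          rw [h5]
          exact mul_le_mul_of_nonneg_left h4 (by positivity)
        have h6 : ((1 / 2 : ℝ)) ^ (N' - 1 - s) ≤ (9 / 16) ^ (N' - 1 - s) :=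
          pow_le_pow_left₀ (by norm_num) (by norm_num) _
        have h7 : ((3 / 4 : ℝ) ^ (N' - 1 - s)) ^ 2 = (9 / 16) ^ (N' - 1 - s) := by
          rw [← pow_mul, mul_comm, pow_mul]; norm_num
        rw [mul_pow, h7]
        have h8 : (0 : ℝ) ≤ (9 / 16) ^ (N' - 1 - s) := by positivity
        linarith
      · apply hshell s hs 3 (by norm_num)
        have := cc_B_sq m s (2 ^ (N - (s + 1)))
        rw [mul_comm (2 ^ s : ℝ) 3]
        exact this
    calc ∑ s ∈ Finset.range N, ∫⁻ x in Ash s,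
            ‖∑ j ∈ Finset.range (2 ^ N), bB m j * D j x‖ₑ ^ (1 : ℝ) ∂mu + _
        ≤ ∑ s ∈ Finset.range N, ENNReal.ofReal (if s < N' then 2 * (3 / 4) ^ (N' - 1 - s) else 3) +
            ENNReal.ofReal 1 := add_le_add (Finset.sum_le_sum hb) hlast
      _ = ENNReal.ofReal (∑ s ∈ Finset.range N, (if s < N' then 2 * (3 / 4 : ℝ) ^ (N' - 1 - s) else 3)
            + 1) := by
          rw [ENNReal.ofReal_add _ (by norm_num), ENNReal.ofReal_sum_of_nonneg]
          · intro s _; split_ifs <;> positivity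
          · apply Finset.sum_nonneg
            intro s _; split_ifs <;> positivity
      _ ≤ _ := by
          apply ENNReal.ofReal_le_ofReal
          have e2 : N = N' + (N - N') := by omega
          have e3 : ∑ s ∈ Finset.range N, (if s < N' then 2 * (3 / 4 : ℝ) ^ (N' - 1 - s) else 3) =
              ∑ s ∈ Finset.range N', 2 * (3 / 4 : ℝ) ^ (N' - 1 - s) + 3 * ((N - N' : ℕ) : ℝ) := by
            conv_lhs => rw [e2]
            rw [Finset.sum_range_add]
            congr 1
            · apply Finset.sum_congr rfl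
              intro s hs
              rw [if_pos (Finset.mem_range.1 hs)]
            · rw [Finset.sum_congr rfl (g := fun _ => (3 : ℝ)) (fun s _ => by
                rw [if_neg (by omega)])]
              rw [Finset.sum_const, Finset.card_range, nsmul_eq_mul, mul_comm]
          rw [e3, Finset.sum_range_reflect (fun u => 2 * (3 / 4 : ℝ) ^ u) N']
          have h9 := geo34 N'
          have h10 : (1 : ℝ) ≤ (N : ℝ) - N' := by
            have : ((N' + 1 : ℕ) : ℝ) ≤ N := by exact_mod_cast hN'N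
            push_cast at this
            linarith
          rw [Nat.cast_sub hN'N.le]
          linarith

/-! ### Burkholder's function -/

noncomputable def BU (x y : ℝ) : ℝ := if |x| + |y| ≤ 1 then y ^ 2 - x ^ 2 else 1 - 2 * |x|

theorem BU_le (x y : ℝ) : BU x y ≤ 1 - 2 * |x| := by
  unfold BU
  split_ifs with h
  · have h1 : y ^ 2 ≤ (1 - |x|) ^ 2 := by
      rw [← sq_abs y]
      exact pow_le_pow_left₀ (abs_nonneg _) (by linarith) 2
    rw [← sq_abs x]
    nlinarith
  · exact le_rfl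

/-- supporting plane -/
theorem BU_plane {x y h k : ℝ} (hxy : |x| + |y| ≤ 1) (hk : |k| ≤ |h|) :
    BU (x + h) (y + k) ≤ y ^ 2 - x ^ 2 + 2 * y * k - 2 * x * h := by
  have hk2 : k ^ 2 ≤ h ^ 2 := sq_le_sq.mpr hk
  unfold BU
  split_ifs with hc
  · nlinarith
  · rw [not_le] at hc
    rcases le_or_gt |x + h| 1 with h1 | h1
    · have h2 : (1 - |x + h|) ^ 2 ≤ (y + k) ^ 2 := by
        rw [← sq_abs (y + k)]
        exact pow_le_pow_left₀ (by linarith) (by linarith) 2
      have h3 : |x + h| ^ 2 = (x + h) ^ 2 := sq_abs _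
      nlinarith
    · -- |x+h| > 1
      have hyk : y * k ≥ -(|y| * |h|) := by
        have h5 : |y * k| ≤ |y| * |h| := by
          rw [abs_mul]
          exact mul_le_mul_of_nonneg_left hk (abs_nonneg _)
        have := neg_abs_le (y * k)
        linarith
      have hx1 : |x| ≤ 1 := by linarith [abs_nonneg y]
      have hy2 : |y| ^ 2 = y ^ 2 := sq_abs _
      have hy0 := abs_nonneg y
      rcases le_or_gt 0 (x + h) with h6 | h6
      · rw [abs_of_nonneg h6] at h1 ⊢
        have hx2 : x ≤ 1 - |y| := by linarith [le_abs_self x]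
        have hh : 0 < h := by linarith
        rw [abs_of_pos hh] at hyk
        have key : 0 ≤ (1 - x - |y|) * (2 * h - |y| - (1 - x)) := by
          apply mul_nonneg (by linarith)
          linarith
        nlinarith
      · rw [abs_of_neg h6] at h1 ⊢
        have hx2 : -x ≤ 1 - |y| := by linarith [neg_le_abs x]
        have hh : h < 0 := by linarith
        rw [abs_of_neg hh] at hyk
        have key : 0 ≤ (1 + x - |y|) * (2 * (-h) - |y| - (1 + x)) := by
          apply mul_nonneg (by linarith)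
          linarith
        nlinarith

theorem BU_mid {x y h k : ℝ} (hk : |k| ≤ |h|) :
    BU (x + h) (y + k) + BU (x - h) (y - k) ≤ 2 * BU x y := by
  by_cases hxy : |x| + |y| ≤ 1
  · have h1 := BU_plane hxy hk
    have h2 := BU_plane (h := -h) (k := -k) hxy (by rw [abs_neg, abs_neg]; exact hk)
    rw [← sub_eq_add_neg, ← sub_eq_add_neg] at h2
    have h3 : BU x y = y ^ 2 - x ^ 2 := by
      unfold BU; rw [if_pos hxy]
    rw [h3]
    linarith
  · have h3 : BU x y = 1 - 2 * |x| := by
      unfold BU; rw [if_neg hxy]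
    have h1 := BU_le (x + h) (y + k)
    have h2 := BU_le (x - h) (y - k)
    have h4 : 2 * |x| ≤ |x + h| + |x - h| := by
      have h5 := abs_add_le (x + h) (x - h)
      have h6 : (x + h) + (x - h) = 2 * x := by ring
      rw [h6, abs_mul, abs_two] at h5
      exact h5
    rw [h3]
    linarith

theorem BU_init {x y : ℝ} (h : |y| ≤ |x|) : BU x y ≤ 0 := by
  unfold BU
  split_ifs with hc
  · have := sq_le_sq.mpr h
    linarith
  · linarith

theorem BU_maj (x y : ℝ) : (if 1 ≤ |y| then (1 : ℝ) else 0) ≤ BU x y + 2 * |x| := by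
  unfold BU
  have hx := abs_nonneg x
  have hy := abs_nonneg y
  have hx2 : |x| ^ 2 = x ^ 2 := sq_abs _
  have hy2 : |y| ^ 2 = y ^ 2 := sq_abs _
  split_ifs with h1 h2 h2
  · have h3 : |x| = 0 := by linarith
    have h4 : |y| = 1 := by linarith
    rw [← hx2, ← hy2, h3, h4]; norm_num
  · linarith
  · nlinarith
  · linarith

theorem BU_abs_le (x y : ℝ) : |BU x y| ≤ 1 + 2 * |x| := by
  have h1 := BU_le x y
  have h2 := BU_maj x y
  have h3 : (0 : ℝ) ≤ (if 1 ≤ |y| then (1 : ℝ) else 0) := by split_ifs <;> norm_num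
  have := abs_nonneg x
  rw [abs_le]
  constructor <;> linarith

end Pool.Agent.R165.WL
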