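import Pool.Agent.R165.WL.H

set_option autoImplicit false

/-!
# Sharpness for `0 < p < 1`
-/

namespace Pool.Agent.R165.WL

open MeasureTheory Set Filter Topology Pool.Agent.R243.WN
open scoped ENNReal NNReal

/-- lacunary coefficients -/
noncomputable def aa (j : ℕ) : ℝ :=
  open Classical in if ∃ i : ℕ, j = 8 ^ (i + 1) then (j : ℝ) else 0

theorem aa_nonneg (j : ℕ) : 0 ≤ aa j := by
  unfold aa
  split_ifs
  · exact Nat.cast_nonneg j
  · exact le_rfl

theorem aa_le (j : ℕ) : aa j ≤ j := by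
  unfold aa
  split_ifs
  · exact le_rfl
  · exact Nat.cast_nonneg j

theorem aa_pow (i : ℕ) : aa (8 ^ (i + 1)) = ((8 ^ (i + 1) : ℕ) : ℝ) := by
  unfold aa
  rw [if_pos ⟨i, rfl⟩]

theorem aa_gap {i j : ℕ} (h1 : 8 ^ (i + 1) < j) (h2 : j < 8 ^ (i + 2)) : aa j = 0 := by
  unfold aa
  rw [if_neg]
  rintro ⟨u, rfl⟩
  have h3 := (Nat.pow_lt_pow_iff_right (by norm_num : 1 < 8)).1 h1
  have h4 := (Nat.pow_lt_pow_iff_right (by norm_num : 1 < 8)).1 h2
  omega

/-- the martingale -/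
noncomputable def cf (n : ℕ) (x : G) : ℝ := ∑ j ∈ Finset.range n, aa j * gat j x

theorem cf_succ (n : ℕ) (x : G) : cf (n + 1) x = cf n x + aa n * gat n x := by
  unfold cf
  rw [Finset.sum_range_succ]

theorem cf_mart : Martingale cf F mu := by
  refine martingale_of_setIntegral_eq_succ ?_ ?_ ?_
  · intro k
    have : cf k = fun x => ∑ j ∈ Finset.range k, aa j * gat j x := rfl
    rw [this]
    refine Finset.stronglyMeasurable_fun_sum _ fun j hj => ?_
    exact stronglyMeasurable_const.mul (gat_stronglyMeasurable (Finset.mem_range.1 hj))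
  · intro k
    exact integrable_finsetSum _ fun j _ => (gat_integrable j).const_mul _
  · intro k s hs
    have h1 : ∀ x, cf (k + 1) x = cf k x + aa k * gat k x := cf_succ k
    simp only [h1]
    have hi : Integrable (cf k) mu := integrable_finsetSum _ fun j _ => (gat_integrable j).const_mul _
    rw [integral_add hi.integrableOn ((gat_integrable k).const_mul _).integrableOn,
      integral_const_mul, gat_setIntegral hs, mul_zero, add_zero]

theorem r_abs (j : ℕ) (x : G) : |r j x| = 1 := by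
  unfold r
  split_ifs <;> simp

theorem gat_abs (j : ℕ) (x : G) :
    |gat j x| = (R243.WN.I j (fun _ => false)).indicator (fun _ => (2 : ℝ) ^ j) x := by
  unfold gat
  rw [abs_mul, r_abs, one_mul, D_pow]
  apply abs_of_nonneg
  apply indicator_nonneg
  intro _ _
  positivity

theorem gat_abs_le (j : ℕ) (x : G) : |gat j x| ≤ 2 ^ j := by
  rw [gat_abs]
  apply indicator_le_self'
  intro _ _
  positivity

theorem gat_zero {j n : ℕ} (h : n ≤ j) {x : G} (hx : x ∉ R243.WN.I n (fun _ => false)) :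
    gat j x = 0 := by
  rw [← abs_eq_zero, gat_abs, indicator_of_notMem]
  intro h2
  exact hx fun i hi => h2 i (by omega)

theorem cf_abs (m : ℕ) (x : G) : |cf m x| ≤ 2 ^ (2 * m) := by
  unfold cf
  refine (Finset.abs_sum_le_sum_abs _ _).trans ?_
  calc ∑ j ∈ Finset.range m, |aa j * gat j x| ≤ ∑ j ∈ Finset.range m, (2 : ℝ) ^ m * 2 ^ j := by
        refine Finset.sum_le_sum fun j hj => ?_
        have hj' : j < m := Finset.mem_range.1 hj
        rw [abs_mul, abs_of_nonneg (aa_nonneg j)]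
        have h1 : (j : ℝ) ≤ 2 ^ m := by
          have : j ≤ 2 ^ m := hj'.le.trans Nat.lt_two_pow_self.le
          exact_mod_cast this
        exact mul_le_mul ((aa_le j).trans h1) (gat_abs_le j x) (abs_nonneg _) (by positivity)
    _ = (2 : ℝ) ^ m * (2 ^ m - 1) := by
        rw [← Finset.mul_sum, geom_sum_eq (by norm_num)]
        norm_num
    _ ≤ 2 ^ (2 * m) := by
        rw [two_mul, pow_add]
        gcongr
        linarith

theorem cf_stable {n m : ℕ} (h : n ≤ m) {x : G} (hx : x ∉ R243.WN.I n (fun _ => false)) :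
    cf m x = cf n x := by
  unfold cf
  symm
  refine Finset.sum_subset (Finset.range_mono h) fun j _ hj => ?_
  rw [Finset.mem_range, not_lt] at hj
  rw [gat_zero hj hx, mul_zero]

theorem cf_gap {i : ℕ} (x : G) : cf (8 ^ (i + 2)) x = cf (8 ^ (i + 1) + 1) x := by
  have h0 : 8 ^ (i + 1) < 8 ^ (i + 2) := Nat.pow_lt_pow_right (by norm_num) (by omega)
  unfold cf
  symm
  refine Finset.sum_subset (Finset.range_mono h0) fun j hj hj2 => ?_
  rw [Finset.mem_range, not_lt] at hj2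
  rw [Finset.mem_range] at hj
  rw [aa_gap hj2 hj, zero_mul]

/-! ### the modulus -/

theorem J_gat {p : ℝ} (hp0 : 0 < p) (j : ℕ) :
    J p (gat j) = ENNReal.ofReal (((2 : ℝ) ^ j) ^ p * 2⁻¹ ^ j) := by
  unfold J
  have h1 : ∀ x, ‖gat j x‖ₑ ^ p = (R243.WN.I j (fun _ => false)).indicator
      (fun _ => ENNReal.ofReal (((2 : ℝ) ^ j) ^ p)) x := by
    intro x
    rw [Real.enorm_eq_ofReal_abs, gat_abs]
    by_cases h : x ∈ R243.WN.I j (fun _ => false)
    · rw [indicator_of_mem h, indicator_of_mem h, ENNReal.ofReal_rpow_of_nonneg (by positivity) hp0.le]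
    · rw [indicator_of_notMem h, indicator_of_notMem h, ENNReal.ofReal_zero,
        ENNReal.zero_rpow_of_pos hp0]
  simp only [h1]
  rw [lintegral_indicator (I_meas _ _), setLIntegral_const, mu_I, ENNReal.ofReal_mul (by positivity)]
  congr 1
  rw [ENNReal.ofReal_pow (by norm_num), ENNReal.ofReal_inv_of_pos (by norm_num)]
  norm_num

/-- the constant -/
noncomputable def Kc (p : ℝ) : ℝ := ∑' u : ℕ, ((u : ℝ) + 1) ^ p * (((2 : ℝ) ^ u) ^ p * 2⁻¹ ^ u)

theorem Kc_term (p : ℝ) (u : ℕ) : ((2 : ℝ) ^ u) ^ p * 2⁻¹ ^ u = ((2 : ℝ) ^ (p - 1)) ^ u := by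
  have h2 : (0 : ℝ) < 2 := by norm_num
  rw [← Real.rpow_natCast, ← Real.rpow_natCast, ← Real.rpow_natCast, ← Real.rpow_mul h2.le,
    ← Real.rpow_mul h2.le, Real.inv_rpow h2.le, ← Real.rpow_neg h2.le, ← Real.rpow_add h2]
  congr 1
  ring

theorem Kc_summable {p : ℝ} (_hp0 : 0 < p) (hp1 : p < 1) :
    Summable (fun u : ℕ => ((u : ℝ) + 1) ^ p * (((2 : ℝ) ^ u) ^ p * 2⁻¹ ^ u)) := by
  have hr0 : (0 : ℝ) ≤ (2 : ℝ) ^ (p - 1) := by positivity
  have hr1 : (2 : ℝ) ^ (p - 1) < 1 := Real.rpow_lt_one_of_one_lt_of_neg (by norm_num) (by linarith)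
  have h1 : Summable (fun u : ℕ => ((u : ℝ) + 1) * ((2 : ℝ) ^ (p - 1)) ^ u) := by
    have h2 := summable_pow_mul_geometric_of_norm_lt_one (r := (2 : ℝ) ^ (p - 1)) 1
      (by rw [Real.norm_eq_abs, abs_of_nonneg hr0]; exact hr1)
    have h3 := summable_geometric_of_lt_one hr0 hr1
    refine (h2.add h3).congr fun u => ?_
    rw [pow_one]
    ring
  refine Summable.of_nonneg_of_le (fun u => by positivity) (fun u => ?_) h1
  rw [Kc_term]
  gcongr
  have h2 : (1 : ℝ) ≤ (u : ℝ) + 1 := by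
    have : (0 : ℝ) ≤ u := Nat.cast_nonneg u
    linarith
  calc ((u : ℝ) + 1) ^ p ≤ ((u : ℝ) + 1) ^ (1 : ℝ) :=
        Real.rpow_le_rpow_of_exponent_le h2 hp1.le
    _ = _ := Real.rpow_one _

theorem om_cf {p : ℝ} (hp0 : 0 < p) (hp1 : p < 1) (n : ℕ) :
    om p cf n ≤ ∑' u : ℕ, ENNReal.ofReal (((n + u : ℕ) : ℝ) ^ p * (((2 : ℝ) ^ (n + u)) ^ p *
      2⁻¹ ^ (n + u))) := by
  have h1 : ∀ x, (⨆ m, ‖cf m x - cf (min m n) x‖ₑ) ^ p ≤
      ∑' u : ℕ, ‖aa (n + u) * gat (n + u) x‖ₑ ^ p := by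
    intro x
    rw [← ENNReal.le_rpow_inv_iff hp0]
    refine iSup_le fun m => ?_
    rw [ENNReal.le_rpow_inv_iff hp0]
    rcases le_total m n with h | h
    · rw [min_eq_left h, sub_self, enorm_zero, ENNReal.zero_rpow_of_pos hp0]
      exact zero_le
    · rw [min_eq_right h]
      obtain ⟨v, rfl⟩ := Nat.exists_eq_add_of_le h
      have e1 : cf (n + v) x - cf n x = ∑ u ∈ Finset.range v, aa (n + u) * gat (n + u) x := by
        unfold cf
        rw [Finset.sum_range_add]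
        ring
      rw [e1]
      refine (enorm_sum_rpow_le _ _ hp0 hp1.le).trans ?_
      exact ENNReal.sum_le_tsum _
  unfold om
  refine (lintegral_mono h1).trans ?_
  rw [lintegral_tsum (fun u => (((gat_measurable (n + u)).const_mul _).enorm.pow_const p).aemeasurable)]
  refine ENNReal.tsum_le_tsum fun u => ?_
  have h2 : J p (fun x => aa (n + u) * gat (n + u) x) ≤ _ :=
    le_of_eq (J_const_mul (aa (n + u)) (gat (n + u)) hp0)
  refine h2.trans ?_
  rw [J_gat hp0, enorm_rpow_ofReal (aa_nonneg _) hp0, ← ENNReal.ofReal_mul (by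
    have := aa_nonneg (n + u); positivity)]
  apply ENNReal.ofReal_le_ofReal
  gcongr
  · exact aa_nonneg _
  · exact aa_le _

theorem om_cf_le {p : ℝ} (hp0 : 0 < p) (hp1 : p < 1) {n : ℕ} (hn : 1 ≤ n) :
    om p cf n ≤ ENNReal.ofReal (Kc p * ((n : ℝ) ^ p * (((2 : ℝ) ^ n) ^ p * 2⁻¹ ^ n))) := by
  refine (om_cf hp0 hp1 n).trans ?_
  have hs := Kc_summable hp0 hp1
  unfold Kc
  rw [← tsum_mul_right, ENNReal.ofReal_tsum_of_nonneg (fun u => by positivity)
    (hs.mul_right _)]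
  refine ENNReal.tsum_le_tsum fun u => ENNReal.ofReal_le_ofReal ?_
  have hn1 : (1 : ℝ) ≤ n := by exact_mod_cast hn
  have hu : (0 : ℝ) ≤ u := Nat.cast_nonneg u
  have h1 : ((n + u : ℕ) : ℝ) ^ p ≤ ((u : ℝ) + 1) ^ p * (n : ℝ) ^ p := by
    rw [← Real.mul_rpow (by positivity) (by positivity)]
    refine Real.rpow_le_rpow (by positivity) ?_ hp0.le
    push_cast
    nlinarith
  have h2 : ((2 : ℝ) ^ (n + u)) ^ p * 2⁻¹ ^ (n + u) =
      (((2 : ℝ) ^ u) ^ p * 2⁻¹ ^ u) * (((2 : ℝ) ^ n) ^ p * 2⁻¹ ^ n) := by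
    rw [Kc_term, Kc_term, Kc_term, pow_add]
    ring
  rw [h2]
  calc ((n + u : ℕ) : ℝ) ^ p * ((((2 : ℝ) ^ u) ^ p * 2⁻¹ ^ u) * (((2 : ℝ) ^ n) ^ p * 2⁻¹ ^ n))
      ≤ (((u : ℝ) + 1) ^ p * (n : ℝ) ^ p) *
        ((((2 : ℝ) ^ u) ^ p * 2⁻¹ ^ u) * (((2 : ℝ) ^ n) ^ p * 2⁻¹ ^ n)) := by gcongr
    _ = _ := by ring

theorem hp_cf {p : ℝ} (hp0 : 0 < p) (hp1 : p < 1) : hpNorm p cf < ⊤ := by
  have h1 : om p cf 0 < ⊤ := by
    refine (om_cf hp0 hp1 0).trans_lt ?_
    have hs := Kc_summable hp0 hp1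
    have h2 : ∑' u : ℕ, ENNReal.ofReal (((0 + u : ℕ) : ℝ) ^ p * (((2 : ℝ) ^ (0 + u)) ^ p *
        2⁻¹ ^ (0 + u))) ≤ ∑' u : ℕ, ENNReal.ofReal (((u : ℝ) + 1) ^ p *
        (((2 : ℝ) ^ u) ^ p * 2⁻¹ ^ u)) := by
      refine ENNReal.tsum_le_tsum fun u => ENNReal.ofReal_le_ofReal ?_
      rw [zero_add]
      gcongr
      linarith
    refine h2.trans_lt ?_
    rw [← ENNReal.ofReal_tsum_of_nonneg (fun u => by positivity) hs]
    exact ENNReal.ofReal_lt_top
  have h2 : hpNorm p cf = (om p cf 0) ^ (1 / p) := by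
    unfold hpNorm om
    congr 2
    funext x
    congr 2
    funext n
    rw [min_eq_right (Nat.zero_le n)]
    have : cf 0 x = 0 := by simp [cf]
    rw [this, sub_zero]
  rw [h2]
  exact ENNReal.rpow_lt_top_of_nonneg (by positivity) h1.ne

theorem modulus_cf {p : ℝ} (hp0 : 0 < p) (hp1 : p < 1) {n : ℕ} (hn : 1 ≤ n) :
    modulus p cf n ≤ ENNReal.ofReal (Kc p ^ (1 / p) *
      ((n : ℝ) / (2 : ℝ) ^ ((n : ℝ) * (1 / p - 1)))) := by
  have hK : 0 ≤ Kc p := tsum_nonneg fun u => by positivity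
  have h1 : modulus p cf n = om p cf n ^ (1 / p) := rfl
  rw [h1]
  refine (ENNReal.rpow_le_rpow (om_cf_le hp0 hp1 hn) (by positivity)).trans (le_of_eq ?_)
  rw [ENNReal.ofReal_rpow_of_nonneg (by positivity) (by positivity)]
  congr 1
  have hn0 : (0 : ℝ) ≤ n := Nat.cast_nonneg n
  rw [Real.mul_rpow hK (by positivity), Real.mul_rpow (by positivity) (by positivity)]
  congr 1
  rw [← Real.rpow_mul hn0, mul_one_div_cancel hp0.ne', Real.rpow_one, div_eq_mul_inv]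
  congr 1
  have h2 : (0 : ℝ) < 2 := by norm_num
  rw [Kc_term, ← Real.rpow_natCast, ← Real.rpow_mul h2.le, ← Real.rpow_mul h2.le,
    ← Real.rpow_neg h2.le]
  congr 1
  field_simp
  ring

/-! ### divergence -/

theorem ll_two_pow_le (N : ℕ) : ll (2 ^ N) ≤ 1 + N := by
  induction N with
  | zero => simp [ll]
  | succ N ih =>
    rw [pow_succ, mul_two, ll_add]
    have h1 : ∑ j ∈ Finset.range (2 ^ N), 1 / (((2 ^ N : ℕ) : ℝ) + j + 1) ≤ 1 := by
      calc ∑ j ∈ Finset.range (2 ^ N), 1 / (((2 ^ N : ℕ) : ℝ) + j + 1)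
          ≤ ∑ _j ∈ Finset.range (2 ^ N), 1 / ((2 : ℝ) ^ N) := by
            apply Finset.sum_le_sum
            intro j _
            apply one_div_le_one_div_of_le (by positivity)
            push_cast
            have : (0 : ℝ) ≤ j := Nat.cast_nonneg j
            linarith
        _ = 1 := by
            rw [Finset.sum_const, Finset.card_range, nsmul_eq_mul]
            push_cast
            field_simp
    push_cast
    push_cast at h1
    linarith

theorem L_cf (n : ℕ) (x : G) :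
    L cf (2 ^ n + 2) x = 1 / ll (2 ^ n + 2) * Lam (2 ^ n + 2) (cf n) x +
      1 / ll (2 ^ n + 2) * (aa n * r n x) := by
  unfold L Lam
  rw [l_eq, ← mul_add]
  congr 1
  rw [show 2 ^ n + 2 = (2 ^ n + 1) + 1 by ring, Finset.sum_range_succ, Finset.sum_range_succ _ (2 ^ n + 1)]
  have hd := mart_dep cf_mart n
  have e1 : ∑ k ∈ Finset.range (2 ^ n + 1), S cf k x / (((2 ^ n + 1 + 1 : ℕ) : ℝ) - k) =
      ∑ j ∈ Finset.range (2 ^ n + 1), 1 / (((2 ^ n + 1 + 1 : ℕ) : ℝ) - j) * Sg (cf n) j x := by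
    refine Finset.sum_congr rfl fun j hj => ?_
    rw [S_eq cf_mart (Nat.lt_succ_iff.1 (Finset.mem_range.1 hj))]
    ring
  have e2 : S cf (2 ^ n + 1) x = cf n x + aa n * r n x := by
    rw [S_block cf_mart Nat.one_le_two_pow]
    have e3 : Sg (ee cf n) 1 x = aa n := by
      unfold Sg
      rw [Finset.sum_range_one, w_zero, mul_one]
      unfold ft ee
      have e4 : ∀ x, r n x * (cf (n + 1) x - cf n x) * w 0 x = aa n * D (2 ^ n) x := by
        intro x
        rw [cf_succ, w_zero]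
        unfold gat
        linear_combination (aa n * D (2 ^ n) x) * r_mul_self n x
      simp only [e4]
      rw [integral_const_mul]
      have e5 : ∫ x, D (2 ^ n) x ∂mu = 1 := by
        unfold D
        rw [integral_finsetSum _ (fun i _ => w_integrable i mu)]
        have h3 : ∀ i ∈ Finset.range (2 ^ n), ∫ y, w i y ∂mu = if i = 0 then 1 else 0 := by
          intro i _
          have h4 := w_orth i 0
          simp only [w_zero, mul_one] at h4
          exact h4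
        rw [Finset.sum_congr rfl h3, Finset.sum_ite_eq']
        rw [if_pos (Finset.mem_range.2 (Nat.two_pow_pos n))]
      rw [e5, mul_one]
    rw [e3]
    ring
  have e3 : Sg (cf n) (2 ^ n + 1) x = cf n x := Sg_high hd (Nat.le_succ _) x
  rw [e1, e2, e3]
  push_cast
  have e4 : (2 : ℝ) ^ n + 1 + 1 - (2 ^ n + 1) = 1 := by ring
  rw [e4]
  ring

theorem cf_far (i : ℕ) {x : G} (hx : x ∉ R243.WN.I (8 ^ (i + 2)) (fun _ => false)) {g : G → ℝ}
    (hg : Tendsto (fun n => cf n x) atTop (𝓝 (g x))) :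
    (1 / 4 : ℝ) < |L cf (2 ^ (8 ^ (i + 2)) + 2) x - g x| := by
  set n := 8 ^ (i + 2) with hn
  set m := 8 ^ (i + 1) + 1 with hm
  have hm8 : 8 ≤ 8 ^ (i + 1) := by
    calc 8 = 8 ^ 1 := by norm_num
      _ ≤ 8 ^ (i + 1) := Nat.pow_le_pow_right (by norm_num) (by omega)
  have hnm : 4 * m + 5 ≤ n := by
    rw [hn, hm, show i + 2 = (i + 1) + 1 by ring, pow_succ]
    omega
  have hgx : g x = cf n x := by
    refine tendsto_nhds_unique hg (tendsto_const_nhds.congr' ?_)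
    filter_upwards [eventually_ge_atTop n] with k hk
    exact (cf_stable hk hx).symm
  have hcf : cf n = cf m := by
    funext y
    exact cf_gap y
  have hmlt : 2 ^ m < 2 ^ n + 2 := by
    have : 2 ^ m ≤ 2 ^ n := Nat.pow_le_pow_right (by norm_num) (by omega)
    omega
  have h1 := poly_unif' (mart_dep cf_mart m) (C := 2 ^ (2 * m)) (by positivity) (cf_abs m)
    (2 ^ n + 2) hmlt x
  have h2 : (2 : ℝ) ^ m * ((2 ^ m + 1) * 2 ^ (2 * m)) / (((2 ^ n + 2 : ℕ) : ℝ) - 2 ^ m) ≤ 1 / 8 := by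
    have h3 : (2 : ℝ) ^ (4 * m + 5) ≤ 2 ^ n := pow_le_pow_right₀ (by norm_num) hnm
    have h4 : (1 : ℝ) ≤ 2 ^ m := one_le_pow₀ (by norm_num)
    have h5 : (2 : ℝ) ^ (4 * m + 5) = 32 * (2 ^ m) ^ 4 := by
      rw [pow_add, mul_comm 4 m, pow_mul]; norm_num; ring
    have h6 : (2 : ℝ) ^ (2 * m) = (2 ^ m) ^ 2 := by rw [mul_comm, pow_mul]
    have h7 : (2 : ℝ) ^ m ≤ (2 ^ m) ^ 4 := le_self_pow₀ h4 (by norm_num)
    have h8 : ((2 : ℝ) ^ m) ^ 3 ≤ (2 ^ m) ^ 4 := pow_le_pow_right₀ h4 (by norm_num)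
    push_cast
    rw [div_le_div_iff₀ (by linarith) (by norm_num), h6]
    nlinarith
  have hn1 : (64 : ℝ) ≤ n := by
    have : 8 ^ 2 ≤ 8 ^ (i + 2) := Nat.pow_le_pow_right (by norm_num) (by omega)
    have : (8 ^ 2 : ℕ) ≤ n := this
    exact_mod_cast this
  have hl1 : ll (2 ^ n + 2) ≤ n + 2 := by
    have h3 : 2 ^ n + 2 ≤ 2 ^ (n + 1) := by
      have : 2 ≤ 2 ^ n := by
        calc 2 = 2 ^ 1 := by norm_num
          _ ≤ 2 ^ n := Nat.pow_le_pow_right (by norm_num) (by omega)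
      rw [pow_succ]
      omega
    have h4 := (ll_mono h3).trans (ll_two_pow_le (n + 1))
    push_cast at h4
    linarith
  have hl0 : 0 < ll (2 ^ n + 2) := by
    have h3 := ll_lower (n := 2 ^ n + 2) (Nat.succ_ne_zero _)
    have h4 : (0 : ℝ) ≤ Nat.log 2 (2 ^ n + 2) := Nat.cast_nonneg _
    linarith
  have h3 : (1 / 2 : ℝ) ≤ |1 / ll (2 ^ n + 2) * (aa n * r n x)| := by
    rw [abs_mul, abs_mul, r_abs, mul_one, abs_of_pos (by positivity), abs_of_nonneg (aa_nonneg n)]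
    have h4 : aa n = (n : ℝ) := aa_pow (i + 1)
    rw [h4, one_div_mul_eq_div, div_le_div_iff₀ (by norm_num) hl0]
    linarith
  rw [L_cf, hgx, hcf]
  have h4 : 1 / ll (2 ^ n + 2) * Lam (2 ^ n + 2) (cf m) x + 1 / ll (2 ^ n + 2) * (aa n * r n x) -
      cf m x = 1 / ll (2 ^ n + 2) * (aa n * r n x) - -(1 / ll (2 ^ n + 2) * Lam (2 ^ n + 2) (cf m) x -
      cf m x) := by ring
  rw [h4]
  have h5 := abs_sub_abs_le_abs_sub (1 / ll (2 ^ n + 2) * (aa n * r n x))
    (-(1 / ll (2 ^ n + 2) * Lam (2 ^ n + 2) (cf m) x - cf m x))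
  rw [abs_neg] at h5
  linarith

theorem wk_cf {p : ℝ} (hp0 : 0 < p) (i : ℕ) {g : G → ℝ}
    (hg : ∀ᵐ x ∂mu, Tendsto (fun n => cf n x) atTop (𝓝 (g x))) :
    ENNReal.ofReal ((1 / 4 : ℝ) ^ p * (1 / 2)) ≤
      wk p (fun x => L cf (2 ^ (8 ^ (i + 2)) + 2) x - g x) := by
  set n := 8 ^ (i + 2) with hn
  have h1 : mu (R243.WN.I n (fun _ => false))ᶜ ≤
      mu {x | (((1 / 4 : ℝ≥0)) : ℝ≥0∞) < ‖L cf (2 ^ n + 2) x - g x‖ₑ} := by
    apply measure_mono_ae
    filter_upwards [hg] with x hx hxn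
    have h2 := cf_far i hxn hx
    show (((1 / 4 : ℝ≥0)) : ℝ≥0∞) < ‖L cf (2 ^ n + 2) x - g x‖ₑ
    rw [Real.enorm_eq_ofReal_abs]
    have h3 : (((1 / 4 : ℝ≥0)) : ℝ≥0∞) = ENNReal.ofReal (1 / 4) := by
      rw [← ENNReal.ofReal_coe_nnreal]
      norm_num
    rw [h3]
    exact (ENNReal.ofReal_lt_ofReal_iff_of_nonneg (by norm_num)).2 h2
  have h2 : ENNReal.ofReal (1 / 2) ≤ mu (R243.WN.I n (fun _ => false))ᶜ := by
    rw [measure_compl (I_meas _ _) (measure_ne_top _ _), measure_univ, mu_I]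
    have h3 : (2⁻¹ : ℝ≥0∞) ^ n ≤ 2⁻¹ := by
      calc (2⁻¹ : ℝ≥0∞) ^ n ≤ 2⁻¹ ^ 1 :=
            pow_le_pow_right_of_le_one' (by norm_num) (Nat.one_le_iff_ne_zero.2 (by positivity))
        _ = _ := pow_one _
    have h4 : ENNReal.ofReal (1 / 2) = 1 - 2⁻¹ := by
      rw [ENNReal.one_sub_inv_two, one_div, ENNReal.ofReal_inv_of_pos (by norm_num)]
      norm_num
    rw [h4]
    exact tsub_le_tsub_left h3 1
  unfold wk
  refine le_trans ?_ (le_iSup _ (1 / 4 : ℝ≥0))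
  rw [ENNReal.ofReal_mul (by positivity)]
  refine mul_le_mul' ?_ (h2.trans h1)
  rw [← ENNReal.ofReal_rpow_of_nonneg (by norm_num) hp0.le]
  apply ENNReal.rpow_le_rpow _ hp0.le
  rw [← ENNReal.ofReal_coe_nnreal]
  norm_num

theorem main_sharp {p : ℝ} (hp0 : 0 < p) (hp1 : p < 1) :
    ∃ f : ℕ → G → ℝ, Martingale f F mu ∧ hpNorm p f < ⊤ ∧
      (∃ C : ℝ, ∀ᶠ n : ℕ in atTop, modulus p f n ≤
        ENNReal.ofReal (C * ((n : ℝ) / (2 : ℝ) ^ ((n : ℝ) * (1 / p - 1))))) ∧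
      ∃ g : G → ℝ, Measurable g ∧ (∀ᵐ x ∂mu, Tendsto (fun n => f n x) atTop (𝓝 (g x))) ∧
        ¬ Tendsto (fun k => wkNorm p (fun x => L f k x - g x)) atTop (𝓝 0) := by
  refine ⟨cf, cf_mart, hp_cf hp0 hp1, ⟨Kc p ^ (1 / p), ?_⟩, ?_⟩
  · filter_upwards [eventually_ge_atTop 1] with n hn
    exact modulus_cf hp0 hp1 hn
  · have h1 : ∀ᵐ x ∂mu, ∃ c, Tendsto (fun n => cf n x) atTop (𝓝 c) := by
      have h2 : mu {x : G | ∀ n, x ∈ R243.WN.I n (fun _ => false)} = 0 := by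
        have h3 : ∀ n, mu {x : G | ∀ n, x ∈ R243.WN.I n (fun _ => false)} ≤ (2⁻¹ : ℝ≥0∞) ^ n := by
          intro n
          rw [← mu_I n (fun _ => false)]
          exact measure_mono fun x hx => hx n
        have h4 : Tendsto (fun n : ℕ => (2⁻¹ : ℝ≥0∞) ^ n) atTop (𝓝 0) :=
          ENNReal.tendsto_pow_atTop_nhds_zero_of_lt_one (by norm_num)
        exact le_antisymm (ge_of_tendsto' h4 h3) zero_le
      have h3 : ∀ᵐ x ∂mu, ¬ ∀ n, x ∈ R243.WN.I n (fun _ => false) := by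
        rw [ae_iff]
        simpa using h2
      filter_upwards [h3] with x hx
      push Not at hx
      obtain ⟨n, hn⟩ := hx
      refine ⟨cf n x, tendsto_const_nhds.congr' ?_⟩
      filter_upwards [eventually_ge_atTop n] with k hk
      exact (cf_stable hk hn).symm
    obtain ⟨g, hgm, hg⟩ := measurable_limit_of_tendsto_metrizable_ae
      (fun n => ((mart_dep cf_mart n).measurable).aemeasurable) h1
    refine ⟨g, hgm, hg, fun hcon => ?_⟩
    set c : ℝ≥0∞ := (ENNReal.ofReal ((1 / 4 : ℝ) ^ p * (1 / 2))) ^ (1 / p) with hc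
    have hc0 : 0 < c := by
      rw [hc]
      apply ENNReal.rpow_pos _ ENNReal.ofReal_ne_top
      rw [ENNReal.ofReal_pos]
      positivity
    have h2 := hcon.eventually (gt_mem_nhds hc0)
    obtain ⟨N, hN⟩ := eventually_atTop.1 h2
    have h3 : N ≤ 2 ^ (8 ^ (N + 2)) + 2 := by
      have h4 : N + 2 < 8 ^ (N + 2) := Nat.lt_pow_self (by norm_num)
      have h5 : 8 ^ (N + 2) < 2 ^ (8 ^ (N + 2)) := Nat.lt_two_pow_self
      omega
    have h4 := hN _ h3
    have h5 : c ≤ wkNorm p (fun x => L cf (2 ^ (8 ^ (N + 2)) + 2) x - g x) := by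
      rw [hc]
      exact ENNReal.rpow_le_rpow (wk_cf hp0 N hg) (by positivity)
    exact absurd h4 (not_lt.2 h5)

end Pool.Agent.R165.WL
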