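import Pool.Agent.R165.WL.C

set_option autoImplicit false

/-!
# `p = 1`: weak type estimate for the Nörlund logarithmic means
-/

namespace Pool.Agent.R165.WL

open MeasureTheory Set Filter Topology Pool.Agent.R243.WN
open scoped ENNReal NNReal

/-! ### identities for partial sums -/

theorem w_two_pow_add {N i : ℕ} (h : i < 2 ^ N) (x : G) : w (2 ^ N + i) x = w (2 ^ N) x * w i x := by
  have h1 := w_add_mul (m := N) (q := 1) h x
  rwa [mul_one] at h1

theorem ft_mul_w {N i : ℕ} (h : i < 2 ^ N) (g : G → ℝ) :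
    ft g (2 ^ N + i) = ft (fun x => w (2 ^ N) x * g x) i := by
  unfold ft
  congr 1
  funext x
  rw [w_two_pow_add h]
  ring

theorem Sg_zero (g : G → ℝ) (x : G) : Sg g 0 x = 0 := by simp [Sg]

theorem Sg_succ (g : G → ℝ) (j : ℕ) (x : G) : Sg g (j + 1) x = Sg g j x + ft g j * w j x := by
  unfold Sg
  rw [Finset.sum_range_succ]

theorem Sg_up {N i : ℕ} (h : i ≤ 2 ^ N) (g : G → ℝ) (x : G) :
    Sg g (2 ^ N + i) x = Sg g (2 ^ N) x + w (2 ^ N) x * Sg (fun x => w (2 ^ N) x * g x) i x := by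
  induction i with
  | zero => simp [Sg_zero]
  | succ i ih =>
    rw [← add_assoc, Sg_succ, ih (by omega), Sg_succ, ft_mul_w (by omega), w_two_pow_add (by omega)]
    ring

theorem Sg_down {N j : ℕ} (h : j ≤ 2 ^ N) (g : G → ℝ) (x : G) :
    Sg g (2 ^ N - j) x = Sg g (2 ^ N) x -
      w (2 ^ N - 1) x * Sg (fun x => w (2 ^ N - 1) x * g x) j x := by
  induction j with
  | zero => simp [Sg_zero]
  | succ j ih =>
    have h1 := ih (by omega)
    have h2 : 2 ^ N - j = (2 ^ N - (j + 1)) + 1 := by omega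
    have h3 : ft g (2 ^ N - (j + 1)) = ft (fun x => w (2 ^ N - 1) x * g x) j := by
      unfold ft
      congr 1
      funext x
      rw [w_compl (by omega)]
      ring
    rw [h2, Sg_succ, w_compl (by omega), h3] at h1
    rw [Sg_succ, mul_add]
    linarith

/-- pulling out what is known -/
theorem Sg_w_mul {K N m : ℕ} {g : G → ℝ} (hg : Dep K g) (hNK : N ≤ K) (hm : m < 2 ^ N) (x : G) :
    Sg (fun x => w m x * g x) (2 ^ N) x = w m x * Sg g (2 ^ N) x := by
  have hmK : m < 2 ^ K := hm.trans_le (Nat.pow_le_pow_right (by norm_num) hNK)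
  have hNK2 : 2 ^ N ≤ 2 ^ K := Nat.pow_le_pow_right (by norm_num) hNK
  rw [Sg_conv ((dep_w hmK).mul hg) hNK2, Sg_conv hg hNK2, mul_left_comm]
  congr 1
  rw [Finset.mul_sum]
  refine Finset.sum_congr rfl fun l _ => ?_
  have h1 : w m (tr (cp l) x) * D (2 ^ N) (tr (cp l) x) = D (2 ^ N) (tr (cp l) x) := by
    rw [D_pow]
    by_cases h : tr (cp l) x ∈ R243.WN.I N (fun _ => false)
    · rw [w_one_of hm (fun j hj => h j hj), one_mul]
    · rw [indicator_of_notMem h, mul_zero]
  rw [w_tr] at h1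
  have h2 := w_mul_self m x
  have h3 : w m (cp l) * D (2 ^ N) (tr (cp l) x) = w m x * D (2 ^ N) (tr (cp l) x) := by
    calc w m (cp l) * D (2 ^ N) (tr (cp l) x) =
          (w m x * w m x) * (w m (cp l) * D (2 ^ N) (tr (cp l) x)) := by rw [h2, one_mul]
      _ = w m x * (w m x * w m (cp l) * D (2 ^ N) (tr (cp l) x)) := by ring
      _ = _ := by rw [h1]
  calc w m (cp l) * g (cp l) * D (2 ^ N) (tr (cp l) x)
      = g (cp l) * (w m (cp l) * D (2 ^ N) (tr (cp l) x)) := by ring
    _ = _ := by rw [h3]; ring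

/-- Fourier inversion -/
theorem Sg_inv {K : ℕ} {g : G → ℝ} (hg : Dep K g) (x : G) : Sg g (2 ^ K) x = g x := by
  rw [Sg_conv hg le_rfl]
  have hd : Dep K (fun y => D (2 ^ K) (tr y x)) := by
    intro y z hyz
    unfold D
    refine Finset.sum_congr rfl fun l hl => ?_
    rw [w_tr, w_tr, dep_w (Finset.mem_range.1 hl) y z hyz]
  have h1 : ∀ y, g y * D (2 ^ K) (tr y x) = g x * D (2 ^ K) (tr y x) := by
    intro y
    rw [D_pow]
    by_cases h : tr y x ∈ R243.WN.I K (fun _ => false)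
    · have : g y = g x := by
        apply hg
        intro j hj
        have h2 := h j hj
        unfold tr at h2
        cases hx : x j <;> cases hy : y j <;> simp_all
      rw [this]
    · rw [indicator_of_notMem h, mul_zero, mul_zero]
  rw [← int_dep (g := fun y => g y * D (2 ^ K) (tr y x)) (hg.mul hd)]
  simp only [h1]
  rw [integral_const_mul]
  have h2 : ∫ y, D (2 ^ K) (tr y x) ∂mu = 1 := by
    unfold D
    simp only [w_tr]
    rw [integral_finsetSum]
    · have h3 : ∀ i ∈ Finset.range (2 ^ K), ∫ y, w i x * w i y ∂mu = if i = 0 then 1 else 0 := by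
        intro i _
        rw [integral_const_mul]
        have h4 := w_orth i 0
        simp only [w_zero, mul_one] at h4
        rw [h4]
        split_ifs with h5
        · rw [h5, w_zero, one_mul]
        · rw [mul_zero]
      rw [Finset.sum_congr rfl h3, Finset.sum_ite_eq']
      rw [if_pos (Finset.mem_range.2 (Nat.two_pow_pos K))]
    · intro i _
      exact (w_integrable i mu).const_mul _
  rw [h2, mul_one]

/-! ### the logarithmic sums -/

/-- harmonic numbers -/
noncomputable def ll (n : ℕ) : ℝ := ∑ k ∈ Finset.range n, 1 / ((k : ℝ) + 1)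

theorem ll_succ (n : ℕ) : ll (n + 1) = ll n + 1 / ((n : ℝ) + 1) := by
  unfold ll
  rw [Finset.sum_range_succ]

theorem ll_nonneg (n : ℕ) : 0 ≤ ll n := Finset.sum_nonneg fun _ _ => by positivity

theorem ll_mono : Monotone ll := by
  refine monotone_nat_of_le_succ fun n => ?_
  rw [ll_succ]
  have : (0 : ℝ) ≤ 1 / ((n : ℝ) + 1) := by positivity
  linarith

theorem ll_reflect (n : ℕ) : ∑ j ∈ Finset.range n, 1 / ((n : ℝ) - j) = ll n := by
  unfold ll
  rw [← Finset.sum_range_reflect]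
  refine Finset.sum_congr rfl fun j hj => ?_
  have hj' : j < n := Finset.mem_range.1 hj
  congr 1
  rw [show n - 1 - j = n - (j + 1) by omega, Nat.cast_sub (by omega)]
  push_cast
  ring

theorem ll_add (m n : ℕ) : ll (m + n) = ll m + ∑ j ∈ Finset.range n, 1 / ((m : ℝ) + j + 1) := by
  unfold ll
  rw [Finset.sum_range_add]
  congr 1
  refine Finset.sum_congr rfl fun j _ => ?_
  push_cast
  rfl

theorem ll_two_pow (N : ℕ) : 1 + (N : ℝ) / 2 ≤ ll (2 ^ N) := by
  induction N with
  | zero => simp [ll]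
  | succ N ih =>
    rw [pow_succ, mul_two, ll_add]
    have h1 : (1 : ℝ) / 2 ≤ ∑ j ∈ Finset.range (2 ^ N), 1 / (((2 ^ N : ℕ) : ℝ) + j + 1) := by
      calc (1 : ℝ) / 2 = ∑ _j ∈ Finset.range (2 ^ N), 1 / (2 * (2 : ℝ) ^ N) := by
            rw [Finset.sum_const, Finset.card_range, nsmul_eq_mul]
            push_cast
            field_simp
        _ ≤ _ := by
            apply Finset.sum_le_sum
            intro j hj
            have hj' : j + 1 ≤ 2 ^ N := Finset.mem_range.1 hj
            have hj2 : (j : ℝ) + 1 ≤ 2 ^ N := by exact_mod_cast hj'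
            apply one_div_le_one_div_of_le (by positivity)
            push_cast
            linarith
    push_cast
    push_cast at h1
    linarith

theorem ll_lower {n : ℕ} (hn : n ≠ 0) : ((Nat.log 2 n : ℝ) + 1) ≤ 2 * ll n := by
  have h1 := ll_two_pow (Nat.log 2 n)
  have h2 := ll_mono (Nat.pow_log_le_self 2 hn)
  have h3 : (0 : ℝ) ≤ Nat.log 2 n := Nat.cast_nonneg _
  linarith

/-- `Σ_{j<n} S_j g/(n-j)` -/
noncomputable def Lam (n : ℕ) (g : G → ℝ) (x : G) : ℝ :=
  ∑ j ∈ Finset.range n, 1 / ((n : ℝ) - j) * Sg g j x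

theorem Lam_rec {N m : ℕ} (hm : m < 2 ^ N) (g : G → ℝ) (x : G) :
    Lam (2 ^ N + m) g x = ll (2 ^ N + m - 1) * Sg g (2 ^ N) x +
      w (2 ^ N) x * Lam m (fun x => w (2 ^ N) x * g x) x -
      w (2 ^ N - 1) x * ∑ j ∈ Finset.range (2 ^ N), bB m j *
        Sg (fun x => w (2 ^ N - 1) x * g x) j x := by
  have hN0 := Nat.two_pow_pos N
  have h1 : Lam (2 ^ N + m) g x = ∑ j ∈ Finset.range (2 ^ N), 1 / (((2 ^ N + m : ℕ) : ℝ) - j) * Sg g j x +
      ∑ i ∈ Finset.range m, 1 / ((m : ℝ) - i) * Sg g (2 ^ N + i) x := by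
    unfold Lam
    rw [Finset.sum_range_add]
    congr 1
    refine Finset.sum_congr rfl fun i _ => ?_
    congr 2
    push_cast
    ring
  have h2 : ∑ i ∈ Finset.range m, 1 / ((m : ℝ) - i) * Sg g (2 ^ N + i) x =
      ll m * Sg g (2 ^ N) x + w (2 ^ N) x * Lam m (fun x => w (2 ^ N) x * g x) x := by
    unfold Lam
    rw [← ll_reflect, Finset.sum_mul, Finset.mul_sum, ← Finset.sum_add_distrib]
    refine Finset.sum_congr rfl fun i hi => ?_
    rw [Sg_up ((Finset.mem_range.1 hi).le.trans hm.le)]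
    ring
  obtain ⟨M, hM⟩ : ∃ M, 2 ^ N = M + 1 := ⟨2 ^ N - 1, by omega⟩
  have h3 : ∑ j ∈ Finset.range (2 ^ N), 1 / (((2 ^ N + m : ℕ) : ℝ) - j) * Sg g j x =
      ∑ j ∈ Finset.range M, 1 / ((m : ℝ) + j + 1) * Sg g (2 ^ N - (j + 1)) x := by
    rw [hM, Finset.sum_range_succ', Sg_zero, mul_zero, add_zero, ← Finset.sum_range_reflect]
    refine Finset.sum_congr rfl fun j hj => ?_
    have hj' : j < M := Finset.mem_range.1 hj
    have e1 : M - 1 - j + 1 = M + 1 - (j + 1) := by omega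
    rw [e1]
    congr 2
    rw [Nat.cast_sub (by omega)]
    push_cast
    ring
  have h4 : ∑ j ∈ Finset.range M, 1 / ((m : ℝ) + j + 1) * Sg g (2 ^ N - (j + 1)) x =
      (ll (m + M) - ll m) * Sg g (2 ^ N) x - w (2 ^ N - 1) x * ∑ j ∈ Finset.range (2 ^ N), bB m j *
        Sg (fun x => w (2 ^ N - 1) x * g x) j x := by
    have e2 : ∑ j ∈ Finset.range (2 ^ N), bB m j * Sg (fun x => w (2 ^ N - 1) x * g x) j x =
        ∑ j ∈ Finset.range M, 1 / ((m : ℝ) + j + 1) * Sg (fun x => w (2 ^ N - 1) x * g x) (j + 1) x := by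
      conv_lhs => rw [show Finset.range (2 ^ N) = Finset.range (M + 1) by rw [hM]]
      rw [Finset.sum_range_succ', Sg_zero, mul_zero, add_zero]
      refine Finset.sum_congr rfl fun j _ => ?_
      unfold bB
      rw [if_neg (by omega)]
      push_cast
      rw [add_assoc]
    rw [e2, ll_add, add_sub_cancel_left, Finset.sum_mul, Finset.mul_sum, ← Finset.sum_sub_distrib]
    refine Finset.sum_congr rfl fun j hj => ?_
    have hj' : j < M := Finset.mem_range.1 hj
    rw [Sg_down (by omega)]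
    ring
  rw [h1, h2, h3, h4]
  have e3 : 2 ^ N + m - 1 = m + M := by omega
  rw [e3]
  ring

/-- the multiplier of `n` -/
noncomputable def lam (n j : ℕ) : ℝ := if n.testBit j then ll (n % 2 ^ (j + 1) - 1) else 0

theorem lam_nonneg (n j : ℕ) : 0 ≤ lam n j := by
  unfold lam
  split_ifs
  · exact ll_nonneg _
  · exact le_rfl

theorem lam_le (n j : ℕ) : lam n j ≤ ll n := by
  unfold lam
  split_ifs
  · exact ll_mono ((Nat.sub_le _ _).trans (Nat.mod_le _ _))
  · exact ll_nonneg _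

theorem lam_high {n j : ℕ} (h : n < 2 ^ j) : lam n j = 0 := by
  unfold lam
  rw [testBit_false h]
  simp

theorem lam_top {N m : ℕ} (hm : m < 2 ^ N) : lam (2 ^ N + m) N = ll (2 ^ N + m - 1) := by
  unfold lam
  have h1 : (2 ^ N + m).testBit N = true := by
    rw [Nat.testBit_two_pow_add_eq, testBit_false hm]
    rfl
  rw [h1, if_pos rfl, Nat.mod_eq_of_lt]
  rw [pow_succ]
  omega

theorem lam_low {N m j : ℕ} (hj : j < N) : lam (2 ^ N + m) j = lam m j := by
  unfold lam
  rw [Nat.testBit_two_pow_add_gt hj]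
  have h1 : (2 ^ N + m) % 2 ^ (j + 1) = m % 2 ^ (j + 1) := by
    obtain ⟨u, hu⟩ : ∃ u, N = j + 1 + u := ⟨N - (j + 1), by omega⟩
    rw [hu, pow_add, Nat.mul_add_mod]
  rw [h1]

/-- martingale transform -/
noncomputable def Tr (K : ℕ) (lm : ℕ → ℝ) (h : G → ℝ) (x : G) : ℝ :=
  ∑ j ∈ Finset.range K, lm j * (Sg h (2 ^ (j + 1)) x - Sg h (2 ^ j) x)

theorem Tr_rec {K N m : ℕ} (hNK : N < K) (hm : m < 2 ^ N) {g : G → ℝ} (hg : Dep K g) (x : G) :
    w (2 ^ N + m) x * Tr K (lam (2 ^ N + m)) (fun x => w (2 ^ N + m) x * g x) x =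
      ll (2 ^ N + m - 1) * Sg g (2 ^ N) x +
      w (2 ^ N) x * (w m x * Tr K (lam m) (fun x => w m x * (w (2 ^ N) x * g x)) x) := by
  set h : G → ℝ := fun x => w (2 ^ N + m) x * g x with hh
  have e1 : (fun x => w m x * (w (2 ^ N) x * g x)) = h := by
    funext y
    rw [hh]
    beta_reduce
    rw [w_two_pow_add hm]
    ring
  rw [e1]
  have hsplit : ∀ lm : ℕ → ℝ, (∀ j, N < j → lm j = 0) → Tr K lm h x =
      ∑ j ∈ Finset.range N, lm j * (Sg h (2 ^ (j + 1)) x - Sg h (2 ^ j) x) +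
        lm N * (Sg h (2 ^ (N + 1)) x - Sg h (2 ^ N) x) := by
    intro lm hlm
    rw [← Finset.sum_range_succ (fun j => lm j * (Sg h (2 ^ (j + 1)) x - Sg h (2 ^ j) x))]
    unfold Tr
    symm
    refine Finset.sum_subset (Finset.range_mono (by omega)) fun j _ hj => ?_
    rw [Finset.mem_range, not_lt] at hj
    rw [hlm j (by omega), zero_mul]
  have hn : 2 ^ N + m < 2 ^ (N + 1) := by rw [pow_succ]; omega
  rw [hsplit (lam (2 ^ N + m)) (fun j hj => lam_high (hn.trans_le
    (Nat.pow_le_pow_right (by norm_num) hj)))]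
  rw [hsplit (lam m) (fun j hj => lam_high (hm.trans_le
    (Nat.pow_le_pow_right (by norm_num) hj.le)))]
  rw [lam_high hm, zero_mul, add_zero, lam_top hm]
  have e2 : ∑ j ∈ Finset.range N, lam (2 ^ N + m) j * (Sg h (2 ^ (j + 1)) x - Sg h (2 ^ j) x) =
      ∑ j ∈ Finset.range N, lam m j * (Sg h (2 ^ (j + 1)) x - Sg h (2 ^ j) x) := by
    refine Finset.sum_congr rfl fun j hj => ?_
    rw [lam_low (Finset.mem_range.1 hj)]
  rw [e2]
  have e3 : Sg h (2 ^ (N + 1)) x - Sg h (2 ^ N) x = w (2 ^ N + m) x * Sg g (2 ^ N) x := by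
    rw [pow_succ, mul_two, Sg_up le_rfl, add_sub_cancel_left]
    have e4 : (fun x => w (2 ^ N) x * h x) = fun x => w m x * g x := by
      funext y
      rw [hh]
      beta_reduce
      rw [w_two_pow_add hm]
      have := w_mul_self (2 ^ N) y
      linear_combination (w m y * g y) * this
    rw [e4, Sg_w_mul hg hNK.le hm, w_two_pow_add hm]
    ring
  rw [e3]
  have h5 := w_mul_self (2 ^ N + m) x
  rw [← mul_assoc (w (2 ^ N) x) (w m x), ← w_two_pow_add hm]
  linear_combination (ll (2 ^ N + m - 1) * Sg g (2 ^ N) x) * h5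

/-- the error term -/
noncomputable def Er (K n : ℕ) (g : G → ℝ) (x : G) : ℝ :=
  Lam n g x - w n x * Tr K (lam n) (fun x => w n x * g x) x

theorem dep_Lam {K n : ℕ} (hn : n ≤ 2 ^ K) (g : G → ℝ) : Dep K (Lam n g) := by
  unfold Lam
  apply Dep.sum
  intro i hi
  exact (dep_const K _).mul (dep_Sg ((Finset.mem_range.1 hi).le.trans hn) g)

theorem dep_Tr (K : ℕ) (lm : ℕ → ℝ) (h : G → ℝ) : Dep K (Tr K lm h) := by
  unfold Tr
  apply Dep.sum
  intro j hj
  rw [Finset.mem_range] at hj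
  exact (dep_const K _).mul ((dep_Sg (Nat.pow_le_pow_right (by norm_num) hj) h).sub
    (dep_Sg (Nat.pow_le_pow_right (by norm_num) hj.le) h))

theorem dep_Er {K n : ℕ} (hn : n < 2 ^ K) (g : G → ℝ) : Dep K (Er K n g) := by
  unfold Er
  exact (dep_Lam hn.le g).sub ((dep_w hn).mul (dep_Tr K _ _))

theorem Er_zero (K : ℕ) (g : G → ℝ) (x : G) : Er K 0 g x = 0 := by
  unfold Er Lam Tr lam
  simp

theorem J_zero {p : ℝ} (hp : 0 < p) : J p (fun _ => 0) = 0 := by
  unfold J
  simp [ENNReal.zero_rpow_of_pos hp]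

theorem Er_bound {K : ℕ} (n : ℕ) (hn : n < 2 ^ K) (g : G → ℝ) (hg : Dep K g) :
    J 1 (Er K n g) ≤ ENNReal.ofReal (if n = 0 then 0 else 12 * ((Nat.log 2 n : ℝ) + 1)) * J 1 g := by
  induction n using Nat.strong_induction_on generalizing g with
  | _ n ih =>
  by_cases hn0 : n = 0
  · subst hn0
    have : Er K 0 g = fun _ => 0 := by
      funext x
      exact Er_zero K g x
    rw [this, J_zero one_pos]
    exact zero_le
  · rw [if_neg hn0]
    set N := Nat.log 2 n with hN
    have h1 : 2 ^ N ≤ n := Nat.pow_log_le_self 2 hn0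
    have h2 : n < 2 ^ (N + 1) := Nat.lt_pow_succ_log_self (by norm_num) n
    obtain ⟨m, hm⟩ := Nat.exists_eq_add_of_le h1
    have hmN : m < 2 ^ N := by rw [pow_succ] at h2; omega
    have hNK : N < K := (Nat.pow_lt_pow_iff_right (by norm_num)).1 (h1.trans_lt hn)
    have hmn : m < n := by have := Nat.two_pow_pos N; omega
    set g1 : G → ℝ := fun x => w (2 ^ N) x * g x with hg1
    set g2 : G → ℝ := fun x => w (2 ^ N - 1) x * g x with hg2
    have hd1 : Dep K g1 := (dep_w (Nat.pow_lt_pow_right (by norm_num) hNK)).mul hg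
    have hd2 : Dep K g2 := (dep_w (by
      have := Nat.two_pow_pos N
      have : 2 ^ N < 2 ^ K := Nat.pow_lt_pow_right (by norm_num) hNK
      omega)).mul hg
    have hE : ∀ x, Er K n g x = w (2 ^ N) x * Er K m g1 x +
        (-1) * (w (2 ^ N - 1) x * ∑ j ∈ Finset.range (2 ^ N), bB m j * Sg g2 j x) := by
      intro x
      unfold Er
      rw [hm, Lam_rec hmN, Tr_rec hNK hmN hg]
      ring
    have hmK : m < 2 ^ K := hmn.trans hn
    have h3 := ih m hmn hmK g1 hd1
    have h4 : J 1 g1 = J 1 g := J_w_mul _ _ _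
    have h5 : J 1 g2 = J 1 g := J_w_mul _ _ _
    have h6 : J 1 (fun x => ∑ j ∈ Finset.range (2 ^ N), bB m j * Sg g2 j x) ≤
        ENNReal.ofReal (if m = 0 then 12 * ((N : ℝ) + 1) else 12 * ((N : ℝ) - Nat.log 2 m)) *
          J 1 g := by
      refine (conv_bound (t := K) (Nat.pow_le_pow_right (by norm_num) hNK.le) hd2 (bB m)
        one_pos le_rfl).trans ?_
      rw [sub_self, Real.rpow_zero, ENNReal.ofReal_one, one_mul, h5, mul_comm]
      gcongr
      exact kerB_bound N m hmN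
    have h7 : J 1 (Er K n g) ≤ J 1 (Er K m g1) +
        J 1 (fun x => ∑ j ∈ Finset.range (2 ^ N), bB m j * Sg g2 j x) := by
      have e1 : Er K n g = fun x => w (2 ^ N) x * Er K m g1 x +
        (-1) * (w (2 ^ N - 1) x * ∑ j ∈ Finset.range (2 ^ N), bB m j * Sg g2 j x) := by
        funext x
        exact hE x
      rw [e1]
      refine (J_add_le (f := fun x => w (2 ^ N) x * Er K m g1 x)
        ((w_measurable _).mul (dep_Er hmK g1).measurable) one_pos le_rfl).trans ?_
      rw [J_w_mul, J_const_mul _ _ one_pos, J_w_mul]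
      simp
    rw [h4] at h3
    refine (h7.trans (add_le_add h3 h6)).trans ?_
    rw [← add_mul]
    gcongr
    by_cases hm0 : m = 0
    · rw [if_pos hm0, if_pos hm0]
      simp
    · rw [if_neg hm0, if_neg hm0, ← ENNReal.ofReal_add]
      · apply ENNReal.ofReal_le_ofReal
        linarith
      · positivity
      · have h8 : Nat.log 2 m ≤ N := Nat.log_mono_right hmn.le
        have h9 : (Nat.log 2 m : ℝ) ≤ N := by exact_mod_cast h8
        linarith

/-! ### Burkholder's inequality for dyadic martingale transforms -/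

theorem BU_measurable : Measurable (fun z : ℝ × ℝ => BU z.1 z.2) := by
  unfold BU
  refine Measurable.ite ?_ ?_ ?_
  · exact measurableSet_le (by fun_prop) (by fun_prop)
  · fun_prop
  · fun_prop

theorem r_flip_self (k : ℕ) (x : G) : r k (R243.WN.flip k x) = - r k x := by
  unfold r
  rw [flip_self]
  cases x k <;> simp

theorem int_flip {g : G → ℝ} (k : ℕ) (hm : Measurable g) :
    ∫ x, g (R243.WN.flip k x) ∂mu = ∫ x, g x ∂mu := by
  conv_rhs => rw [← (flip_mp k).map_eq]
  exact (integral_map (flip_measurable k).aemeasurable hm.aestronglyMeasurable).symm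

/-- partial transforms -/
noncomputable def Tp (lm : ℕ → ℝ) (h : G → ℝ) (n : ℕ) (x : G) : ℝ :=
  ∑ j ∈ Finset.range n, lm j * (Sg h (2 ^ (j + 1)) x - Sg h (2 ^ j) x)

theorem dep_Tp (n : ℕ) (lm : ℕ → ℝ) (h : G → ℝ) : Dep n (Tp lm h n) := dep_Tr n lm h

theorem burk_step {lm : ℕ → ℝ} (hlm : ∀ j, |lm j| ≤ 1) (h : G → ℝ) {τ : ℝ} (hτ : 0 < τ) (n : ℕ) :
    ∫ x, BU (Sg h (2 ^ (n + 1)) x / τ) (Tp lm h (n + 1) x / τ) ∂mu ≤
      ∫ x, BU (Sg h (2 ^ n) x / τ) (Tp lm h n x / τ) ∂mu := by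
  set A : G → ℝ := fun x => BU (Sg h (2 ^ (n + 1)) x / τ) (Tp lm h (n + 1) x / τ) with hA
  set B : G → ℝ := fun x => BU (Sg h (2 ^ n) x / τ) (Tp lm h n x / τ) with hB
  set d : G → ℝ := fun x => w (2 ^ n) x * Sg (fun x => w (2 ^ n) x * h x) (2 ^ n) x with hd
  have e1 : ∀ x, Sg h (2 ^ (n + 1)) x = Sg h (2 ^ n) x + d x := by
    intro x
    rw [pow_succ, mul_two, Sg_up le_rfl]
  have e2 : ∀ x, Tp lm h (n + 1) x = Tp lm h n x + lm n * d x := by
    intro x
    unfold Tp
    rw [Finset.sum_range_succ, e1 x]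
    ring
  have e3 : ∀ x, d (R243.WN.flip n x) = - d x := by
    intro x
    rw [hd]
    beta_reduce
    rw [w_pow, w_pow, r_flip_self, (dep_Sg (le_refl (2 ^ n)) _).flp le_rfl]
    ring
  have hAd : Dep (n + 1) A := by
    have h1 := dep_Sg (n := n + 1) (le_refl (2 ^ (n + 1))) h
    have h2 := dep_Tp (n + 1) lm h
    intro x y hxy
    rw [hA]
    beta_reduce
    rw [h1 x y hxy, h2 x y hxy]
  have hBd : Dep n B := by
    have h1 := dep_Sg (n := n) (le_refl (2 ^ n)) h
    have h2 := dep_Tp n lm h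
    intro x y hxy
    rw [hB]
    beta_reduce
    rw [h1 x y hxy, h2 x y hxy]
  have h1 : ∀ x, A x + A (R243.WN.flip n x) ≤ 2 * B x := by
    intro x
    rw [hA, hB]
    beta_reduce
    rw [e1, e2, e1 (R243.WN.flip n x), e2 (R243.WN.flip n x), e3,
      (dep_Sg (le_refl (2 ^ n)) h).flp le_rfl, (dep_Tp n lm h).flp le_rfl]
    have h2 := BU_mid (x := Sg h (2 ^ n) x / τ) (y := Tp lm h n x / τ) (h := d x / τ)
      (k := lm n * d x / τ) (by
        rw [abs_div, abs_div, abs_mul]
        gcongr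
        exact mul_le_of_le_one_left (abs_nonneg _) (hlm n))
    have e4 : (Sg h (2 ^ n) x + d x) / τ = Sg h (2 ^ n) x / τ + d x / τ := by ring
    have e5 : (Tp lm h n x + lm n * d x) / τ = Tp lm h n x / τ + lm n * d x / τ := by ring
    have e6 : (Sg h (2 ^ n) x + - d x) / τ = Sg h (2 ^ n) x / τ - d x / τ := by ring
    have e7 : (Tp lm h n x + lm n * - d x) / τ = Tp lm h n x / τ - lm n * d x / τ := by ring
    rw [e4, e5, e6, e7]
    exact h2
  have hAi := hAd.integrable mu
  have hBi := hBd.integrable mu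
  have hAf : Integrable (fun x => A (R243.WN.flip n x)) mu :=
    (flip_mp n).integrable_comp_of_integrable hAi
  have h2 : ∫ x, (A x + A (R243.WN.flip n x)) ∂mu ≤ ∫ x, 2 * B x ∂mu :=
    integral_mono (hAi.add hAf) (hBi.const_mul 2) h1
  rw [integral_add hAi hAf, int_flip n hAd.measurable, integral_const_mul] at h2
  linarith

theorem burk {K : ℕ} {lm : ℕ → ℝ} (hlm : ∀ j, |lm j| ≤ 1) {h : G → ℝ} (hh : Dep K h) {τ : ℝ}
    (hτ : 0 < τ) : mu {x | τ ≤ |Tr K lm h x|} ≤ ENNReal.ofReal (2 / τ) * J 1 h := by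
  have h0 : ∀ n, ∫ x, BU (Sg h (2 ^ n) x / τ) (Tp lm h n x / τ) ∂mu ≤ 0 := by
    intro n
    induction n with
    | zero =>
      apply integral_nonpos
      intro x
      apply BU_init
      unfold Tp
      simp
    | succ n ih => exact (burk_step hlm h hτ n).trans ih
  have h1 := h0 K
  simp only [Sg_inv hh] at h1
  have hTd : Dep K (Tr K lm h) := dep_Tr K lm h
  have hBd : Dep K (fun x => BU (h x / τ) (Tp lm h K x / τ)) := by
    have h2 := dep_Tp K lm h
    intro x y hxy
    beta_reduce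
    rw [hh x y hxy, h2 x y hxy]
  have hS : MeasurableSet {x | τ ≤ |Tr K lm h x|} :=
    measurableSet_le measurable_const hTd.measurable.abs
  have hhi := hh.integrable mu
  have h2 : ∫ x, ({x | τ ≤ |Tr K lm h x|}).indicator (fun _ => (1 : ℝ)) x ∂mu ≤
      ∫ x, (BU (h x / τ) (Tp lm h K x / τ) + 2 / τ * |h x|) ∂mu := by
    apply integral_mono
    · exact (integrable_const (1 : ℝ)).indicator hS
    · exact (hBd.integrable mu).add (hhi.abs.const_mul _)
    · intro x
      beta_reduce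
      have h3 := BU_maj (h x / τ) (Tp lm h K x / τ)
      have h4 : ({x | τ ≤ |Tr K lm h x|}).indicator (fun _ => (1 : ℝ)) x =
          if 1 ≤ |Tp lm h K x / τ| then (1 : ℝ) else 0 := by
        rw [abs_div, abs_of_pos hτ]
        by_cases h5 : τ ≤ |Tr K lm h x|
        · rw [indicator_of_mem (show x ∈ {x | τ ≤ |Tr K lm h x|} from h5), if_pos]
          rw [le_div_iff₀ hτ, one_mul]
          exact h5
        · rw [indicator_of_notMem (show x ∉ {x | τ ≤ |Tr K lm h x|} from h5), if_neg]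
          rw [le_div_iff₀ hτ, one_mul]
          exact h5
      rw [h4]
      refine h3.trans (le_of_eq ?_)
      rw [abs_div, abs_of_pos hτ]
      ring
  rw [integral_add (hBd.integrable mu) (hhi.abs.const_mul _), integral_indicator hS,
    setIntegral_const, smul_eq_mul, mul_one, integral_const_mul] at h2
  have h3 : mu.real {x | τ ≤ |Tr K lm h x|} ≤ 2 / τ * ∫ x, |h x| ∂mu := by linarith
  have h4 : J 1 h = ENNReal.ofReal (∫ x, |h x| ∂mu) := by
    unfold J
    simp only [ENNReal.rpow_one]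
    rw [ofReal_integral_eq_lintegral_ofReal hhi.abs (Eventually.of_forall fun x => abs_nonneg _)]
    refine lintegral_congr fun x => ?_
    rw [Real.enorm_eq_ofReal_abs]
  rw [h4, ← ENNReal.ofReal_mul (by positivity)]
  rw [← ENNReal.ofReal_toReal (measure_ne_top mu {x | τ ≤ |Tr K lm h x|})]
  exact ENNReal.ofReal_le_ofReal h3

theorem Tr_smul (K : ℕ) (lm : ℕ → ℝ) (c : ℝ) (h : G → ℝ) (x : G) :
    Tr K (fun j => c * lm j) h x = c * Tr K lm h x := by
  unfold Tr
  rw [Finset.mul_sum]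
  refine Finset.sum_congr rfl fun j _ => ?_
  ring

theorem markov {g : G → ℝ} (hg : Measurable g) {τ : ℝ} (hτ : 0 < τ) :
    mu {x | τ ≤ |g x|} ≤ ENNReal.ofReal (1 / τ) * J 1 g := by
  have h1 := mul_meas_ge_le_lintegral (μ := mu) hg.enorm (ENNReal.ofReal τ)
  have h2 : {x | ENNReal.ofReal τ ≤ ‖g x‖ₑ} = {x | τ ≤ |g x|} := by
    ext x
    simp only [Set.mem_ofPred_eq, Real.enorm_eq_ofReal_abs]
    rw [ENNReal.ofReal_le_ofReal_iff (abs_nonneg _)]
  rw [h2] at h1
  have h3 : J 1 g = ∫⁻ x, ‖g x‖ₑ ∂mu := by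
    unfold J
    simp only [ENNReal.rpow_one]
  rw [h3]
  calc mu {x | τ ≤ |g x|} = ENNReal.ofReal (1 / τ) * (ENNReal.ofReal τ * mu {x | τ ≤ |g x|}) := by
        rw [← mul_assoc, ← ENNReal.ofReal_mul (by positivity), one_div, inv_mul_cancel₀ hτ.ne',
          ENNReal.ofReal_one, one_mul]
    _ ≤ _ := by gcongr

/-- the weak type estimate -/
theorem weak_type {K n : ℕ} (hn0 : n ≠ 0) (hn : n < 2 ^ K) {g : G → ℝ} (hg : Dep K g) {τ : ℝ}
    (hτ : 0 < τ) :
    mu {x | τ < |1 / ll n * Lam n g x|} ≤ ENNReal.ofReal (52 / τ) * J 1 g := by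
  have hl := ll_lower hn0
  have hN0 : (0 : ℝ) ≤ Nat.log 2 n := Nat.cast_nonneg _
  have hl0 : 0 < ll n := by linarith
  set c : ℝ := 1 / ll n with hc
  have hc0 : 0 < c := by positivity
  set g1 : G → ℝ := fun x => w n x * g x with hg1
  have hd1 : Dep K g1 := (dep_w hn).mul hg
  have e1 : ∀ x, c * Lam n g x = w n x * Tr K (fun j => c * lam n j) g1 x + c * Er K n g x := by
    intro x
    rw [Tr_smul]
    unfold Er
    ring
  have h1 : {x | τ < |c * Lam n g x|} ⊆ {x | τ / 2 ≤ |Tr K (fun j => c * lam n j) g1 x|} ∪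
      {x | τ / 2 ≤ |c * Er K n g x|} := by
    intro x hx
    simp only [Set.mem_union, Set.mem_ofPred_eq] at hx ⊢
    by_contra hcon
    push Not at hcon
    obtain ⟨h2, h3⟩ := hcon
    rw [e1] at hx
    have h4 := abs_add_le (w n x * Tr K (fun j => c * lam n j) g1 x) (c * Er K n g x)
    rw [abs_mul, w_abs, one_mul] at h4
    linarith
  refine (measure_mono h1).trans ((measure_union_le _ _).trans ?_)
  have hlm : ∀ j, |c * lam n j| ≤ 1 := by
    intro j
    rw [abs_of_nonneg (mul_nonneg hc0.le (lam_nonneg n j)), hc, one_div, inv_mul_le_iff₀ hl0, mul_one]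
    exact lam_le n j
  have h2 := burk hlm hd1 (τ := τ / 2) (by positivity)
  have h3 := markov (g := fun x => c * Er K n g x)
    (measurable_const.mul (dep_Er hn g).measurable) (τ := τ / 2) (by positivity)
  rw [J_const_mul _ _ one_pos, ENNReal.rpow_one] at h3
  have h4 := Er_bound n hn g hg
  rw [if_neg hn0] at h4
  have h5 : J 1 g1 = J 1 g := J_w_mul _ _ _
  rw [h5] at h2
  have h6 : mu {x | τ / 2 ≤ |c * Er K n g x|} ≤ ENNReal.ofReal (48 / τ) * J 1 g := by
    refine h3.trans ?_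
    calc ENNReal.ofReal (1 / (τ / 2)) * (‖c‖ₑ * J 1 (Er K n g))
        ≤ ENNReal.ofReal (1 / (τ / 2)) * (‖c‖ₑ *
            (ENNReal.ofReal (12 * ((Nat.log 2 n : ℝ) + 1)) * J 1 g)) := by gcongr
      _ = ENNReal.ofReal (1 / (τ / 2) * (c * (12 * ((Nat.log 2 n : ℝ) + 1)))) * J 1 g := by
          rw [Real.enorm_eq_ofReal_abs, abs_of_pos hc0, ← mul_assoc, ← mul_assoc,
            ← ENNReal.ofReal_mul (by positivity), ← ENNReal.ofReal_mul (by positivity), mul_assoc]
      _ ≤ _ := by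
          gcongr
          have h7 : c * (12 * ((Nat.log 2 n : ℝ) + 1)) ≤ 24 := by
            rw [hc, one_div, inv_mul_le_iff₀ hl0]
            linarith
          calc 1 / (τ / 2) * (c * (12 * ((Nat.log 2 n : ℝ) + 1))) ≤ 1 / (τ / 2) * 24 := by gcongr
            _ = 48 / τ := by field_simp; norm_num
  calc _ ≤ ENNReal.ofReal (2 / (τ / 2)) * J 1 g + ENNReal.ofReal (48 / τ) * J 1 g :=
        add_le_add h2 h6
    _ = _ := by
        rw [← add_mul, ← ENNReal.ofReal_add (by positivity) (by positivity)]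
        congr 2
        field_simp
        norm_num

end Pool.Agent.R165.WL
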