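import Pool.Agent.R243.WN.Defs

set_option autoImplicit false

/-!
# Nörlund logarithmic means on the dyadic group: definitions
-/

namespace Pool.Agent.R165.WL

open MeasureTheory Set Filter Topology Pool.Agent.R243.WN
open scoped ENNReal NNReal

/-- `l_n = Σ_{k=1}^n 1/k` -/
noncomputable def l (n : ℕ) : ℝ := ∑ k ∈ Finset.Icc 1 n, 1 / (k : ℝ)

/-- the Nörlund logarithmic mean `L_n f = (1/l_n) Σ_{k=0}^{n-1} S_k f/(n-k)` -/
noncomputable def L (f : ℕ → G → ℝ) (n : ℕ) (x : G) : ℝ :=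
  1 / l n * ∑ k ∈ Finset.range n, S f k x / ((n : ℝ) - k)

/-- `‖g‖_{weak-L_p} = (sup_t t^p μ(|g| > t))^{1/p}` -/
noncomputable def wkNorm (p : ℝ) (g : G → ℝ) : ℝ≥0∞ :=
  (⨆ t : ℝ≥0, (t : ℝ≥0∞) ^ p * mu {x | (t : ℝ≥0∞) < ‖g x‖ₑ}) ^ (1 / p)

/-- the modulus of continuity `ω_{H_p}(1/2^n, f) = ‖f - S_{2^n} f‖_{H_p}` -/
noncomputable def modulus (p : ℝ) (f : ℕ → G → ℝ) (n : ℕ) : ℝ≥0∞ :=
  hpNorm p (fun k x => f k x - f (min k n) x)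

end Pool.Agent.R165.WL
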