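import Pool.Agent.R165.WL.D
import Pool.Agent.R165.WL.Defs
import Pool.Agent.R243.WN.Atom

set_option autoImplicit false

/-!
# Martingales on the dyadic group
-/

namespace Pool.Agent.R165.WL

open MeasureTheory Set Filter Topology Pool.Agent.R243.WN
open scoped ENNReal NNReal

theorem F_inv {n : ℕ} {s : Set G} (hs : MeasurableSet[F n] s) {x y : G} (h : ∀ j < n, x j = y j) :
    x ∈ s ↔ y ∈ s := by
  have hs' : MeasurableSet[MeasurableSpace.generateFrom {A | ∃ x, A = R243.WN.I n x}] s := hs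
  clear hs
  induction s, hs' using MeasurableSpace.generateFrom_induction with
  | hC t ht _ =>
    obtain ⟨z, rfl⟩ := ht
    constructor
    · intro hx j hj
      rw [← h j hj]
      exact hx j hj
    · intro hx j hj
      rw [h j hj]
      exact hx j hj
  | empty => simp
  | compl t _ ih =>
    rw [Set.mem_compl_iff, Set.mem_compl_iff]
    exact not_congr ih
  | iUnion s _ ih =>
    simp only [Set.mem_iUnion]
    exact exists_congr ih

theorem mart_dep {f : ℕ → G → ℝ} (hf : Martingale f F mu) (n : ℕ) : Dep n (f n) := by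
  intro x y hxy
  have h1 : Measurable[F n] (f n) := (hf.1 n).measurable
  have h2 : MeasurableSet[F n] (f n ⁻¹' {f n x}) := h1 (measurableSet_singleton _)
  have h3 := (F_inv h2 hxy).1 rfl
  exact (Set.mem_singleton_iff.1 h3).symm

theorem I_real (n : ℕ) (x : G) : mu.real (R243.WN.I n x) = (2⁻¹ : ℝ) ^ n := by
  rw [Measure.real, mu_I, ENNReal.toReal_pow, ENNReal.toReal_inv]
  norm_num

theorem setInt_dep {n : ℕ} {g : G → ℝ} (hg : Dep n g) (x : G) :
    ∫ y in R243.WN.I n x, g y ∂mu = (2⁻¹ : ℝ) ^ n * g x := by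
  rw [setIntegral_congr_fun (g := fun _ => g x) (I_meas n x) (fun y hy => hg y x hy),
    setIntegral_const, I_real, smul_eq_mul]

theorem mart_mid {f : ℕ → G → ℝ} (hf : Martingale f F mu) (n : ℕ) (x : G) :
    f n x = (f (n + 1) x + f (n + 1) (R243.WN.flip n x)) / 2 := by
  have h1 := hf.setIntegral_eq (Nat.le_succ n) (I_mem_F n x)
  have hd := mart_dep hf (n + 1)
  rw [setInt_dep (mart_dep hf n), I_succ, setIntegral_union _ (I_meas _ _)
    (hd.integrable mu).integrableOn (hd.integrable mu).integrableOn,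
    setInt_dep hd, setInt_dep hd] at h1
  · rw [pow_succ] at h1
    have h2 : (2⁻¹ : ℝ) ^ n ≠ 0 := by positivity
    have h3 : (2⁻¹ : ℝ) ^ n * f n x =
      (2⁻¹ : ℝ) ^ n * ((f (n + 1) x + f (n + 1) (R243.WN.flip n x)) / 2) := by
      rw [h1]; ring
    exact mul_left_cancel₀ h2 h3
  · rw [Set.disjoint_left]
    intro y h2 h3
    have h4 := h2 n (Nat.lt_succ_self n)
    have h5 := h3 n (Nat.lt_succ_self n)
    rw [flip_self, ← h4] at h5
    revert h5
    generalize y n = b
    cases b <;> decide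

theorem mart_ft_succ {f : ℕ → G → ℝ} (hf : Martingale f F mu) {n i : ℕ} (hi : i < 2 ^ n) :
    ft (f (n + 1)) i = ft (f n) i := by
  have hd := mart_dep hf (n + 1)
  have hdw : Dep n (w i) := dep_w hi
  have h1 : Dep (n + 1) (fun x => f (n + 1) x * w i x) := hd.mul (hdw.mono (Nat.le_succ n))
  have h2 : ∫ x, f (n + 1) (R243.WN.flip n x) * w i x ∂mu = ∫ x, f (n + 1) x * w i x ∂mu := by
    rw [← int_flip n h1.measurable]
    congr 1
    funext x
    rw [hdw.flp le_rfl]
  have h3 : Integrable (fun x => f (n + 1) (R243.WN.flip n x) * w i x) mu := by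
    have h4 := (flip_mp n).integrable_comp_of_integrable (h1.integrable mu)
    refine h4.congr (Eventually.of_forall fun x => ?_)
    simp only [Function.comp]
    rw [hdw.flp le_rfl]
  unfold ft
  have h5 : ∀ x, f n x * w i x = 2⁻¹ * (f (n + 1) x * w i x +
      f (n + 1) (R243.WN.flip n x) * w i x) := by
    intro x
    rw [mart_mid hf n x]
    ring
  simp only [h5]
  rw [integral_const_mul, integral_add (h1.integrable mu) h3, h2]
  ring

theorem mart_ft {f : ℕ → G → ℝ} (hf : Martingale f F mu) {n m i : ℕ} (hi : i < 2 ^ n) (h : n ≤ m) :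
    ft (f m) i = ft (f n) i := by
  induction m, h using Nat.le_induction with
  | base => rfl
  | succ m hm ih =>
    rw [mart_ft_succ hf (hi.trans_le (Nat.pow_le_pow_right (by norm_num) hm)), ih]

theorem coef_eq {f : ℕ → G → ℝ} (hf : Martingale f F mu) {n i : ℕ} (hi : i < 2 ^ n) :
    coef f i = ft (f n) i := by
  unfold coef
  refine Tendsto.limUnder_eq ?_
  refine tendsto_const_nhds.congr' ?_
  filter_upwards [eventually_ge_atTop n] with m hm
  exact (mart_ft hf hi hm).symm

theorem S_eq {f : ℕ → G → ℝ} (hf : Martingale f F mu) {n j : ℕ} (hj : j ≤ 2 ^ n) (x : G) :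
    S f j x = Sg (f n) j x := by
  unfold S Sg
  refine Finset.sum_congr rfl fun i hi => ?_
  rw [coef_eq hf ((Finset.mem_range.1 hi).trans_le hj)]

theorem Sg_mart {f : ℕ → G → ℝ} (hf : Martingale f F mu) {n m : ℕ} (h : n ≤ m) (x : G) :
    Sg (f m) (2 ^ n) x = f n x := by
  rw [← Sg_inv (mart_dep hf n) x]
  unfold Sg
  refine Finset.sum_congr rfl fun i hi => ?_
  rw [mart_ft hf (Finset.mem_range.1 hi) h]

/-- `e_t = r_t (f_{t+1} - f_t)` -/
noncomputable def ee (f : ℕ → G → ℝ) (t : ℕ) (x : G) : ℝ := r t x * (f (t + 1) x - f t x)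

theorem dep_of_flip {β : Type*} {t : ℕ} {g : G → β} (hg : Dep (t + 1) g)
    (h : ∀ x, g (R243.WN.flip t x) = g x) : Dep t g := by
  intro x y hxy
  rcases dep_half hg x y hxy with ⟨h1, -⟩ | ⟨h1, -⟩
  · exact h1
  · rw [h1, h]

theorem dep_ee {f : ℕ → G → ℝ} (hf : Martingale f F mu) (t : ℕ) : Dep t (ee f t) := by
  apply dep_of_flip
  · exact (dep_r (Nat.lt_succ_self t)).mul ((mart_dep hf (t + 1)).sub
      ((mart_dep hf t).mono (Nat.le_succ t)))
  · intro x
    unfold ee
    rw [r_flip_self, (mart_dep hf t).flp le_rfl, mart_mid hf t x]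
    ring

theorem S_block {f : ℕ → G → ℝ} (hf : Martingale f F mu) {t i : ℕ} (hi : i ≤ 2 ^ t) (x : G) :
    S f (2 ^ t + i) x = f t x + r t x * Sg (ee f t) i x := by
  have h1 : 2 ^ t + i ≤ 2 ^ (t + 1) := by rw [pow_succ]; omega
  rw [S_eq hf h1, Sg_up hi, Sg_mart hf (Nat.le_succ t), w_pow]
  congr 2
  unfold Sg
  refine Finset.sum_congr rfl fun l hl => ?_
  congr 1
  have hl' : l < 2 ^ t := (Finset.mem_range.1 hl).trans_le hi
  have hdw : Dep t (w l) := dep_w hl'
  -- the coefficient of `r_t f_t` vanishes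
  have h2 : ∫ x, r t x * f t x * w l x ∂mu = 0 := by
    apply integral_zero_of_flip t
    · intro y
      rw [r_flip_self, (mart_dep hf t).flp le_rfl, hdw.flp le_rfl]
      ring
    · exact (((dep_r (Nat.lt_succ_self t)).mul ((mart_dep hf t).mono (Nat.le_succ t))).mul
        (hdw.mono (Nat.le_succ t))).measurable
  unfold ft
  have h3 : ∀ x, ee f t x * w l x = w (2 ^ t) x * f (t + 1) x * w l x -
      r t x * f t x * w l x := by
    intro x
    unfold ee
    rw [w_pow]
    ring
  simp only [h3]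
  rw [integral_sub, h2, sub_zero]
  · refine Dep.integrable (n := t + 1) ?_ mu
    exact ((dep_w (Nat.pow_lt_pow_right (by norm_num) (Nat.lt_succ_self t))).mul
      (mart_dep hf (t + 1))).mul (hdw.mono (Nat.le_succ t))
  · refine Dep.integrable (n := t + 1) ?_ mu
    exact ((dep_r (Nat.lt_succ_self t)).mul ((mart_dep hf t).mono (Nat.le_succ t))).mul
        (hdw.mono (Nat.le_succ t))

/-! ### quasi-norms -/

theorem l_eq (n : ℕ) : l n = ll n := by
  induction n with
  | zero => simp [l, ll]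
  | succ n ih =>
    rw [ll_succ, ← ih]
    unfold l
    rw [Finset.sum_Icc_succ_top (by omega)]
    push_cast
    rfl

/-- the `H_p` quantity -/
noncomputable def om (p : ℝ) (f : ℕ → G → ℝ) (n : ℕ) : ℝ≥0∞ :=
  ∫⁻ x, (⨆ m, ‖f m x - f (min m n) x‖ₑ) ^ p ∂mu

theorem modulus_rpow {p : ℝ} (hp : 0 < p) (f : ℕ → G → ℝ) (n : ℕ) :
    modulus p f n ^ p = om p f n := by
  unfold modulus hpNorm om
  rw [← ENNReal.rpow_mul, one_div, inv_mul_cancel₀ hp.ne', ENNReal.rpow_one]

theorem J_diff_le {p : ℝ} (hp : 0 < p) (f : ℕ → G → ℝ) {n m : ℕ} (h : n ≤ m) :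
    J p (fun x => f m x - f n x) ≤ om p f n := by
  unfold J om
  refine lintegral_mono fun x => ?_
  refine ENNReal.rpow_le_rpow ?_ hp.le
  refine le_trans ?_ (le_iSup _ m)
  rw [min_eq_right h]

theorem J_ee {p : ℝ} (hp : 0 < p) (f : ℕ → G → ℝ) (t : ℕ) : J p (ee f t) ≤ om p f t := by
  have h1 : ee f t = fun x => w (2 ^ t) x * (f (t + 1) x - f t x) := by
    funext x
    unfold ee
    rw [w_pow]
  rw [h1, J_w_mul]
  exact J_diff_le hp f (Nat.le_succ t)

end Pool.Agent.R165.WL
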