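import Pool.Agent.R165.WL.E

set_option autoImplicit false

/-!
# Limits, `0 < p < 1`
-/

namespace Pool.Agent.R165.WL

open MeasureTheory Set Filter Topology Pool.Agent.R243.WN
open scoped ENNReal NNReal

theorem osc_measurable {f : ℕ → G → ℝ} (hm : ∀ n, Measurable (f n)) (n : ℕ) :
    Measurable (fun x => ⨆ m, ‖f m x - f (min m n) x‖ₑ) :=
  Measurable.iSup fun m => ((hm m).sub (hm (min m n))).enorm

theorem exists_lim {p : ℝ} (hp0 : 0 < p) {f : ℕ → G → ℝ} (hm : ∀ n, Measurable (f n))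
    (h : Tendsto (om p f) atTop (𝓝 0)) :
    ∃ g : G → ℝ, Measurable g ∧ (∀ᵐ x ∂mu, Tendsto (fun n => f n x) atTop (𝓝 (g x))) := by
  set s : ℕ → G → ℝ≥0∞ := fun n x => ⨆ m, ‖f m x - f (min m n) x‖ₑ with hs
  have hsm : ∀ n, Measurable (s n) := osc_measurable hm
  have h1 : ∫⁻ x, (⨅ n, s n x) ^ p ∂mu = 0 := by
    refine le_antisymm ?_ zero_le
    refine ge_of_tendsto' h fun n => ?_
    refine lintegral_mono fun x => ENNReal.rpow_le_rpow (iInf_le _ n) hp0.le
  rw [lintegral_eq_zero_iff ((Measurable.iInf hsm).pow_const p)] at h1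
  have h2 : ∀ᵐ x ∂mu, ∃ l, Tendsto (fun n => f n x) atTop (𝓝 l) := by
    filter_upwards [h1] with x hx
    have h3 : ⨅ n, s n x = 0 := by
      have h4 : (⨅ n, s n x) ^ p = 0 := hx
      rcases ENNReal.rpow_eq_zero_iff.1 h4 with h5 | h5
      · exact h5.1
      · linarith [h5.2]
    apply cauchySeq_tendsto_of_complete
    rw [Metric.cauchySeq_iff']
    intro ε hε
    have h5 : ⨅ n, s n x < ENNReal.ofReal ε := by
      rw [h3]
      exact ENNReal.ofReal_pos.2 hε
    obtain ⟨N, hN⟩ := iInf_lt_iff.1 h5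
    refine ⟨N, fun n hn => ?_⟩
    have h6 : ‖f n x - f N x‖ₑ ≤ s N x := by
      rw [hs]
      refine le_trans ?_ (le_iSup _ n)
      rw [min_eq_right hn]
    have h7 := h6.trans_lt hN
    rw [Real.enorm_eq_ofReal_abs, ENNReal.ofReal_lt_ofReal_iff hε] at h7
    rw [Real.dist_eq]
    exact h7
  obtain ⟨g, hg, hg2⟩ := measurable_limit_of_tendsto_metrizable_ae
    (fun n => (hm n).aemeasurable) h2
  exact ⟨g, hg, hg2⟩

theorem J_lim_le {p : ℝ} (hp0 : 0 < p) {f : ℕ → G → ℝ} {g : G → ℝ}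
    (hg : ∀ᵐ x ∂mu, Tendsto (fun n => f n x) atTop (𝓝 (g x))) (n : ℕ) :
    J p (fun x => f n x - g x) ≤ om p f n := by
  unfold J om
  refine lintegral_mono_ae ?_
  filter_upwards [hg] with x hx
  refine ENNReal.rpow_le_rpow ?_ hp0.le
  have h1 : Tendsto (fun m => ‖f n x - f m x‖ₑ) atTop (𝓝 ‖f n x - g x‖ₑ) :=
    (continuous_enorm.tendsto _).comp (tendsto_const_nhds.sub hx)
  refine le_of_tendsto h1 ?_
  filter_upwards [eventually_ge_atTop n] with m hmn
  refine le_trans ?_ (le_iSup _ m)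
  rw [min_eq_right hmn, ← enorm_neg, neg_sub]

/-- the weak quasi-norm, to the power `p` -/
noncomputable def wk (p : ℝ) (g : G → ℝ) : ℝ≥0∞ :=
  ⨆ t : ℝ≥0, (t : ℝ≥0∞) ^ p * mu {x | (t : ℝ≥0∞) < ‖g x‖ₑ}

theorem wk_le_J {p : ℝ} (hp0 : 0 < p) {g : G → ℝ} (hg : Measurable g) : wk p g ≤ J p g := by
  unfold wk
  refine iSup_le fun t => ?_
  have h1 := mul_meas_ge_le_lintegral (μ := mu) (hg.enorm.pow_const p) ((t : ℝ≥0∞) ^ p)
  refine le_trans ?_ h1
  gcongr
  intro hx
  exact ENNReal.rpow_le_rpow (le_of_lt hx) hp0.le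

theorem wkNorm_tendsto {p : ℝ} (hp0 : 0 < p) {g : ℕ → G → ℝ}
    (h : Tendsto (fun k => wk p (g k)) atTop (𝓝 0)) :
    Tendsto (fun k => wkNorm p (g k)) atTop (𝓝 0) := by
  have h1 : ∀ k, wkNorm p (g k) = wk p (g k) ^ (1 / p) := fun k => rfl
  simp only [h1]
  have h2 := (ENNReal.continuous_rpow_const (y := 1 / p)).tendsto (0 : ℝ≥0∞)
  rw [ENNReal.zero_rpow_of_pos (by positivity)] at h2
  exact h2.comp h

theorem pNorm_tendsto {p : ℝ} (hp0 : 0 < p) {g : ℕ → G → ℝ}
    (h : Tendsto (fun k => J p (g k)) atTop (𝓝 0)) :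
    Tendsto (fun k => pNorm p (g k)) atTop (𝓝 0) := by
  have h1 : ∀ k, pNorm p (g k) = J p (g k) ^ (1 / p) := fun k => rfl
  simp only [h1]
  have h2 := (ENNReal.continuous_rpow_const (y := 1 / p)).tendsto (0 : ℝ≥0∞)
  rw [ENNReal.zero_rpow_of_pos (by positivity)] at h2
  exact h2.comp h

/-! ### block decomposition -/

theorem sum_blocks (φ : ℕ → ℝ) (n : ℕ) : ∑ j ∈ Finset.range (2 ^ n), φ j =
    φ 0 + ∑ t ∈ Finset.range n, ∑ i ∈ Finset.range (2 ^ t), φ (2 ^ t + i) := by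
  induction n with
  | zero => simp
  | succ n ih =>
    rw [pow_succ, mul_two, Finset.sum_range_add, ih, Finset.sum_range_succ]
    ring

/-- block lengths -/
def bl (k t : ℕ) : ℕ := min (2 ^ t) (k - 2 ^ t)

theorem sum_blocks' (φ : ℕ → ℝ) {k n : ℕ} (h1 : 2 ^ n ≤ k) (h2 : k < 2 ^ (n + 1)) :
    ∑ j ∈ Finset.range k, φ j =
      φ 0 + ∑ t ∈ Finset.range (n + 1), ∑ i ∈ Finset.range (bl k t), φ (2 ^ t + i) := by
  obtain ⟨m, rfl⟩ := Nat.exists_eq_add_of_le h1
  rw [Finset.sum_range_add, sum_blocks, Finset.sum_range_succ, add_assoc]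
  congr 2
  · refine Finset.sum_congr rfl fun t ht => ?_
    rw [Finset.mem_range] at ht
    have h3 : bl (2 ^ n + m) t = 2 ^ t := by
      unfold bl
      apply min_eq_left
      have : 2 ^ (t + 1) ≤ 2 ^ n := Nat.pow_le_pow_right (by norm_num) ht
      rw [pow_succ] at this
      omega
    rw [h3]
  · have h3 : bl (2 ^ n + m) n = m := by
      unfold bl
      rw [pow_succ] at h2
      omega
    rw [h3]

/-- the weight of a block -/
noncomputable def Wt (k t : ℕ) : ℝ := ∑ i ∈ Finset.range (bl k t), 1 / ((k : ℝ) - (2 ^ t + i : ℕ))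

/-- the oscillating part of a block -/
noncomputable def Kt (f : ℕ → G → ℝ) (k t : ℕ) (x : G) : ℝ :=
  ∑ i ∈ Finset.range (bl k t), 1 / ((k : ℝ) - (2 ^ t + i : ℕ)) * Sg (ee f t) i x

theorem L_diff {f : ℕ → G → ℝ} (hf : Martingale f F mu) {k n : ℕ} (h1 : 2 ^ n ≤ k)
    (h2 : k < 2 ^ (n + 1)) (x : G) :
    L f k x - f n x = ∑ t ∈ Finset.range (n + 1), (1 / ll k * Wt k t) * (f t x - f n x) +
      (∑ t ∈ Finset.range (n + 1), 1 / ll k * (w (2 ^ t) x * Kt f k t x) +
        (-(1 / ll k * (1 / k))) * f n x) := by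
  have hk0 : 0 < k := lt_of_lt_of_le (Nat.two_pow_pos n) h1
  have hl0 : 0 < ll k := by
    have := ll_lower hk0.ne'
    have h3 : (0 : ℝ) ≤ Nat.log 2 k := Nat.cast_nonneg _
    linarith
  have e1 : ∑ j ∈ Finset.range k, S f j x / ((k : ℝ) - j) =
      ∑ t ∈ Finset.range (n + 1), (Wt k t * f t x + w (2 ^ t) x * Kt f k t x) := by
    rw [sum_blocks' (fun j => S f j x / ((k : ℝ) - j)) h1 h2]
    have e2 : S f 0 x / ((k : ℝ) - (0 : ℕ)) = 0 := by simp [S]
    rw [e2, zero_add]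
    refine Finset.sum_congr rfl fun t _ => ?_
    unfold Wt Kt
    rw [Finset.sum_mul, Finset.mul_sum, ← Finset.sum_add_distrib]
    refine Finset.sum_congr rfl fun i hi => ?_
    have hi' : i ≤ 2 ^ t := (Finset.mem_range.1 hi).le.trans (min_le_left _ _)
    rw [S_block hf hi', w_pow]
    ring
  have e3 : ll k = 1 / (k : ℝ) + ∑ t ∈ Finset.range (n + 1), Wt k t := by
    rw [← ll_reflect, sum_blocks' (fun j : ℕ => 1 / ((k : ℝ) - j)) h1 h2]
    unfold Wt
    push_cast
    rw [sub_zero]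
  have e4 : ∑ t ∈ Finset.range (n + 1), (1 / ll k * Wt k t) * (f t x - f n x) =
      1 / ll k * ∑ t ∈ Finset.range (n + 1), Wt k t * f t x -
        1 / ll k * (ll k - 1 / (k : ℝ)) * f n x := by
    have e5 : ll k - 1 / (k : ℝ) = ∑ t ∈ Finset.range (n + 1), Wt k t := by
      rw [e3]; ring
    rw [e5, Finset.mul_sum, Finset.mul_sum, Finset.sum_mul, ← Finset.sum_sub_distrib]
    refine Finset.sum_congr rfl fun t _ => ?_
    ring
  unfold L
  rw [l_eq, e1, e4, Finset.sum_add_distrib, ← Finset.mul_sum]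
  have e6 : 1 / ll k * ll k = 1 := by field_simp
  linear_combination (f n x) * e6

theorem Wt_nonneg (k t : ℕ) : 0 ≤ Wt k t := by
  unfold Wt
  apply Finset.sum_nonneg
  intro i hi
  have hi' : i < k - 2 ^ t := (Finset.mem_range.1 hi).trans_le (min_le_right _ _)
  have h1 : 2 ^ t + i ≤ k := by omega
  have h2 : ((2 ^ t + i : ℕ) : ℝ) ≤ k := by exact_mod_cast h1
  apply div_nonneg zero_le_one
  linarith

theorem Wt_le {k n t : ℕ} (h1 : 2 ^ n ≤ k) (h2 : k < 2 ^ (n + 1)) (ht : t ≤ n) :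
    1 / ll k * Wt k t ≤ 2 * (1 / 2) ^ (n - t) := by
  have hk0 : 0 < k := lt_of_lt_of_le (Nat.two_pow_pos n) h1
  have hl1 : 1 ≤ ll k := by
    have h3 := ll_mono hk0
    have : ll 1 = 1 := by simp [ll]
    calc (1 : ℝ) = ll 1 := this.symm
      _ ≤ ll k := h3
  have hl0 : 0 < ll k := by linarith
  have hW := Wt_nonneg k t
  by_cases h3 : n ≤ t + 1
  · have e3 : ll k = 1 / (k : ℝ) + ∑ t ∈ Finset.range (n + 1), Wt k t := by
      rw [← ll_reflect, sum_blocks' (fun j : ℕ => 1 / ((k : ℝ) - j)) h1 h2]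
      unfold Wt
      push_cast
      rw [sub_zero]
    have h4 : Wt k t ≤ ll k := by
      rw [e3]
      have h5 := Finset.single_le_sum (f := fun t => Wt k t) (fun t _ => Wt_nonneg k t)
        (Finset.mem_range.2 (Nat.lt_succ_of_le ht))
      have h6 : (0 : ℝ) ≤ 1 / k := by positivity
      simp only [Nat.succ_eq_add_one] at h5
      linarith
    have h5 : 1 / ll k * Wt k t ≤ 1 := by
      rw [one_div, inv_mul_le_iff₀ hl0, mul_one]
      exact h4
    have h6 : (1 / 2 : ℝ) ^ 1 ≤ (1 / 2) ^ (n - t) :=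
      pow_le_pow_of_le_one (by norm_num) (by norm_num) (by omega)
    linarith
  · push Not at h3
    obtain ⟨u, hu⟩ : ∃ u, n = t + 2 + u := ⟨n - (t + 2), by omega⟩
    have h4 : Wt k t ≤ 2 * (1 / 2) ^ (n - t) := by
      unfold Wt
      calc ∑ i ∈ Finset.range (bl k t), 1 / ((k : ℝ) - (2 ^ t + i : ℕ))
          ≤ ∑ _i ∈ Finset.range (bl k t), 1 / (2 : ℝ) ^ (n - 1) := by
            apply Finset.sum_le_sum
            intro i hi
            have hi' : i < 2 ^ t := (Finset.mem_range.1 hi).trans_le (min_le_left _ _)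
            apply one_div_le_one_div_of_le (by positivity)
            have h5 : (2 ^ t + i) + 2 ^ (n - 1) ≤ k := by
              have h6 : 2 ^ (t + 1) ≤ 2 ^ (n - 1) := Nat.pow_le_pow_right (by norm_num) (by omega)
              have h7 : 2 ^ n = 2 ^ (n - 1) + 2 ^ (n - 1) := by
                rw [← mul_two, ← pow_succ]; congr 1; omega
              rw [pow_succ] at h6
              omega
            have h6 : ((2 ^ t + i : ℕ) : ℝ) + 2 ^ (n - 1) ≤ k := by exact_mod_cast h5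
            linarith
        _ = (bl k t : ℝ) * (1 / (2 : ℝ) ^ (n - 1)) := by
            rw [Finset.sum_const, Finset.card_range, nsmul_eq_mul]
        _ ≤ (2 : ℝ) ^ t * (1 / (2 : ℝ) ^ (n - 1)) := by
            gcongr
            have : bl k t ≤ 2 ^ t := min_le_left _ _
            exact_mod_cast this
        _ = 2 * (1 / 2) ^ (n - t) := by
            rw [show n - 1 = t + (u + 1) by omega, show n - t = u + 2 by omega, pow_add, pow_add]
            rw [one_div_pow]
            field_simp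
            ring
    refine le_trans ?_ h4
    rw [one_div, inv_mul_le_iff₀ hl0]
    nlinarith

theorem J_Kt {f : ℕ → G → ℝ} (hf : Martingale f F mu) {k n t : ℕ} (h1 : 2 ^ n ≤ k) (ht : t ≤ n)
    {p : ℝ} (hp0 : 0 < p) (hp1 : p < 1) :
    J p (Kt f k t) ≤ ENNReal.ofReal (((2 : ℝ) ^ t) ^ (1 - p)) * J p (ee f t) *
      ENNReal.ofReal ((2 * (1 / 2) ^ (n - t)) ^ p * CA p) := by
  unfold Kt
  refine (conv_bound (t := t) (R := bl k t) (min_le_left _ _) (dep_ee hf t) _ hp0 hp1.le).trans ?_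
  gcongr
  by_cases h3 : n ≤ t + 1
  · have hJ : bl k t ≤ k - 2 ^ t := min_le_right _ _
    have h4 : 2 ^ t ≤ k := (Nat.pow_le_pow_right (by norm_num) ht).trans h1
    have e1 : ∀ x, ∑ j ∈ Finset.range (bl k t), 1 / ((k : ℝ) - (2 ^ t + j : ℕ)) * D j x =
        ∑ j ∈ Finset.range (bl k t), (1 / (((k - 2 ^ t : ℕ) : ℝ) - j)) * D j x := by
      intro x
      refine Finset.sum_congr rfl fun j _ => ?_
      congr 2
      rw [Nat.cast_sub h4]
      push_cast
      ring
    simp only [e1]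
    refine (kerA_bound (min_le_left _ _) hJ hp0 hp1).trans ?_
    apply ENNReal.ofReal_le_ofReal
    have h5 : (1 : ℝ) ≤ 2 * (1 / 2) ^ (n - t) := by
      have h6 : (1 / 2 : ℝ) ^ 1 ≤ (1 / 2) ^ (n - t) :=
        pow_le_pow_of_le_one (by norm_num) (by norm_num) (by omega)
      linarith
    have h6 : (1 : ℝ) ≤ (2 * (1 / 2) ^ (n - t)) ^ p := Real.one_le_rpow h5 hp0.le
    have h7 := CA_nonneg p
    nlinarith
  · push Not at h3
    have h4 : bl k t = 2 ^ t := by
      unfold bl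
      apply min_eq_left
      have h5 : 2 ^ (t + 1) ≤ 2 ^ n := Nat.pow_le_pow_right (by norm_num) (by omega)
      rw [pow_succ] at h5
      omega
    rw [h4]
    refine kerC_bound (by positivity) ?_ hp0 hp1
    intro j hj
    have h5 : (2 ^ t + j) + 2 ^ (n - 1) ≤ k := by
      have h6 : 2 ^ (t + 1) ≤ 2 ^ (n - 1) := Nat.pow_le_pow_right (by norm_num) (by omega)
      have h7 : 2 ^ n = 2 ^ (n - 1) + 2 ^ (n - 1) := by
        rw [← mul_two, ← pow_succ]; congr 1; omega
      rw [pow_succ] at h6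
      omega
    have h6 : ((2 ^ t + j : ℕ) : ℝ) + 2 ^ (n - 1) ≤ k := by exact_mod_cast h5
    have h7 : (0 : ℝ) < 2 ^ (n - 1) := by positivity
    rw [abs_of_nonneg (div_nonneg zero_le_one (by linarith))]
    obtain ⟨u, hu⟩ : ∃ u, n = t + 2 + u := ⟨n - (t + 2), by omega⟩
    calc 1 / ((k : ℝ) - (2 ^ t + j : ℕ)) * 2 ^ t ≤ 1 / (2 : ℝ) ^ (n - 1) * 2 ^ t := by
          gcongr
          linarith
      _ = 2 * (1 / 2) ^ (n - t) := by
          rw [show n - 1 = t + (u + 1) by omega, show n - t = u + 2 by omega, pow_add, pow_add]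
          rw [one_div_pow]
          field_simp
          ring

end Pool.Agent.R165.WL
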