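import Pool.Agent.R165.WL.F

set_option autoImplicit false

/-!
# `0 < p < 1`: strong convergence; `p = 1`: weak convergence
-/

namespace Pool.Agent.R165.WL

open MeasureTheory Set Filter Topology Pool.Agent.R243.WN
open scoped ENNReal NNReal

theorem conv_null {q : ℝ} (hq0 : 0 ≤ q) (hq1 : q < 1) {ε : ℕ → ℝ}
    (h : Tendsto ε atTop (𝓝 0)) :
    Tendsto (fun n => ∑ t ∈ Finset.range (n + 1), q ^ (n - t) * ε t) atTop (𝓝 0) := by
  obtain ⟨M, hM⟩ := h.abs.bddAbove_range
  have hM' : ∀ t, |ε t| ≤ M := fun t => hM ⟨t, rfl⟩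
  have h1 : ∀ n, ∑ t ∈ Finset.range (n + 1), q ^ (n - t) * ε t =
      ∑' u, q ^ u * (if u ≤ n then ε (n - u) else 0) := by
    intro n
    rw [tsum_eq_sum (s := Finset.range (n + 1))]
    · rw [← Finset.sum_range_reflect]
      refine Finset.sum_congr rfl fun u hu => ?_
      have hu' : u ≤ n := Nat.lt_succ_iff.1 (Finset.mem_range.1 hu)
      rw [if_pos hu']
      have e1 : n + 1 - 1 - u = n - u := by omega
      have e2 : n - (n - u) = u := by omega
      rw [e1, e2]
    · intro u hu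
      rw [Finset.mem_range, not_lt] at hu
      rw [if_neg (by omega), mul_zero]
  simp only [h1]
  suffices hs : Tendsto (fun n => ∑' u, q ^ u * (if u ≤ n then ε (n - u) else 0)) atTop
      (𝓝 (∑' _u : ℕ, (0 : ℝ))) by rwa [tsum_zero] at hs
  refine tendsto_tsum_of_dominated_convergence (bound := fun u => q ^ u * M)
    ((summable_geometric_of_lt_one hq0 hq1).mul_right M) ?_ ?_
  · intro u
    have h3 : Tendsto (fun n => ε (n - u)) atTop (𝓝 0) := h.comp (tendsto_sub_atTop_nat u)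
    have h4 : Tendsto (fun n => q ^ u * ε (n - u)) atTop (𝓝 0) := by
      have := h3.const_mul (q ^ u)
      rwa [mul_zero] at this
    refine h4.congr' ?_
    filter_upwards [eventually_ge_atTop u] with n hn
    rw [if_pos hn]
  · refine Eventually.of_forall fun n u => ?_
    rw [Real.norm_eq_abs, abs_mul, abs_of_nonneg (pow_nonneg hq0 u)]
    apply mul_le_mul_of_nonneg_left _ (pow_nonneg hq0 u)
    split_ifs
    · exact hM' _
    · rw [abs_zero]
      exact (abs_nonneg _).trans (hM' 0)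

theorem log_tendsto : Tendsto (Nat.log 2) atTop atTop := by
  rw [tendsto_atTop]
  intro b
  rw [eventually_atTop]
  exact ⟨2 ^ b, fun k hk => Nat.le_log_of_pow_le one_lt_two hk⟩

theorem om_le {p : ℝ} (hp0 : 0 < p) (f : ℕ → G → ℝ) (n : ℕ) :
    om p f n ≤ 2 ^ p * hpNorm p f ^ p := by
  unfold om hpNorm
  rw [← ENNReal.rpow_mul, one_div, inv_mul_cancel₀ hp0.ne', ENNReal.rpow_one]
  rw [← lintegral_const_mul' _ _ (ENNReal.rpow_ne_top_of_nonneg hp0.le (by norm_num))]
  refine lintegral_mono fun x => ?_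
  rw [← ENNReal.mul_rpow_of_nonneg _ _ hp0.le]
  refine ENNReal.rpow_le_rpow ?_ hp0.le
  refine iSup_le fun m => ?_
  calc ‖f m x - f (min m n) x‖ₑ ≤ ‖f m x‖ₑ + ‖f (min m n) x‖ₑ := enorm_sub_le
    _ ≤ (⨆ n, ‖f n x‖ₑ) + ⨆ n, ‖f n x‖ₑ :=
        add_le_add (le_iSup (fun n => ‖f n x‖ₑ) m) (le_iSup (fun n => ‖f n x‖ₑ) (min m n))
    _ = _ := by rw [two_mul]

theorem om_lt_top {p : ℝ} (hp0 : 0 < p) {f : ℕ → G → ℝ} (hH : hpNorm p f < ⊤) (n : ℕ) :
    om p f n < ⊤ := by
  refine (om_le hp0 f n).trans_lt ?_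
  exact ENNReal.mul_lt_top (ENNReal.rpow_lt_top_of_nonneg hp0.le (by norm_num))
    (ENNReal.rpow_lt_top_of_nonneg hp0.le hH.ne)

theorem J_f_le {p : ℝ} (hp0 : 0 < p) (f : ℕ → G → ℝ) (n : ℕ) :
    J p (f n) ≤ hpNorm p f ^ p := by
  unfold J hpNorm
  rw [← ENNReal.rpow_mul, one_div, inv_mul_cancel₀ hp0.ne', ENNReal.rpow_one]
  exact lintegral_mono fun x => ENNReal.rpow_le_rpow (le_iSup (fun n => ‖f n x‖ₑ) n) hp0.le

theorem enorm_rpow_ofReal {a p : ℝ} (ha : 0 ≤ a) (hp0 : 0 < p) :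
    ‖a‖ₑ ^ p = ENNReal.ofReal (a ^ p) := by
  rw [Real.enorm_eq_ofReal_abs, abs_of_nonneg ha, ENNReal.ofReal_rpow_of_nonneg ha hp0.le]

/-- the rate -/
noncomputable def rate (p : ℝ) (f : ℕ → G → ℝ) (n : ℕ) : ℝ :=
  2 ^ p * ∑ t ∈ Finset.range (n + 1), ((1 / 2 : ℝ) ^ p) ^ (n - t) * (om p f t).toReal +
    (4 ^ p * CA p * ∑ t ∈ Finset.range (n + 1), ((1 / 2 : ℝ) ^ p) ^ (n - t) *
      (((2 : ℝ) ^ t) ^ (1 - p) * (om p f t).toReal / ((t : ℝ) + 1) ^ p) +
    ((1 / 2 : ℝ) ^ p) ^ n * (hpNorm p f ^ p).toReal)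

theorem L_bound {p : ℝ} (hp0 : 0 < p) (hp1 : p < 1) {f : ℕ → G → ℝ} (hf : Martingale f F mu)
    (hH : hpNorm p f < ⊤) {k n : ℕ} (h1 : 2 ^ n ≤ k) (h2 : k < 2 ^ (n + 1)) :
    J p (fun x => L f k x - f n x) ≤ ENNReal.ofReal (rate p f n) := by
  have hk0 : 0 < k := lt_of_lt_of_le (Nat.two_pow_pos n) h1
  have hkR : (0 : ℝ) < k := by exact_mod_cast hk0
  have hlog : Nat.log 2 k = n := Nat.log_eq_of_pow_le_of_lt_pow h1 h2
  have hl := ll_lower hk0.ne'
  rw [hlog] at hl
  have hn0 : (0 : ℝ) ≤ n := Nat.cast_nonneg n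
  have hl0 : 0 < ll k := by linarith
  have hl1 : 1 ≤ ll k := by
    have h3 := ll_mono hk0
    have : ll 1 = 1 := by simp [ll]
    calc (1 : ℝ) = ll 1 := this.symm
      _ ≤ ll k := h3
  have hmf : ∀ n, Measurable (f n) := fun n => (mart_dep hf n).measurable
  have hmK : ∀ t, Measurable (Kt f k t) := by
    intro t
    unfold Kt
    refine Finset.measurable_fun_sum _ fun i hi => ?_
    have hi' : i ≤ 2 ^ t := (Finset.mem_range.1 hi).le.trans (min_le_left _ _)
    exact measurable_const.mul (dep_Sg hi' _).measurable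
  have hom : ∀ t, om p f t = ENNReal.ofReal (om p f t).toReal := fun t =>
    (ENNReal.ofReal_toReal (om_lt_top hp0 hH t).ne).symm
  have hHH : hpNorm p f ^ p = ENNReal.ofReal (hpNorm p f ^ p).toReal :=
    (ENNReal.ofReal_toReal (ENNReal.rpow_lt_top_of_nonneg hp0.le hH.ne).ne).symm
  have hq : ∀ u : ℕ, ((2 : ℝ) * (1 / 2) ^ u) ^ p = 2 ^ p * ((1 / 2 : ℝ) ^ p) ^ u := by
    intro u
    rw [Real.mul_rpow (by norm_num) (by positivity), ← Real.rpow_natCast, ← Real.rpow_natCast,
      ← Real.rpow_mul (by norm_num), ← Real.rpow_mul (by norm_num), mul_comm p (u : ℝ)]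
  have e1 : (fun x => L f k x - f n x) = fun x =>
      ∑ t ∈ Finset.range (n + 1), (1 / ll k * Wt k t) * (f t x - f n x) +
      (∑ t ∈ Finset.range (n + 1), 1 / ll k * (w (2 ^ t) x * Kt f k t x) +
        (-(1 / ll k * (1 / k))) * f n x) := by
    funext x
    exact L_diff hf h1 h2 x
  rw [e1]
  have m1 : Measurable (fun x => ∑ t ∈ Finset.range (n + 1), (1 / ll k * Wt k t) *
      (f t x - f n x)) :=
    Finset.measurable_fun_sum _ fun t _ => measurable_const.mul ((hmf t).sub (hmf n))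
  have m2 : Measurable (fun x => ∑ t ∈ Finset.range (n + 1), 1 / ll k *
      (w (2 ^ t) x * Kt f k t x)) :=
    Finset.measurable_fun_sum _ fun t _ => measurable_const.mul ((w_measurable _).mul (hmK t))
  refine (J_add_le m1 hp0 hp1.le).trans ?_
  unfold rate
  have hA0 : ∀ t, 0 ≤ (om p f t).toReal := fun t => ENNReal.toReal_nonneg
  have hCA := CA_nonneg p
  rw [ENNReal.ofReal_add (by positivity) (by positivity),
    ENNReal.ofReal_add (by positivity) (by positivity)]
  refine add_le_add ?_ ((J_add_le m2 hp0 hp1.le).trans (add_le_add ?_ ?_))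
  · refine (J_sum_le (f := fun t x => (1 / ll k * Wt k t) * (f t x - f n x)) _
      (fun t _ => measurable_const.mul ((hmf t).sub (hmf n))) hp0 hp1.le).trans ?_
    rw [Finset.mul_sum, ENNReal.ofReal_sum_of_nonneg (fun t _ => by positivity)]
    refine Finset.sum_le_sum fun t ht => ?_
    have ht' : t ≤ n := Nat.lt_succ_iff.1 (Finset.mem_range.1 ht)
    have hW0 : 0 ≤ 1 / ll k * Wt k t := mul_nonneg (by positivity) (Wt_nonneg k t)
    rw [J_const_mul _ _ hp0, enorm_rpow_ofReal hW0 hp0]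
    have h3 : J p (fun x => f t x - f n x) ≤ om p f t := by
      have h4 : J p (fun x => f t x - f n x) = J p (fun x => f n x - f t x) := by
        unfold J
        refine lintegral_congr fun x => ?_
        rw [← enorm_neg, neg_sub]
      rw [h4]
      exact J_diff_le hp0 f ht'
    rw [← mul_assoc, ← hq, ENNReal.ofReal_mul (by positivity), ← hom]
    refine mul_le_mul' (ENNReal.ofReal_le_ofReal ?_) h3
    exact Real.rpow_le_rpow hW0 (Wt_le h1 h2 ht') hp0.le
  · refine (J_sum_le (f := fun t x => 1 / ll k * (w (2 ^ t) x * Kt f k t x)) _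
      (fun t _ => measurable_const.mul ((w_measurable _).mul (hmK t))) hp0 hp1.le).trans ?_
    rw [Finset.mul_sum, ENNReal.ofReal_sum_of_nonneg (fun t _ => by positivity)]
    refine Finset.sum_le_sum fun t ht => ?_
    have ht' : t ≤ n := Nat.lt_succ_iff.1 (Finset.mem_range.1 ht)
    rw [J_const_mul _ _ hp0, J_w_mul, enorm_rpow_ofReal (by positivity) hp0]
    have h3 := J_Kt hf h1 ht' hp0 hp1
    have h4 := J_ee hp0 f t
    calc ENNReal.ofReal ((1 / ll k) ^ p) * J p (Kt f k t)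
        ≤ ENNReal.ofReal ((1 / ll k) ^ p) * (ENNReal.ofReal (((2 : ℝ) ^ t) ^ (1 - p)) *
            ENNReal.ofReal (om p f t).toReal *
            ENNReal.ofReal ((2 * (1 / 2) ^ (n - t)) ^ p * CA p)) := by
          rw [← hom]
          gcongr
          refine h3.trans ?_
          gcongr
      _ = ENNReal.ofReal ((1 / ll k) ^ p * (((2 : ℝ) ^ t) ^ (1 - p) * (om p f t).toReal *
            ((2 * (1 / 2) ^ (n - t)) ^ p * CA p))) := by
          rw [← ENNReal.ofReal_mul (by positivity), ← ENNReal.ofReal_mul (by positivity),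
            ← ENNReal.ofReal_mul (by positivity)]
      _ ≤ _ := by
          apply ENNReal.ofReal_le_ofReal
          have ht0 : (0 : ℝ) ≤ t := Nat.cast_nonneg t
          have htn : (t : ℝ) ≤ n := by exact_mod_cast ht'
          have h5 : (1 / ll k) ^ p ≤ 2 ^ p / ((t : ℝ) + 1) ^ p := by
            rw [← Real.div_rpow (by norm_num) (by positivity)]
            refine Real.rpow_le_rpow (by positivity) ?_ hp0.le
            rw [div_le_div_iff₀ hl0 (by positivity)]
            linarith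
          rw [hq]
          calc (1 / ll k) ^ p * (((2 : ℝ) ^ t) ^ (1 - p) * (om p f t).toReal *
                (2 ^ p * ((1 / 2 : ℝ) ^ p) ^ (n - t) * CA p))
              ≤ (2 ^ p / ((t : ℝ) + 1) ^ p) * (((2 : ℝ) ^ t) ^ (1 - p) * (om p f t).toReal *
                (2 ^ p * ((1 / 2 : ℝ) ^ p) ^ (n - t) * CA p)) := by gcongr
            _ = _ := by
                have h6 : (4 : ℝ) ^ p = 2 ^ p * 2 ^ p := by
                  rw [← Real.mul_rpow (by norm_num) (by norm_num)]; norm_num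
                rw [h6]
                ring
  · rw [J_const_mul _ _ hp0, enorm_neg, enorm_rpow_ofReal (by positivity) hp0,
      ENNReal.ofReal_mul (by positivity), ← hHH]
    refine mul_le_mul' (ENNReal.ofReal_le_ofReal ?_) (J_f_le hp0 f n)
    have h3 : 1 / ll k * (1 / (k : ℝ)) ≤ (1 / 2) ^ n := by
      have h4 : (2 : ℝ) ^ n ≤ k := by exact_mod_cast h1
      rw [one_div_pow]
      calc 1 / ll k * (1 / (k : ℝ)) ≤ 1 * (1 / 2 ^ n) := by
            gcongr
            rw [div_le_one hl0]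
            exact hl1
        _ = _ := one_mul _
    have h4 : ((1 / 2 : ℝ) ^ p) ^ n = ((1 / 2 : ℝ) ^ n) ^ p := by
      rw [← Real.rpow_natCast, ← Real.rpow_natCast,
      ← Real.rpow_mul (by norm_num), ← Real.rpow_mul (by norm_num), mul_comm p (n : ℝ)]
    rw [h4]
    exact Real.rpow_le_rpow (by positivity) h3 hp0.le

theorem small_p {p : ℝ} (hp0 : 0 < p) (hp1 : p < 1) {f : ℕ → G → ℝ} (hf : Martingale f F mu)
    (hH : hpNorm p f < ⊤) (hA : Tendsto (om p f) atTop (𝓝 0))
    (hB : Tendsto (fun t : ℕ => ((2 : ℝ) ^ t) ^ (1 - p) * (om p f t).toReal / ((t : ℝ) + 1) ^ p)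
      atTop (𝓝 0)) {g : G → ℝ}
    (hga : ∀ᵐ x ∂mu, Tendsto (fun n => f n x) atTop (𝓝 (g x))) :
    Tendsto (fun k => J p (fun x => L f k x - g x)) atTop (𝓝 0) := by
  have hmf : ∀ n, Measurable (f n) := fun n => (mart_dep hf n).measurable
  have hmL : ∀ k, Measurable (L f k) := by
    intro k
    unfold L
    refine measurable_const.mul (Finset.measurable_fun_sum _ fun j _ => ?_)
    refine Measurable.div_const ?_ _
    unfold S
    exact Finset.measurable_fun_sum _ fun i _ => measurable_const.mul (w_measurable i)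
  have hq0 : (0 : ℝ) ≤ (1 / 2 : ℝ) ^ p := by positivity
  have hq1 : (1 / 2 : ℝ) ^ p < 1 := Real.rpow_lt_one (by norm_num) (by norm_num) hp0
  have hA' : Tendsto (fun t => (om p f t).toReal) atTop (𝓝 0) := by
    have := (ENNReal.tendsto_toReal ENNReal.zero_ne_top).comp hA
    rw [ENNReal.toReal_zero] at this
    exact this
  have h1 : Tendsto (rate p f) atTop (𝓝 0) := by
    have h2 := (conv_null hq0 hq1 hA').const_mul ((2 : ℝ) ^ p)
    have h3 := (conv_null hq0 hq1 hB).const_mul (4 ^ p * CA p)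
    have h4 := (tendsto_pow_atTop_nhds_zero_of_lt_one hq0 hq1).mul_const (hpNorm p f ^ p).toReal
    have h5 := h2.add (h3.add h4)
    simp only [mul_zero, zero_mul, add_zero] at h5
    exact h5
  have h2 : Tendsto (fun n => ENNReal.ofReal (rate p f n) + om p f n) atTop (𝓝 0) := by
    have h3 := (ENNReal.tendsto_ofReal h1).add hA
    rwa [ENNReal.ofReal_zero, add_zero] at h3
  have h3 := h2.comp log_tendsto
  refine tendsto_of_tendsto_of_tendsto_of_le_of_le' tendsto_const_nhds h3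
    (Eventually.of_forall fun _ => zero_le) ?_
  filter_upwards [eventually_gt_atTop 0] with k hk
  set n := Nat.log 2 k with hn
  have e1 : (fun x => L f k x - g x) = fun x => (L f k x - f n x) + (f n x - g x) := by
    funext x; ring
  rw [e1]
  refine (J_add_le ((hmL k).sub (hmf n)) hp0 hp1.le).trans ?_
  exact add_le_add (L_bound hp0 hp1 hf hH (Nat.pow_log_le_self 2 hk.ne')
    (Nat.lt_pow_succ_log_self one_lt_two k)) (J_lim_le hp0 hga n)

end Pool.Agent.R165.WL
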