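import Pool.Agent.R165.WL.G

set_option autoImplicit false

/-!
# `p = 1` and the main theorems
-/

namespace Pool.Agent.R165.WL

open MeasureTheory Set Filter Topology Pool.Agent.R243.WN
open scoped ENNReal NNReal

theorem L_measurable (f : ℕ → G → ℝ) (k : ℕ) : Measurable (L f k) := by
  unfold L
  refine measurable_const.mul (Finset.measurable_fun_sum _ fun j _ => ?_)
  refine Measurable.div_const ?_ _
  unfold S
  exact Finset.measurable_fun_sum _ fun i _ => measurable_const.mul (w_measurable i)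

theorem ft_sub {K : ℕ} {g h : G → ℝ} (hg : Dep K g) (hh : Dep K h) {i : ℕ} (hi : i < 2 ^ K) :
    ft (fun x => g x - h x) i = ft g i - ft h i := by
  unfold ft
  rw [← integral_sub ((hg.mul (dep_w hi)).integrable mu) ((hh.mul (dep_w hi)).integrable mu)]
  congr 1
  funext x
  ring

theorem Sg_sub {K : ℕ} {g h : G → ℝ} (hg : Dep K g) (hh : Dep K h) {j : ℕ} (hj : j ≤ 2 ^ K) (x : G) :
    Sg (fun x => g x - h x) j x = Sg g j x - Sg h j x := by
  unfold Sg
  rw [← Finset.sum_sub_distrib]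
  refine Finset.sum_congr rfl fun i hi => ?_
  rw [ft_sub hg hh ((Finset.mem_range.1 hi).trans_le hj)]
  ring

theorem ft_high {m i : ℕ} {g : G → ℝ} (hg : Dep m g) (hi : 2 ^ m ≤ i) : ft g i = 0 := by
  have hi0 : i ≠ 0 := by
    have := Nat.two_pow_pos m
    omega
  set k := Nat.log 2 i with hk
  have h1 : 2 ^ k ≤ i := Nat.pow_log_le_self 2 hi0
  have h2 : i < 2 ^ (k + 1) := Nat.lt_pow_succ_log_self one_lt_two i
  have hmk : m ≤ k := Nat.le_log_of_pow_le one_lt_two hi
  obtain ⟨u, hu⟩ := Nat.exists_eq_add_of_le h1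
  have hu2 : u < 2 ^ k := by rw [pow_succ] at h2; omega
  unfold ft
  apply integral_zero_of_flip k
  · intro x
    rw [w_flip, hg.flp hmk, hu, Nat.testBit_two_pow_add_eq, testBit_false hu2]
    simp
  · exact hg.measurable.mul (w_measurable i)

theorem Sg_high {m j : ℕ} {g : G → ℝ} (hg : Dep m g) (hj : 2 ^ m ≤ j) (x : G) :
    Sg g j x = g x := by
  obtain ⟨u, rfl⟩ := Nat.exists_eq_add_of_le hj
  unfold Sg
  rw [Finset.sum_range_add]
  have h1 : ∑ i ∈ Finset.range u, ft g (2 ^ m + i) * w (2 ^ m + i) x = 0 := by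
    refine Finset.sum_eq_zero fun i _ => ?_
    rw [ft_high hg (by omega), zero_mul]
  rw [h1, add_zero]
  exact Sg_inv hg x

/-- logarithmic means of polynomials converge uniformly -/
theorem poly_unif' {m : ℕ} {g : G → ℝ} (hg : Dep m g) {C : ℝ} (hC0 : 0 ≤ C) (hC : ∀ x, |g x| ≤ C)
    (k : ℕ) (hk : 2 ^ m < k) (x : G) :
    |1 / ll k * Lam k g x - g x| ≤ 2 ^ m * ((2 ^ m + 1) * C) / (k - 2 ^ m) := by
  have hft : ∀ i, |ft g i| ≤ C := by
    intro i
    unfold ft
    have h1 := norm_integral_le_of_norm_le_const (μ := mu) (f := fun x => g x * w i x) (C := C)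
      (Eventually.of_forall fun x => by
        rw [Real.norm_eq_abs, abs_mul, w_abs, mul_one]
        exact hC x)
    rw [Real.norm_eq_abs] at h1
    simpa using h1
  have hSg : ∀ j, ∀ x, |Sg g j x| ≤ j * C := by
    intro j x
    unfold Sg
    refine (Finset.abs_sum_le_sum_abs _ _).trans ?_
    calc ∑ i ∈ Finset.range j, |ft g i * w i x| ≤ ∑ _i ∈ Finset.range j, C := by
          refine Finset.sum_le_sum fun i _ => ?_
          rw [abs_mul, w_abs, mul_one]
          exact hft i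
      _ = j * C := by rw [Finset.sum_const, Finset.card_range, nsmul_eq_mul]
  have hk0 : 0 < k := (Nat.two_pow_pos m).trans hk
  have hl1 : 1 ≤ ll k := by
    have h3 := ll_mono hk0
    have : ll 1 = 1 := by simp [ll]
    calc (1 : ℝ) = ll 1 := this.symm
      _ ≤ ll k := h3
  have hl0 : 0 < ll k := by linarith
  have hkR : (0 : ℝ) < (k : ℝ) - 2 ^ m := by
    have : ((2 ^ m : ℕ) : ℝ) < k := by exact_mod_cast hk
    push_cast at this
    linarith
  have e1 : 1 / ll k * Lam k g x - g x =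
      1 / ll k * ∑ j ∈ Finset.range k, 1 / ((k : ℝ) - j) * (Sg g j x - g x) := by
    have e2 : g x = 1 / ll k * (ll k * g x) := by field_simp
    conv_lhs => rw [e2]
    unfold Lam
    rw [← mul_sub, ← ll_reflect, Finset.sum_mul, ← Finset.sum_sub_distrib]
    congr 1
    refine Finset.sum_congr rfl fun j _ => ?_
    ring
  have e2 : ∑ j ∈ Finset.range k, 1 / ((k : ℝ) - j) * (Sg g j x - g x) =
      ∑ j ∈ Finset.range (2 ^ m), 1 / ((k : ℝ) - j) * (Sg g j x - g x) := by
    symm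
    refine Finset.sum_subset (Finset.range_mono hk.le) fun j _ hj => ?_
    rw [Finset.mem_range, not_lt] at hj
    rw [Sg_high hg hj, sub_self, mul_zero]
  rw [e1, e2, abs_mul, abs_of_pos (by positivity : 0 < 1 / ll k)]
  have h3 : |∑ j ∈ Finset.range (2 ^ m), 1 / ((k : ℝ) - j) * (Sg g j x - g x)| ≤
      2 ^ m * ((2 ^ m + 1) * C) / (k - 2 ^ m) := by
    refine (Finset.abs_sum_le_sum_abs _ _).trans ?_
    calc ∑ j ∈ Finset.range (2 ^ m), |1 / ((k : ℝ) - j) * (Sg g j x - g x)|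
        ≤ ∑ _j ∈ Finset.range (2 ^ m), 1 / ((k : ℝ) - 2 ^ m) * ((2 ^ m + 1) * C) := by
          refine Finset.sum_le_sum fun j hj => ?_
          have hj' : j < 2 ^ m := Finset.mem_range.1 hj
          have hjR : (j : ℝ) ≤ 2 ^ m := by exact_mod_cast hj'.le
          rw [abs_mul, abs_of_nonneg (div_nonneg zero_le_one (by linarith))]
          apply mul_le_mul
          · exact one_div_le_one_div_of_le hkR (by linarith)
          · refine (abs_sub _ _).trans ?_
            have h4 := hSg j x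
            have h5 := hC x
            have h6 : (j : ℝ) * C ≤ 2 ^ m * C := by gcongr
            linarith
          · exact abs_nonneg _
          · positivity
      _ = _ := by
          rw [Finset.sum_const, Finset.card_range, nsmul_eq_mul]
          push_cast
          ring
  calc 1 / ll k * |∑ j ∈ Finset.range (2 ^ m), 1 / ((k : ℝ) - j) * (Sg g j x - g x)|
      ≤ 1 * |∑ j ∈ Finset.range (2 ^ m), 1 / ((k : ℝ) - j) * (Sg g j x - g x)| := by
        gcongr
        rw [div_le_one hl0]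
        exact hl1
    _ ≤ _ := by rw [one_mul]; exact h3

theorem poly_unif {m : ℕ} {g : G → ℝ} (hg : Dep m g) :
    ∃ C : ℝ, 0 ≤ C ∧ ∀ k : ℕ, 2 ^ m < k → ∀ x, |1 / ll k * Lam k g x - g x| ≤ C / (k - 2 ^ m) := by
  obtain ⟨C, hC0, hC⟩ := hg.bounded
  exact ⟨2 ^ m * ((2 ^ m + 1) * C), by positivity, fun k hk x => poly_unif' hg hC0 hC k hk x⟩

theorem L_eq_Lam {f : ℕ → G → ℝ} (hf : Martingale f F mu) {k K : ℕ} (hk : k ≤ 2 ^ K) (x : G) :
    L f k x = 1 / ll k * Lam k (f K) x := by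
  unfold L Lam
  rw [l_eq]
  congr 1
  refine Finset.sum_congr rfl fun j hj => ?_
  rw [S_eq hf ((Finset.mem_range.1 hj).le.trans hk)]
  ring

theorem Lam_sub {K : ℕ} {g h : G → ℝ} (hg : Dep K g) (hh : Dep K h) {k : ℕ} (hk : k ≤ 2 ^ K)
    (x : G) : Lam k (fun x => g x - h x) x = Lam k g x - Lam k h x := by
  unfold Lam
  rw [← Finset.sum_sub_distrib]
  refine Finset.sum_congr rfl fun j hj => ?_
  rw [Sg_sub hg hh ((Finset.mem_range.1 hj).le.trans hk)]
  ring

theorem one_bound {f : ℕ → G → ℝ} (hf : Martingale f F mu) {g : G → ℝ} (hgm : Measurable g)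
    (hga : ∀ᵐ x ∂mu, Tendsto (fun n => f n x) atTop (𝓝 (g x))) (m : ℕ) {k : ℕ} (hk : k ≠ 0) {c : ℝ}
    (hc : ∀ x, |1 / ll k * Lam k (f m) x - f m x| ≤ c) (hmk : m ≤ k) :
    wk 1 (fun x => L f k x - g x) ≤ 159 * om 1 f m + ENNReal.ofReal (3 * c) := by
  unfold wk
  refine iSup_le fun t => ?_
  rw [ENNReal.rpow_one]
  rcases eq_or_ne t 0 with ht | ht
  · subst ht
    simp
  have ht0 : 0 < t := pos_iff_ne_zero.2 ht
  set τ : ℝ := (t : ℝ) with hτ
  have hτ0 : 0 < τ := ht0
  have htE : (t : ℝ≥0∞) = ENNReal.ofReal τ := by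
    rw [hτ, ENNReal.ofReal_coe_nnreal]
  have hkK : k < 2 ^ k := Nat.lt_two_pow_self
  set A : G → ℝ := fun x => 1 / ll k * Lam k (fun x => f k x - f m x) x with hA
  set B : G → ℝ := fun x => 1 / ll k * Lam k (f m) x - f m x with hB
  set E : G → ℝ := fun x => f m x - g x with hE
  have hdk := mart_dep hf k
  have hdm := (mart_dep hf m).mono hmk
  have e1 : ∀ x, L f k x - g x = A x + B x + E x := by
    intro x
    rw [L_eq_Lam hf hkK.le, hA, hB, hE]
    beta_reduce
    rw [Lam_sub hdk hdm hkK.le]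
    ring
  have h1 : {x | (t : ℝ≥0∞) < ‖L f k x - g x‖ₑ} ⊆
      {x | τ / 3 < |A x|} ∪ ({x | τ / 3 < |B x|} ∪ {x | τ / 3 ≤ |E x|}) := by
    intro x hx
    simp only [Set.mem_union, Set.mem_ofPred_eq] at hx ⊢
    rw [htE, Real.enorm_eq_ofReal_abs, ENNReal.ofReal_lt_ofReal_iff_of_nonneg hτ0.le] at hx
    by_contra hcon
    push Not at hcon
    obtain ⟨h2, h3, h4⟩ := hcon
    rw [e1] at hx
    have h5 := abs_add_le (A x + B x) (E x)
    have h6 := abs_add_le (A x) (B x)
    linarith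
  have hAm : mu {x | τ / 3 < |A x|} ≤ ENNReal.ofReal (52 / (τ / 3)) * om 1 f m := by
    refine (weak_type hk hkK (hdk.sub hdm) (τ := τ / 3) (by positivity)).trans ?_
    gcongr
    exact J_diff_le one_pos f hmk
  have hEm : mu {x | τ / 3 ≤ |E x|} ≤ ENNReal.ofReal (1 / (τ / 3)) * om 1 f m := by
    refine (markov (((mart_dep hf m).measurable).sub hgm) (τ := τ / 3) (by positivity)).trans ?_
    gcongr
    exact J_lim_le one_pos hga m
  have hBm : ENNReal.ofReal τ * mu {x | τ / 3 < |B x|} ≤ ENNReal.ofReal (3 * c) := by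
    by_cases h2 : τ / 3 < c
    · calc ENNReal.ofReal τ * mu {x | τ / 3 < |B x|} ≤ ENNReal.ofReal (3 * c) * 1 := by
            gcongr
            · linarith
            · exact prob_le_one
        _ = _ := mul_one _
    · have h3 : {x | τ / 3 < |B x|} = ∅ := by
        ext x
        simp only [Set.mem_ofPred_eq, Set.mem_empty_iff_false, iff_false, not_lt]
        exact (hc x).trans (not_lt.1 h2)
      rw [h3]
      simp
  calc (t : ℝ≥0∞) * mu {x | (t : ℝ≥0∞) < ‖L f k x - g x‖ₑ}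
      ≤ ENNReal.ofReal τ * (mu {x | τ / 3 < |A x|} + (mu {x | τ / 3 < |B x|} +
          mu {x | τ / 3 ≤ |E x|})) := by
        rw [htE]
        gcongr
        refine (measure_mono ?_).trans ((measure_union_le _ _).trans
          (add_le_add le_rfl (measure_union_le _ _)))
        rw [htE] at h1
        exact h1
    _ = ENNReal.ofReal τ * mu {x | τ / 3 < |A x|} + (ENNReal.ofReal τ * mu {x | τ / 3 < |B x|} +
          ENNReal.ofReal τ * mu {x | τ / 3 ≤ |E x|}) := by rw [mul_add, mul_add]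
    _ ≤ ENNReal.ofReal τ * (ENNReal.ofReal (52 / (τ / 3)) * om 1 f m) + (ENNReal.ofReal (3 * c) +
          ENNReal.ofReal τ * (ENNReal.ofReal (1 / (τ / 3)) * om 1 f m)) := by
        gcongr
    _ = 156 * om 1 f m + (ENNReal.ofReal (3 * c) + 3 * om 1 f m) := by
        rw [← mul_assoc, ← mul_assoc, ← ENNReal.ofReal_mul hτ0.le, ← ENNReal.ofReal_mul hτ0.le]
        have e2 : τ * (52 / (τ / 3)) = 156 := by field_simp; norm_num
        have e3 : τ * (1 / (τ / 3)) = 3 := by field_simp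
        rw [e2, e3]
        norm_num
    _ = _ := by
        rw [add_comm (ENNReal.ofReal (3 * c)), ← add_assoc, ← add_mul]
        norm_num

theorem one_p {f : ℕ → G → ℝ} (hf : Martingale f F mu) (hA : Tendsto (om 1 f) atTop (𝓝 0))
    {g : G → ℝ} (hgm : Measurable g)
    (hga : ∀ᵐ x ∂mu, Tendsto (fun n => f n x) atTop (𝓝 (g x))) :
    Tendsto (fun k => wk 1 (fun x => L f k x - g x)) atTop (𝓝 0) := by
  rw [ENNReal.tendsto_atTop_zero]
  intro ε hε
  rcases eq_or_ne ε ⊤ with hT | hT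
  · exact ⟨0, fun n _ => hT ▸ le_top⟩
  have h1 : Tendsto (fun n => 159 * om 1 f n) atTop (𝓝 0) := by
    have := ENNReal.Tendsto.const_mul (a := 159) hA (Or.inr (by norm_num))
    rwa [mul_zero] at this
  have hε2 : 0 < ε / 2 := ENNReal.half_pos hε.ne'
  obtain ⟨m, hm⟩ := (h1.eventually (gt_mem_nhds hε2)).exists
  obtain ⟨C, hC0, hC⟩ := poly_unif (mart_dep hf m)
  have h2 : Tendsto (fun k : ℕ => ENNReal.ofReal (3 * (C / ((k : ℝ) - 2 ^ m)))) atTop (𝓝 0) := by
    have h3 : Tendsto (fun k : ℕ => (k : ℝ) - 2 ^ m) atTop atTop :=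
      tendsto_atTop_add_const_right _ _ tendsto_natCast_atTop_atTop
    have h4 := (h3.const_div_atTop C).const_mul 3
    rw [mul_zero] at h4
    have h5 := ENNReal.tendsto_ofReal h4
    rwa [ENNReal.ofReal_zero] at h5
  obtain ⟨N, hN⟩ := eventually_atTop.1 (h2.eventually (gt_mem_nhds hε2))
  refine ⟨max N (2 ^ m + 1), fun k hk => ?_⟩
  have hk1 : N ≤ k := (le_max_left _ _).trans hk
  have hk2 : 2 ^ m < k := Nat.lt_of_succ_le ((le_max_right _ _).trans hk)
  have hmk : m ≤ k := by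
    have : m < 2 ^ m := Nat.lt_two_pow_self
    omega
  refine (one_bound hf hgm hga m ((Nat.two_pow_pos m).trans hk2).ne' (hC k hk2) hmk).trans ?_
  calc 159 * om 1 f m + ENNReal.ofReal (3 * (C / ((k : ℝ) - 2 ^ m))) ≤ ε / 2 + ε / 2 :=
        add_le_add hm.le (hN k hk1).le
    _ = ε := ENNReal.add_halves ε

/-- for `f ∈ H_1` the modulus tends to zero -/
theorem om_one_tendsto {f : ℕ → G → ℝ} (hf : Martingale f F mu) (hH : hpNorm 1 f < ⊤) :
    Tendsto (om 1 f) atTop (𝓝 0) := by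
  have hmf : ∀ n, Measurable (f n) := fun n => (mart_dep hf n).measurable
  have hH' : ∫⁻ x, (⨆ n, ‖f n x‖ₑ) ∂mu < ⊤ := by
    unfold hpNorm at hH
    simpa using hH
  have h1 : ∀ᵐ x ∂mu, ∃ c, Tendsto (fun n => f n x) atTop (𝓝 c) := by
    have hb : ∀ n, eLpNorm (f n) 1 mu ≤ ((∫⁻ x, (⨆ n, ‖f n x‖ₑ) ∂mu).toNNReal : ℝ≥0∞) := by
      intro n
      rw [eLpNorm_one_eq_lintegral_enorm, ENNReal.coe_toNNReal hH'.ne]
      exact lintegral_mono fun x => le_iSup (fun n => ‖f n x‖ₑ) n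
    have h2 := hf.submartingale.ae_tendsto_limitProcess hb
    filter_upwards [h2] with x hx
    exact ⟨_, hx⟩
  have h2 : Tendsto (fun n => ∫⁻ x, (⨆ m, ‖f m x - f (min m n) x‖ₑ) ∂mu) atTop
      (𝓝 (∫⁻ _x, (0 : ℝ≥0∞) ∂mu)) := by
    refine tendsto_lintegral_of_dominated_convergence (fun x => 2 * ⨆ n, ‖f n x‖ₑ)
      (fun n => osc_measurable hmf n) ?_ ?_ ?_
    · intro n
      refine Eventually.of_forall fun x => ?_
      refine iSup_le fun m => ?_
      calc ‖f m x - f (min m n) x‖ₑ ≤ ‖f m x‖ₑ + ‖f (min m n) x‖ₑ := enorm_sub_le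
        _ ≤ (⨆ n, ‖f n x‖ₑ) + ⨆ n, ‖f n x‖ₑ :=
            add_le_add (le_iSup (fun n => ‖f n x‖ₑ) m) (le_iSup (fun n => ‖f n x‖ₑ) (min m n))
        _ = 2 * ⨆ n, ‖f n x‖ₑ := by rw [two_mul]
    · rw [lintegral_const_mul' _ _ (by norm_num)]
      exact (ENNReal.mul_lt_top (by norm_num) hH').ne
    · filter_upwards [h1] with x hx
      obtain ⟨c, hc⟩ := hx
      rw [ENNReal.tendsto_atTop_zero]
      intro ε hε
      rcases eq_or_ne ε ⊤ with hT | hT
      · exact ⟨0, fun n _ => hT ▸ le_top⟩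
      have hε' : 0 < ε.toReal := ENNReal.toReal_pos hε.ne' hT
      obtain ⟨N, hN⟩ := Metric.cauchySeq_iff.1 hc.cauchySeq ε.toReal hε'
      refine ⟨N, fun n hn => iSup_le fun m => ?_⟩
      rcases le_total m n with h | h
      · rw [min_eq_left h]
        simp
      · rw [min_eq_right h]
        have h3 := hN m (hn.trans h) n hn
        rw [Real.dist_eq] at h3
        rw [Real.enorm_eq_ofReal_abs, ← ENNReal.ofReal_toReal hT]
        exact ENNReal.ofReal_le_ofReal h3.le
  rw [lintegral_zero] at h2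
  refine h2.congr fun n => ?_
  unfold om
  simp only [ENNReal.rpow_one]

theorem main_one {f : ℕ → G → ℝ} (hf : Martingale f F mu) (hH : hpNorm 1 f < ⊤) :
    ∃ g : G → ℝ, Measurable g ∧ (∀ᵐ x ∂mu, Tendsto (fun n => f n x) atTop (𝓝 (g x))) ∧
      Tendsto (fun k => wkNorm 1 (fun x => L f k x - g x)) atTop (𝓝 0) := by
  have hA := om_one_tendsto hf hH
  obtain ⟨g, hgm, hga⟩ := exists_lim one_pos (fun n => (mart_dep hf n).measurable) hA
  exact ⟨g, hgm, hga, wkNorm_tendsto one_pos (one_p hf hA hgm hga)⟩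

theorem main_small {p : ℝ} (hp0 : 0 < p) (hp1 : p < 1) {f : ℕ → G → ℝ} (hf : Martingale f F mu)
    (hH : hpNorm p f < ⊤)
    (hω : ∀ ε : ℝ, 0 < ε → ∀ᶠ n : ℕ in atTop,
      modulus p f n ≤ ENNReal.ofReal (ε * ((n : ℝ) / (2 : ℝ) ^ ((n : ℝ) * (1 / p - 1))))) :
    ∃ g : G → ℝ, Measurable g ∧ (∀ᵐ x ∂mu, Tendsto (fun n => f n x) atTop (𝓝 (g x))) ∧
      Tendsto (fun k => pNorm p (fun x => L f k x - g x)) atTop (𝓝 0) ∧
      Tendsto (fun k => wkNorm p (fun x => L f k x - g x)) atTop (𝓝 0) := by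
  set c : ℝ := 1 / p - 1 with hc
  have hc0 : 0 < c := by
    rw [hc, sub_pos, lt_div_iff₀ hp0, one_mul]
    exact hp1
  have hcp : c * p = 1 - p := by
    rw [hc, sub_mul, one_div, inv_mul_cancel₀ hp0.ne', one_mul]
  have hom : ∀ ε : ℝ, 0 < ε → ∀ᶠ n : ℕ in atTop,
      om p f n ≤ ENNReal.ofReal (ε ^ p * ((n : ℝ) ^ p / ((2 : ℝ) ^ n) ^ (1 - p))) := by
    intro ε hε
    filter_upwards [hω ε hε] with n hn
    rw [← modulus_rpow hp0]
    refine (ENNReal.rpow_le_rpow hn hp0.le).trans (le_of_eq ?_)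
    have hn0 : (0 : ℝ) ≤ n := Nat.cast_nonneg n
    rw [ENNReal.ofReal_rpow_of_nonneg (by positivity) hp0.le, Real.mul_rpow hε.le (by positivity),
      Real.div_rpow hn0 (by positivity), ← Real.rpow_mul (by norm_num), mul_assoc, hcp,
      ← Real.rpow_natCast, ← Real.rpow_mul (by norm_num)]
  have hA : Tendsto (om p f) atTop (𝓝 0) := by
    have h1 : Tendsto (fun n : ℕ => (n : ℝ) ^ p / ((2 : ℝ) ^ n) ^ (1 - p)) atTop (𝓝 0) := by
      have h2 : Tendsto (fun n : ℕ => (n : ℝ) ^ 1 * ((2 : ℝ)⁻¹ ^ c) ^ n) atTop (𝓝 0) := by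
        apply tendsto_pow_const_mul_const_pow_of_abs_lt_one
        rw [abs_of_nonneg (by positivity)]
        exact Real.rpow_lt_one (by norm_num) (by norm_num) hc0
      have h3 := h2.rpow_const (p := p) (Or.inr hp0.le)
      rw [Real.zero_rpow hp0.ne'] at h3
      refine h3.congr fun n => ?_
      have hn0 : (0 : ℝ) ≤ n := Nat.cast_nonneg n
      have hx : (0 : ℝ) ≤ ((2 : ℝ)⁻¹ ^ c) ^ n := pow_nonneg (Real.rpow_nonneg (by norm_num) _) _
      rw [pow_one, Real.mul_rpow hn0 hx, div_eq_mul_inv]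
      congr 1
      rw [← Real.rpow_natCast, ← Real.rpow_natCast, ← Real.rpow_mul (by positivity),
        ← Real.rpow_mul (by positivity), ← Real.rpow_mul (by positivity), Real.inv_rpow (by norm_num)]
      congr 2
      rw [← hcp]
      ring
    have h2 := ENNReal.tendsto_ofReal h1
    rw [ENNReal.ofReal_zero] at h2
    refine tendsto_of_tendsto_of_tendsto_of_le_of_le' tendsto_const_nhds h2
      (Eventually.of_forall fun _ => zero_le) ?_
    filter_upwards [hom 1 one_pos] with n hn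
    rwa [Real.one_rpow, one_mul] at hn
  have hB : Tendsto (fun t : ℕ => ((2 : ℝ) ^ t) ^ (1 - p) * (om p f t).toReal /
      ((t : ℝ) + 1) ^ p) atTop (𝓝 0) := by
    rw [Metric.tendsto_atTop']
    intro δ hδ
    have hε : 0 < (δ / 2) ^ (1 / p) := by positivity
    obtain ⟨N, hN⟩ := eventually_atTop.1 (hom _ hε)
    refine ⟨N, fun n hn => ?_⟩
    have h1 := hN n hn.le
    rw [← Real.rpow_mul (by positivity), one_div, inv_mul_cancel₀ hp0.ne', Real.rpow_one] at h1
    have h2 := ENNReal.toReal_mono ENNReal.ofReal_ne_top h1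
    have hn0 : (0 : ℝ) ≤ n := Nat.cast_nonneg n
    rw [ENNReal.toReal_ofReal (by positivity)] at h2
    have h0 : 0 ≤ (om p f n).toReal := ENNReal.toReal_nonneg
    rw [Real.dist_eq, sub_zero, abs_of_nonneg (by positivity)]
    have h3 : (0 : ℝ) < ((2 : ℝ) ^ n) ^ (1 - p) := by positivity
    calc ((2 : ℝ) ^ n) ^ (1 - p) * (om p f n).toReal / ((n : ℝ) + 1) ^ p
        ≤ ((2 : ℝ) ^ n) ^ (1 - p) * (δ / 2 * ((n : ℝ) ^ p / ((2 : ℝ) ^ n) ^ (1 - p))) /
            ((n : ℝ) + 1) ^ p := by gcongr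
      _ = δ / 2 * ((n : ℝ) ^ p / ((n : ℝ) + 1) ^ p) := by field_simp
      _ ≤ δ / 2 * 1 := by
          gcongr
          rw [div_le_one (by positivity)]
          exact Real.rpow_le_rpow hn0 (by linarith) hp0.le
      _ < δ := by linarith
  have hmf : ∀ n, Measurable (f n) := fun n => (mart_dep hf n).measurable
  obtain ⟨g, hgm, hga⟩ := exists_lim hp0 hmf hA
  have h1 := small_p hp0 hp1 hf hH hA hB hga
  refine ⟨g, hgm, hga, pNorm_tendsto hp0 h1, wkNorm_tendsto hp0 ?_⟩
  refine tendsto_of_tendsto_of_tendsto_of_le_of_le tendsto_const_nhds h1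
    (fun _ => zero_le) fun k => ?_
  exact wk_le_J hp0 ((L_measurable f k).sub hgm)

/-- the literal question -/
theorem main_Q1 {p : ℝ} (hp0 : 0 < p) (hp1 : p ≤ 1) {f : ℕ → G → ℝ} (hf : Martingale f F mu)
    (hH : hpNorm p f < ⊤)
    (hω : ∃ C : ℝ, ∀ᶠ n : ℕ in atTop, modulus p f n ≤ ENNReal.ofReal (C * (Real.log n /
      ((2 : ℝ) ^ ((n : ℝ) * (1 / p - 1)) * Real.log n ^ (2 * ⌊p⌋₊))))) :
    ∃ g : G → ℝ, Measurable g ∧ (∀ᵐ x ∂mu, Tendsto (fun n => f n x) atTop (𝓝 (g x))) ∧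
      Tendsto (fun k => wkNorm p (fun x => L f k x - g x)) atTop (𝓝 0) := by
  rcases hp1.lt_or_eq with hp | hp
  · obtain ⟨C, hC⟩ := hω
    have h0 : ⌊p⌋₊ = 0 := Nat.floor_eq_zero.2 hp
    simp only [h0, mul_zero, pow_zero, mul_one] at hC
    obtain ⟨g, h1, h2, -, h3⟩ := main_small hp0 hp hf hH (by
      intro ε hε
      have h4 : ∀ᶠ n : ℕ in atTop, |C| * Real.log n ≤ ε * n := by
        have h5 := (Real.isLittleO_log_id_atTop.def (c := ε / (|C| + 1)) (by positivity))
        have h6 := tendsto_natCast_atTop_atTop.eventually h5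
        filter_upwards [h6, eventually_ge_atTop 1] with n hn hn1
        simp only [id, Real.norm_eq_abs] at hn
        have hn0 : (0 : ℝ) ≤ n := Nat.cast_nonneg n
        have hl : 0 ≤ Real.log n := Real.log_natCast_nonneg n
        rw [abs_of_nonneg hl, abs_of_nonneg hn0] at hn
        calc |C| * Real.log n ≤ |C| * (ε / (|C| + 1) * n) := by gcongr
          _ = (|C| / (|C| + 1)) * (ε * n) := by ring
          _ ≤ 1 * (ε * n) := by
              gcongr
              rw [div_le_one (by positivity)]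
              linarith
          _ = ε * n := one_mul _
      filter_upwards [hC, h4] with n hn hn2
      refine hn.trans (ENNReal.ofReal_le_ofReal ?_)
      rw [← mul_div_assoc, ← mul_div_assoc]
      refine div_le_div_of_nonneg_right ?_ (by positivity)
      refine le_trans ?_ hn2
      have hl : 0 ≤ Real.log n := Real.log_natCast_nonneg n
      gcongr
      exact le_abs_self C)
    exact ⟨g, h1, h2, h3⟩
  · subst hp
    exact main_one hf hH

end Pool.Agent.R165.WL
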